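import Mathlib

set_option autoImplicit false

namespace Pool.Agent.Work.MP_a42ba1_al.PP

/-- Join-semidistributivity. -/
def SDJ (K : Type) [Lattice K] : Prop := ∀ a b c : K, a ⊔ b = a ⊔ c → a ⊔ (b ⊓ c) = a ⊔ b

/-- Meet-semidistributivity. -/
def SDM (K : Type) [Lattice K] : Prop := ∀ a b c : K, a ⊓ b = a ⊓ c → a ⊓ (b ⊔ c) = a ⊓ b

/-- The criterion for join-semidistributivity in terms of completely meet-irreducible elements. -/
def Crit (K : Type) [SemilatticeInf K] : Prop :=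
  ∀ m m' : K, m < m' → (∀ x, m < x → m' ≤ x) → ∀ b c : K, b ≤ m' → c ≤ m' → ¬ b ≤ m → ¬ c ≤ m →
    ¬ b ⊓ c ≤ m

theorem crit_of_sdj {K : Type} [Lattice K] (h : SDJ K) : Crit K := by
  intro m m' hm hx b c hb hc hbm hcm hbc
  have key : ∀ b, b ≤ m' → ¬ b ≤ m → m ⊔ b = m' := by
    intro b hb hbm
    apply le_antisymm (sup_le hm.le hb)
    apply hx
    exact left_lt_sup.mpr hbm
  have e := h m b c ((key b hb hbm).trans (key c hc hcm).symm)
  rw [key b hb hbm, sup_eq_left.mpr hbc] at e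
  exact absurd e hm.ne

theorem sdj_of_crit {K : Type} [Lattice K] [Finite K] (h : Crit K) : SDJ K := by
  intro a b c e
  by_contra hne
  -- maximal m above a ⊔ (b ⊓ c) not above a ⊔ b
  have hfin : ({m : K | a ⊔ (b ⊓ c) ≤ m ∧ ¬ a ⊔ b ≤ m} : Set K).Finite := Set.toFinite _
  have hnon : ({m : K | a ⊔ (b ⊓ c) ≤ m ∧ ¬ a ⊔ b ≤ m} : Set K).Nonempty :=
    ⟨a ⊔ (b ⊓ c), le_rfl, fun h' => hne (le_antisymm (sup_le_sup_left inf_le_left a) h')⟩
  obtain ⟨m, hm⟩ := hfin.exists_maximal hnon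
  have hms := hm.prop
  have hup : ∀ x, m < x → a ⊔ b ≤ x := by
    intro x hx
    by_contra hcon
    exact absurd (hm.le_of_ge ⟨hms.1.trans hx.le, hcon⟩ hx.le) (not_le_of_gt hx)
  have hup' : ∀ x, m < x → m ⊔ (a ⊔ b) ≤ x := fun x hx => sup_le hx.le (hup x hx)
  have ham : a ≤ m := le_sup_left.trans hms.1
  refine h m (m ⊔ (a ⊔ b)) (left_lt_sup.mpr hms.2) hup' b c
    (le_sup_right.trans le_sup_right) ?_ ?_ ?_ (le_sup_right.trans hms.1)
  · rw [e]
    exact le_sup_right.trans le_sup_right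
  · intro hb
    exact hms.2 (sup_le ham hb)
  · intro hc
    exact hms.2 (by rw [e]; exact sup_le ham hc)

/-- A finite meet-semilattice with top is a lattice. -/
@[instance_reducible] noncomputable def latticeOfInf (K : Type) [S : SemilatticeInf K] [OrderTop K] [Finite K] :
    Lattice K := by
  classical
  letI := Fintype.ofFinite K
  exact
    { S with
      sup := fun a b => (Finset.univ.filter (fun k : K => a ≤ k ∧ b ≤ k)).inf id
      le_sup_left := fun a b => Finset.le_inf (fun k hk => (Finset.mem_filter.mp hk).2.1)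
      le_sup_right := fun a b => Finset.le_inf (fun k hk => (Finset.mem_filter.mp hk).2.2)
      sup_le := fun a b c ha hb =>
        Finset.inf_le (f := id) (Finset.mem_filter.mpr ⟨Finset.mem_univ _, ha, hb⟩) }

section ext

variable {G : Type} [Lattice G] [BoundedOrder G]

/-- The condition defining the extension; the three bits are `u`, `x`, `y`. -/
def ExtP (D : Set G) (p : G) (z : G × Bool × Bool × Bool) : Prop :=
  (z.2.1 = true → z.2.2.1 = false → z.1 ∈ D ∧ z.2.2.2 = false) ∧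
  (z.2.2.1 = true → z.2.2.2 = true → z.2.1 = false → p ≤ z.1) ∧
  (z.2.1 = true → z.2.2.1 = true → z.2.2.2 = true → z.1 = ⊤)

theorem extP_inf {D : Set G} (hD : IsLowerSet D) {p : G} (z w : G × Bool × Bool × Bool)
    (hz : ExtP D p z) (hw : ExtP D p w) : ExtP D p (z ⊓ w) := by
  obtain ⟨A, u, x, y⟩ := z
  obtain ⟨B, u', x', y'⟩ := w
  obtain ⟨h1, h2, h3⟩ := hz
  obtain ⟨k1, k2, k3⟩ := hw
  cases u <;> cases x <;> cases y <;> cases u' <;> cases x' <;> cases y' <;>
    simp_all [ExtP]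
  all_goals first
    | exact hD inf_le_left ‹_›
    | exact hD inf_le_right ‹_›

/-- The extension. -/
def Ext (D : Set G) (p : G) : Type := {z : G × Bool × Bool × Bool // ExtP D p z}

instance (D : Set G) (p : G) : PartialOrder (Ext D p) :=
  inferInstanceAs (PartialOrder {z : G × Bool × Bool × Bool // ExtP D p z})

instance [Finite G] (D : Set G) (p : G) : Finite (Ext D p) :=
  inferInstanceAs (Finite {z : G × Bool × Bool × Bool // ExtP D p z})

theorem ext_le {D : Set G} {p : G} (z w : Ext D p) : z ≤ w ↔ z.1 ≤ w.1 := Iff.rfl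

instance (D : Set G) (p : G) : OrderTop (Ext D p) where
  top := ⟨⊤, by
    refine ⟨fun _ h => ?_, fun _ _ h => ?_, fun _ _ _ => rfl⟩ <;> simp at h⟩
  le_top := fun z => (le_top : z.1 ≤ ⊤)

/-- The meet. -/
@[instance_reducible] def extInf {D : Set G} (hD : IsLowerSet D) (p : G) :
    SemilatticeInf (Ext D p) :=
  { (inferInstance : PartialOrder (Ext D p)) with
    inf := fun z w => ⟨z.1 ⊓ w.1, extP_inf hD z.1 w.1 z.2 w.2⟩
    inf_le_left := fun z w => (inf_le_left : z.1 ⊓ w.1 ≤ z.1)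
    inf_le_right := fun z w => (inf_le_right : z.1 ⊓ w.1 ≤ w.1)
    le_inf := fun z w v h1 h2 => (le_inf h1 h2 : z.1 ≤ w.1 ⊓ v.1) }

theorem bits_aux (s w : Bool × Bool × Bool)
    (h : (s = (false, false, true) ∧ w = (false, true, true)) ∨
      (s = (true, false, false) ∧ w = (true, true, false)) ∨
      (s = (true, true, false) ∧ w = (true, true, true)) ∨
      (s = (false, true, true) ∧ w = (true, true, true))) :
    ∀ t v : Bool × Bool × Bool, t ≤ w → v ≤ w → ¬ t ≤ s → ¬ v ≤ s → ¬ t ⊓ v ≤ s := by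
  rintro ⟨a, b, c⟩ ⟨d, e, f⟩
  rcases h with ⟨rfl, rfl⟩ | ⟨rfl, rfl⟩ | ⟨rfl, rfl⟩ | ⟨rfl, rfl⟩ <;>
    (cases a <;> cases b <;> cases c <;> cases d <;> cases e <;> cases f <;> simp)

/-- The criterion passes to the extension. -/
theorem ext_crit {D : Set G} (hD : IsLowerSet D) (p : G) (hG : Crit G) :
    @Crit (Ext D p) (extInf hD p) := by
  let _ := extInf hD p
  intro m m' hm hx b c hb hc hbm hcm hbc
  have hlt : ∀ z w : Ext D p, z < w ↔ z.1 < w.1 := fun z w => Iff.rfl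
  obtain ⟨⟨A, s⟩, hmP⟩ := m
  obtain ⟨⟨A', s'⟩, hmP'⟩ := m'
  obtain ⟨⟨B, t⟩, hbP⟩ := b
  obtain ⟨⟨C, v⟩, hcP⟩ := c
  replace hb : B ≤ A' ∧ t ≤ s' := hb
  replace hc : C ≤ A' ∧ v ≤ s' := hc
  replace hbm : ¬ (B ≤ A ∧ t ≤ s) := hbm
  replace hcm : ¬ (C ≤ A ∧ v ≤ s) := hcm
  replace hbc : B ⊓ C ≤ A ∧ t ⊓ v ≤ s := hbc
  have hle : A ≤ A' ∧ s ≤ s' := hm.le
  have hnle : ¬ (A' ≤ A ∧ s' ≤ s) := not_le_of_gt hm
  -- `hx` for pairs
  have hx' : ∀ E r, ExtP D p (E, r) → A ≤ E → s ≤ r → ¬ (E ≤ A ∧ r ≤ s) → A' ≤ E ∧ s' ≤ r := by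
    intro E r hE h1 h2 h3
    exact hx ⟨(E, r), hE⟩ (lt_of_le_not_ge ⟨h1, h2⟩ h3)
  -- the case where the relevant part of the extension is a copy of `G`
  have copy : (∀ E, A ≤ E → ExtP D p (E, s)) → s' ≤ s → False := by
    intro hcopy hs
    refine hG A A' ?_ ?_ B C hb.1 hc.1 ?_ ?_ hbc.1
    · exact lt_of_le_not_ge hle.1 (fun h => hnle ⟨h, hs⟩)
    · intro E hE
      exact (hx' E s (hcopy E hE.le) hE.le le_rfl (fun h => absurd h.1 (not_le_of_gt hE))).1
    · intro h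
      exact hbm ⟨h, hb.2.trans hs⟩
    · intro h
      exact hcm ⟨h, hc.2.trans hs⟩
  -- if there are two incomparable extensions of `s` over `A`
  have two : ∀ r r', ExtP D p (A, r) → ExtP D p (A, r') → (s ≤ r ∧ ¬ r ≤ s) → (s ≤ r' ∧ ¬ r' ≤ s) →
      r ⊓ r' ≤ s → False := by
    intro r r' h1 h2 h3 h4 h5
    have k1 := hx' A r h1 le_rfl h3.1 (fun h => absurd h.2 h3.2)
    have k2 := hx' A r' h2 le_rfl h4.1 (fun h => absurd h.2 h4.2)
    exact hnle ⟨k1.1, (le_inf k1.2 k2.2).trans h5⟩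
  have two' : ∀ E r, ExtP D p (E, s) → ExtP D p (A, r) → A < E → (s ≤ r ∧ ¬ r ≤ s) → False := by
    intro E r h1 h2 h3 h4
    have k1 := hx' E s h1 h3.le le_rfl (fun h => absurd h.1 (not_le_of_gt h3))
    have k2 := hx' A r h2 le_rfl h4.1 (fun h => absurd h.2 h4.2)
    exact hnle ⟨k2.1, k1.2⟩
  obtain ⟨u, x, y⟩ := s
  by_cases hA : A = ⊤
  · subst hA
    have hbt : ¬ t ≤ (u, x, y) := fun h => hbm ⟨le_top, h⟩
    have hct : ¬ v ≤ (u, x, y) := fun h => hcm ⟨le_top, h⟩
    cases u <;> cases x <;> cases y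
    · exact two (false, true, false) (false, false, true) (by simp [ExtP]) (by simp [ExtP])
        (by decide) (by decide) (by decide)
    · have k := hx' ⊤ (false, true, true) (by simp [ExtP]) le_rfl (by decide)
        (fun h => absurd h.2 (by decide))
      exact bits_aux _ _ (Or.inl ⟨rfl, rfl⟩) t v (hb.2.trans k.2) (hc.2.trans k.2) hbt hct hbc.2
    · exact two (true, true, false) (false, true, true) (by simp [ExtP]) (by simp [ExtP])
        (by decide) (by decide) (by decide)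
    · exact bits_aux _ _ (Or.inr (Or.inr (Or.inr ⟨rfl, rfl⟩))) t v le_top le_top hbt hct hbc.2
    · have k := hx' ⊤ (true, true, false) (by simp [ExtP]) le_rfl (by decide)
        (fun h => absurd h.2 (by decide))
      exact bits_aux _ _ (Or.inr (Or.inl ⟨rfl, rfl⟩)) t v (hb.2.trans k.2) (hc.2.trans k.2)
        hbt hct hbc.2
    · simp [ExtP] at hmP
    · exact bits_aux _ _ (Or.inr (Or.inr (Or.inl ⟨rfl, rfl⟩))) t v le_top le_top hbt hct hbc.2
    · exact hbt le_top
  · have hA' : A < ⊤ := lt_top_iff_ne_top.mpr hA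
    have hs' : ExtP D p (⊤, (u, x, y)) → s' ≤ (u, x, y) := fun h =>
      (hx' ⊤ _ h le_top le_rfl (fun h => absurd h.1 (not_le_of_gt hA'))).2
    cases u <;> cases x <;> cases y
    · exact two (false, true, false) (false, false, true) (by simp [ExtP]) (by simp [ExtP])
        (by decide) (by decide) (by decide)
    · by_cases hp : p ≤ A
      · exact two' ⊤ (false, true, true) (by simp [ExtP]) (by simpa [ExtP] using hp) hA'
          (by decide)
      · exact copy (fun E _ => by simp [ExtP]) (hs' (by simp [ExtP]))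
    · exact two' ⊤ (true, true, false) (by simp [ExtP]) (by simp [ExtP]) hA' (by decide)
    · have hp : p ≤ A := by simpa [ExtP] using hmP
      exact copy (fun E hE => by simpa [ExtP] using hp.trans hE) (hs' (by simp [ExtP]))
    · have hAD : A ∈ D := by simpa [ExtP] using hmP
      have k := hx' A (true, true, false) (by simp [ExtP]) le_rfl (by decide)
        (fun h => absurd h.2 (by decide))
      have hbt : ¬ t ≤ (true, false, false) := fun h => hbm ⟨hb.1.trans k.1, h⟩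
      have hct : ¬ v ≤ (true, false, false) := fun h => hcm ⟨hc.1.trans k.1, h⟩
      exact bits_aux _ _ (Or.inr (Or.inl ⟨rfl, rfl⟩)) t v (hb.2.trans k.2) (hc.2.trans k.2)
        hbt hct hbc.2
    · simp [ExtP] at hmP
    · exact copy (fun E _ => by simp [ExtP]) (hs' (by simp [ExtP]))
    · simp [ExtP] at hmP
      exact hA hmP

/-- The point `x` of the extension. -/
def ptX (D : Set G) (p : G) : Ext D p := ⟨(⊥, false, true, false), by simp [ExtP]⟩

/-- The point `y` of the extension. -/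
def ptY (D : Set G) (p : G) : Ext D p := ⟨(⊥, false, false, true), by simp [ExtP]⟩

/-- The embedding of `G`. -/
def incl (D : Set G) (p : G) (a : G) : Ext D p := ⟨(a, false, false, false), by simp [ExtP]⟩

end ext

/-- Lattice congruences. -/
def IsLC {K : Type} [Lattice K] (r : K → K → Prop) : Prop :=
  Equivalence r ∧ (∀ a b c, r a b → r (a ⊔ c) (b ⊔ c)) ∧ (∀ a b c, r a b → r (a ⊓ c) (b ⊓ c))

theorem exists_ext {G : Type} [Lattice G] [BoundedOrder G] [Finite G] (hG : SDJ G) (D : Set G)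
    (hD : IsLowerSet D) (p : G) :
    ∃ (K : Type) (_ : Lattice K) (_ : BoundedOrder K) (_ : Finite K) (ι : G → K), SDJ K ∧
      (∀ a b, ι a ≤ ι b ↔ a ≤ b) ∧ (∀ k, k ≤ ι ⊤ → ∃ a, ι a = k) ∧
      (∃ x y, IsAtom x ∧ IsAtom y ∧ ι p ≤ x ⊔ y) ∧
      (∀ r : K → K → Prop, IsLC r → ∀ a ∈ D, ∀ b, b ∉ D → r (ι a) (ι b) → r ⊥ (ι p)) := by
  let S := extInf hD p
  let LK : Lattice (Ext D p) := latticeOfInf (Ext D p)
  let BK : BoundedOrder (Ext D p) :=
    { bot := incl D p ⊥
      bot_le := fun z => ⟨bot_le, bot_le⟩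
      top := ⊤
      le_top := fun z => le_top }
  have hsd : SDJ (Ext D p) := sdj_of_crit (ext_crit hD p (crit_of_sdj hG))
  have hincl : ∀ k : Ext D p, k ≤ incl D p ⊤ → ∃ a, incl D p a = k := by
    intro k hk
    refine ⟨k.1.1, Subtype.ext (Prod.ext rfl ?_)⟩
    exact le_antisymm bot_le hk.2
  have hbotlt : ∀ k : Ext D p, k = ⊥ ↔ k.1 ≤ (⊥, false, false, false) := by
    intro k
    exact (le_bot_iff (a := k)).symm
  have hbx : ⊥ < ptX D p := by
    refine lt_of_le_not_ge bot_le (fun h => ?_)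
    exact absurd (show ((false, true, false) : Bool × Bool × Bool) ≤ (false, false, false)
      from h.2) (by decide)
  have hby : ⊥ < ptY D p := by
    refine lt_of_le_not_ge bot_le (fun h => ?_)
    exact absurd (show ((false, false, true) : Bool × Bool × Bool) ≤ (false, false, false)
      from h.2) (by decide)
  have hX : IsAtom (ptX D p) := by
    refine ⟨hbx.ne', fun k hk => ?_⟩
    have h1 : k.1 ≤ (⊥, false, true, false) := hk.le
    have h2 : ¬ (⊥, false, true, false) ≤ k.1 := not_le_of_gt hk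
    obtain ⟨⟨A, u, x, y⟩, hkP⟩ := k
    rw [hbotlt]
    refine ⟨h1.1, ?_⟩
    have h3 : A = ⊥ := le_bot_iff.mp h1.1
    subst h3
    have h4 : ((u, x, y) : Bool × Bool × Bool) ≤ (false, true, false) := h1.2
    have h5 : ¬ ((false, true, false) : Bool × Bool × Bool) ≤ (u, x, y) := fun h => h2 ⟨le_rfl, h⟩
    show ((u, x, y) : Bool × Bool × Bool) ≤ (false, false, false)
    clear h1 h2 hkP hk
    revert h4 h5
    cases u <;> cases x <;> cases y <;> simp
  have hY : IsAtom (ptY D p) := by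
    refine ⟨hby.ne', fun k hk => ?_⟩
    have h1 : k.1 ≤ (⊥, false, false, true) := hk.le
    have h2 : ¬ (⊥, false, false, true) ≤ k.1 := not_le_of_gt hk
    obtain ⟨⟨A, u, x, y⟩, hkP⟩ := k
    rw [hbotlt]
    refine ⟨h1.1, ?_⟩
    have h3 : A = ⊥ := le_bot_iff.mp h1.1
    subst h3
    have h4 : ((u, x, y) : Bool × Bool × Bool) ≤ (false, false, true) := h1.2
    have h5 : ¬ ((false, false, true) : Bool × Bool × Bool) ≤ (u, x, y) := fun h => h2 ⟨le_rfl, h⟩
    show ((u, x, y) : Bool × Bool × Bool) ≤ (false, false, false)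
    clear h1 h2 hkP hk
    revert h4 h5
    cases u <;> cases x <;> cases y <;> simp
  have hp : incl D p p ≤ ptX D p ⊔ ptY D p := by
    have h1 : ptX D p ≤ ptX D p ⊔ ptY D p := le_sup_left
    have h2 : ptY D p ≤ ptX D p ⊔ ptY D p := le_sup_right
    generalize ptX D p ⊔ ptY D p = k at h1 h2
    obtain ⟨⟨A, u, x, y⟩, hkP⟩ := k
    have h3 : ((false, true, false) : Bool × Bool × Bool) ≤ (u, x, y) := h1.2
    have h4 : ((false, false, true) : Bool × Bool × Bool) ≤ (u, x, y) := h2.2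
    refine ⟨?_, bot_le⟩
    show p ≤ A
    clear h1 h2
    revert h3 h4 hkP
    cases u <;> cases x <;> cases y <;> simp [ExtP]
    rintro rfl
    exact le_top
  refine ⟨Ext D p, LK, BK, inferInstance, incl D p, hsd, ?_, hincl, ⟨ptX D p, ptY D p, hX, hY, hp⟩,
    ?_⟩
  · intro a b
    exact ⟨fun h => h.1, fun h => ⟨h, le_rfl⟩⟩
  · intro r hr a ha b hb hab
    have hbD : (⊥ : G) ∈ D := hD bot_le ha
    let ptU : Ext D p := ⟨(⊥, true, false, false), by simp [ExtP, hbD]⟩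
    let aU : Ext D p := ⟨(a, true, false, false), by simp [ExtP, ha]⟩
    have e1 : r (incl D p a ⊔ ptU) (incl D p b ⊔ ptU) := hr.2.1 _ _ _ hab
    have e2 : ptX D p ⊓ (incl D p a ⊔ ptU) = ⊥ := by
      have h1 : incl D p a ⊔ ptU ≤ aU := by
        refine sup_le ⟨le_rfl, bot_le⟩ ⟨bot_le, le_rfl⟩
      have h2 : ptX D p ⊓ aU = ⊥ := by
        rw [hbotlt]
        exact ⟨inf_le_left, by
          show ((false, true, false) : Bool × Bool × Bool) ⊓ (true, false, false) ≤
            (false, false, false)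
          decide⟩
      exact le_antisymm ((inf_le_inf_left _ h1).trans h2.le) bot_le
    have e3 : ptX D p ⊓ (incl D p b ⊔ ptU) = ptX D p := by
      rw [inf_eq_left]
      have h1 : incl D p b ≤ incl D p b ⊔ ptU := le_sup_left
      have h2 : ptU ≤ incl D p b ⊔ ptU := le_sup_right
      generalize incl D p b ⊔ ptU = k at h1 h2
      obtain ⟨⟨A, u, x, y⟩, hkP⟩ := k
      have h3 : b ≤ A := h1.1
      have h4 : ((true, false, false) : Bool × Bool × Bool) ≤ (u, x, y) := h2.2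
      have hA : A ∉ D := fun h => hb (hD h3 h)
      refine ⟨bot_le, ?_⟩
      show ((false, true, false) : Bool × Bool × Bool) ≤ (u, x, y)
      revert h4 hkP
      cases u <;> cases x <;> cases y <;> simp [ExtP, hA]
    have e4 : r ⊥ (ptX D p) := by
      have := hr.2.2 _ _ (ptX D p) e1
      rw [inf_comm, e2, inf_comm, e3] at this
      exact this
    have e5 : r (ptY D p) (ptX D p ⊔ ptY D p) := by
      have := hr.2.1 _ _ (ptY D p) e4
      rwa [bot_sup_eq] at this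
    have e6 := hr.2.2 _ _ (incl D p p) e5
    have e7 : ptY D p ⊓ incl D p p = ⊥ := by
      rw [hbotlt]
      exact ⟨inf_le_left, by
        show ((false, false, true) : Bool × Bool × Bool) ⊓ (false, false, false) ≤
            (false, false, false)
        decide⟩
    rw [e7, inf_eq_right.mpr hp] at e6
    exact e6

theorem map_bot' {G K : Type} [Lattice G] [BoundedOrder G] [Lattice K] [BoundedOrder K]
    {ι : G → K} (h1 : ∀ a b, ι a ≤ ι b ↔ a ≤ b) (h2 : ∀ k, k ≤ ι ⊤ → ∃ a, ι a = k) :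
    ι ⊥ = ⊥ := by
  obtain ⟨a, ha⟩ := h2 ⊥ bot_le
  apply le_antisymm _ bot_le
  rw [← ha, h1]
  exact bot_le

theorem map_sup' {G K : Type} [Lattice G] [BoundedOrder G] [Lattice K] [BoundedOrder K]
    {ι : G → K} (h1 : ∀ a b, ι a ≤ ι b ↔ a ≤ b) (h2 : ∀ k, k ≤ ι ⊤ → ∃ a, ι a = k) (a b : G) :
    ι (a ⊔ b) = ι a ⊔ ι b := by
  apply le_antisymm
  · obtain ⟨c, hc⟩ := h2 (ι a ⊔ ι b) (sup_le ((h1 _ _).mpr le_top) ((h1 _ _).mpr le_top))
    rw [← hc, h1]
    refine sup_le ?_ ?_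
    · rw [← h1, hc]
      exact le_sup_left
    · rw [← h1, hc]
      exact le_sup_right
  · exact sup_le ((h1 _ _).mpr le_sup_left) ((h1 _ _).mpr le_sup_right)

theorem map_inf' {G K : Type} [Lattice G] [BoundedOrder G] [Lattice K] [BoundedOrder K]
    {ι : G → K} (h1 : ∀ a b, ι a ≤ ι b ↔ a ≤ b) (h2 : ∀ k, k ≤ ι ⊤ → ∃ a, ι a = k) (a b : G) :
    ι (a ⊓ b) = ι a ⊓ ι b := by
  apply le_antisymm
  · exact le_inf ((h1 _ _).mpr inf_le_left) ((h1 _ _).mpr inf_le_right)
  · obtain ⟨c, hc⟩ := h2 (ι a ⊓ ι b) (inf_le_left.trans ((h1 _ _).mpr le_top))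
    rw [← hc, h1]
    refine le_inf ?_ ?_
    · rw [← h1, hc]
      exact inf_le_left
    · rw [← h1, hc]
      exact inf_le_right

theorem map_atom' {G K : Type} [Lattice G] [BoundedOrder G] [Lattice K] [BoundedOrder K]
    {ι : G → K} (h1 : ∀ a b, ι a ≤ ι b ↔ a ≤ b) (h2 : ∀ k, k ≤ ι ⊤ → ∃ a, ι a = k) {x : G}
    (hx : IsAtom x) : IsAtom (ι x) := by
  constructor
  · intro h
    apply hx.1
    rw [← map_bot' h1 h2] at h
    exact le_antisymm ((h1 _ _).mp h.le) bot_le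
  · intro k hk
    obtain ⟨a, rfl⟩ := h2 k (hk.le.trans ((h1 _ _).mpr le_top))
    have : a < x := lt_of_le_not_ge ((h1 _ _).mp hk.le) (fun h => absurd ((h1 _ _).mpr h) hk.not_ge)
    rw [hx.2 a this, map_bot' h1 h2]

theorem exists_iter {G : Type} [Lattice G] [BoundedOrder G] [Finite G] (hG : SDJ G) (l : List G) :
    ∃ (K : Type) (_ : Lattice K) (_ : BoundedOrder K) (_ : Finite K) (ι : G → K) (x y : K),
      SDJ K ∧ (∀ a b, ι a ≤ ι b ↔ a ≤ b) ∧ (∀ k, k ≤ ι ⊤ → ∃ a, ι a = k) ∧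
      IsAtom x ∧ IsAtom y ∧ ι ⊤ ≤ x ⊔ y ∧
      (∀ r : K → K → Prop, IsLC r → ∀ b ∈ l, ∀ a, ¬ b ≤ a → r (ι a) (ι b) → r ⊥ (x ⊔ y)) := by
  induction l with
  | nil =>
    obtain ⟨K, i1, i2, i3, ι, h1, h2, h3, ⟨x, y, h4, h5, h6⟩, h7⟩ :=
      exists_ext hG ∅ isLowerSet_empty ⊤
    exact ⟨K, i1, i2, i3, ι, x, y, h1, h2, h3, h4, h5, h6, fun r hr b hb => by simp at hb⟩
  | cons b l ih =>
    obtain ⟨K, i1, i2, i3, ι, x, y, h1, h2, h3, h4, h5, h6, h7⟩ := ih
    have hD : IsLowerSet {z : K | ¬ ι b ≤ z} := fun z w hwz hz h => hz (h.trans hwz)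
    obtain ⟨K', j1, j2, j3, κ, g1, g2, g3, -, g5⟩ := exists_ext h1 {z : K | ¬ ι b ≤ z} hD (x ⊔ y)
    refine ⟨K', j1, j2, j3, κ ∘ ι, κ x, κ y, g1, fun a b => ?_, ?_, map_atom' g2 g3 h4,
      map_atom' g2 g3 h5, ?_, ?_⟩
    · rw [Function.comp_apply, Function.comp_apply, g2, h2]
    · intro k hk
      obtain ⟨c, rfl⟩ := g3 k (hk.trans ((g2 _ _).mpr le_top))
      obtain ⟨a, rfl⟩ := h3 c ((g2 _ _).mp hk)
      exact ⟨a, rfl⟩
    · rw [← map_sup' g2 g3]
      exact (g2 _ _).mpr h6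
    · intro r hr b' hb' a ha hab
      rw [← map_sup' g2 g3]
      rcases List.mem_cons.mp hb' with rfl | hb'
      · refine g5 r hr (ι a) ?_ (ι b') ?_ hab
        · intro h
          exact ha ((h2 _ _).mp h)
        · intro h
          exact h le_rfl
      · rw [← map_bot' g2 g3]
        refine h7 (fun u v => r (κ u) (κ v)) ⟨⟨fun _ => hr.1.refl _, fun h => hr.1.symm h,
          fun h h' => hr.1.trans h h'⟩, ?_, ?_⟩ b' hb' a ha hab
        · intro u v w huv
          show r (κ (u ⊔ w)) (κ (v ⊔ w))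
          rw [map_sup' g2 g3, map_sup' g2 g3]
          exact hr.2.1 _ _ _ huv
        · intro u v w huv
          show r (κ (u ⊓ w)) (κ (v ⊓ w))
          rw [map_inf' g2 g3, map_inf' g2 g3]
          exact hr.2.2 _ _ _ huv

/-- The extension theorem in the join-semidistributive form. -/
theorem exists_tied {G : Type} [Lattice G] [BoundedOrder G] [Finite G] (hG : SDJ G) :
    ∃ (K : Type) (_ : Lattice K) (_ : BoundedOrder K) (_ : Finite K) (ι : G → K) (x y : K),
      SDJ K ∧ (∀ a b, ι a ≤ ι b ↔ a ≤ b) ∧ (∀ k, k ≤ ι ⊤ → ∃ a, ι a = k) ∧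
      IsAtom x ∧ IsAtom y ∧ ι ⊤ ≤ x ⊔ y ∧
      (∀ r : K → K → Prop, IsLC r → ∀ a b, a ≠ b → r (ι a) (ι b) → r ⊥ (x ⊔ y)) := by
  classical
  have := Fintype.ofFinite G
  obtain ⟨K, i1, i2, i3, ι, x, y, h1, h2, h3, h4, h5, h6, h7⟩ :=
    exists_iter hG (Finset.univ : Finset G).toList
  refine ⟨K, i1, i2, i3, ι, x, y, h1, h2, h3, h4, h5, h6, ?_⟩
  intro r hr a b hab h
  by_cases hba : b ≤ a
  · refine h7 r hr a (by simp) b (fun h' => hab (le_antisymm h' hba)) (hr.1.symm h)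
  · exact h7 r hr b (by simp) a hba h

end Pool.Agent.Work.MP_a42ba1_al.PP
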