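import Mathlib

set_option autoImplicit false

namespace Pool.Agent.Work.MP_a42ba1_al

/-- Equivalence relations on `X` preserved by every unary operation in `ops`. -/
def UCon (X : Type) (ops : Set (X → X)) : Type :=
  {r : Setoid X // ∀ f ∈ ops, ∀ x y, r.r x y → r.r (f x) (f y)}

instance (X : Type) (ops : Set (X → X)) : PartialOrder (UCon X ops) :=
  inferInstanceAs (PartialOrder {r : Setoid X // ∀ f ∈ ops, ∀ x y, r.r x y → r.r (f x) (f y)})

/-- Representability by the congruence lattice of a finite algebra on `Fin m`. -/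
def Representable (L : Type) [LE L] : Prop :=
  ∃ (m : ℕ) (ops : Set (Σ k : ℕ, (Fin k → Fin m) → Fin m)),
    Nonempty (L ≃o {r : Setoid (Fin m) //
      ∀ o ∈ ops, ∀ x y : Fin o.1 → Fin m,
        (∀ i, r.r (x i) (y i)) → r.r (o.2 x) (o.2 y)})

theorem representable_of_ucon {L : Type} [LE L] {X : Type} [Finite X] (ops : Set (X → X))
    (e : L ≃o UCon X ops) : Representable L := by
  obtain ⟨m, ⟨eq⟩⟩ := Finite.exists_equiv_fin X
  let ops' : Set (Σ k : ℕ, (Fin k → Fin m) → Fin m) :=
    {o | ∃ f ∈ ops, o = ⟨1, fun v => eq (f (eq.symm (v 0)))⟩}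
  refine ⟨m, ops', ⟨e.trans ?_⟩⟩
  refine
    { toFun := fun r => ⟨Setoid.comap eq.symm r.1, ?_⟩
      invFun := fun r => ⟨Setoid.comap eq r.1, ?_⟩
      left_inv := ?_
      right_inv := ?_
      map_rel_iff' := ?_ }
  · rintro o ⟨f, hf, rfl⟩ x y h
    have h0 := h 0
    show r.1.r _ _
    simp only [Equiv.symm_apply_apply]
    exact r.2 f hf _ _ h0
  · intro f hf x y h
    have := r.2 ⟨1, fun v => eq (f (eq.symm (v 0)))⟩ ⟨f, hf, rfl⟩ (fun _ => eq x) (fun _ => eq y)
      (fun _ => h)
    show r.1.r _ _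
    simpa using this
  · intro r
    apply Subtype.ext
    apply Setoid.ext
    intro x y
    show r.1.r _ _ ↔ r.1.r _ _
    simp
  · intro r
    apply Subtype.ext
    apply Setoid.ext
    intro x y
    show r.1.r _ _ ↔ r.1.r _ _
    simp
  · intro r s
    constructor
    · intro h
      show r.1 ≤ s.1
      intro x y hxy
      have := @h (eq x) (eq y) (by show r.1.r _ _; simpa using hxy)
      have h2 : s.1.r (eq.symm (eq x)) (eq.symm (eq y)) := this
      simpa using h2
    · intro h x y hxy
      exact h hxy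

end Pool.Agent.Work.MP_a42ba1_al
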