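import Mathlib
import Pool.Agent.Work.MP_a42ba1_al.Basic

set_option autoImplicit false

namespace Pool.Agent.Work.MP_a42ba1_al

section simple

set_option linter.unusedSectionVars false
set_option linter.style.haveILetI false

variable {S : Type} [Group S] [IsSimpleGroup S]

/-- In a nonabelian simple group, a normal subgroup containing all commutators is everything. -/
theorem eq_top_of_commutators (hna : ∃ x y : S, x * y ≠ y * x) (H : Subgroup S) (hn : H.Normal)
    (h : ∀ x y : S, x * y * x⁻¹ * y⁻¹ ∈ H) : H = ⊤ := by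
  rcases IsSimpleGroup.eq_bot_or_eq_top_of_normal H hn with h0 | h1
  · exfalso
    obtain ⟨x, y, hxy⟩ := hna
    apply hxy
    have hm := h x y
    rw [h0, Subgroup.mem_bot, mul_inv_eq_one, mul_inv_eq_iff_eq_mul] at hm
    exact hm
  · exact h1

variable {I : Type} [Finite I]

/-- Values at `j` of the members of `K` that are trivial on `A`. -/
def valSub (K : Subgroup (I → S)) (A : Finset I) (j : I) : Subgroup S where
  carrier := {s | ∃ k ∈ K, (∀ i ∈ A, k i = 1) ∧ k j = s}
  one_mem' := ⟨1, K.one_mem, fun _ _ => rfl, rfl⟩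
  mul_mem' := by
    rintro s s' ⟨k, hk, h1, rfl⟩ ⟨k', hk', h1', rfl⟩
    exact ⟨k * k', K.mul_mem hk hk', fun i hi => by simp [h1 i hi, h1' i hi], rfl⟩
  inv_mem' := by
    rintro s ⟨k, hk, h1, rfl⟩
    exact ⟨k⁻¹, K.inv_mem hk, fun i hi => by simp [h1 i hi], rfl⟩

theorem valSub_normal (K : Subgroup (I → S)) (hK : ∀ s : S, (fun _ => s) ∈ K) (A : Finset I)
    (j : I) : (valSub K A j).Normal := by
  constructor
  rintro n ⟨k, hk, h1, rfl⟩ g
  refine ⟨(fun _ => g) * k * (fun _ => g)⁻¹, K.mul_mem (K.mul_mem (hK g) hk) (K.inv_mem (hK g)),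
    ?_, rfl⟩
  intro i hi
  simp [h1 i hi]

theorem valSub_single (K : Subgroup (I → S)) (hK : ∀ s : S, (fun _ => s) ∈ K)
    {i j : I} (hij : ∃ k ∈ K, k i ≠ k j) : valSub K {i} j = ⊤ := by
  rcases IsSimpleGroup.eq_bot_or_eq_top_of_normal (valSub K {i} j) (valSub_normal K hK {i} j)
    with h0 | h1
  · exfalso
    obtain ⟨k, hk, hne⟩ := hij
    have : k j * (k i)⁻¹ ∈ valSub K {i} j := by
      refine ⟨k * (fun _ => (k i)⁻¹), K.mul_mem hk (hK _), ?_, rfl⟩
      intro i' hi'
      rw [Finset.mem_singleton] at hi'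
      subst hi'
      simp
    rw [h0, Subgroup.mem_bot, mul_inv_eq_one] at this
    exact hne this.symm
  · exact h1

theorem valSub_top (hna : ∃ x y : S, x * y ≠ y * x) (K : Subgroup (I → S))
    (hK : ∀ s : S, (fun _ => s) ∈ K) (j : I) (A : Finset I)
    (hA : ∀ i ∈ A, ∃ k ∈ K, k i ≠ k j) : valSub K A j = ⊤ := by
  classical
  induction A using Finset.induction_on with
  | empty =>
    rw [eq_top_iff]
    intro s _
    exact ⟨fun _ => s, hK s, by simp, rfl⟩
  | insert i A hi ih =>
    have ih' := ih (fun i' hi' => hA i' (Finset.mem_insert_of_mem hi'))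
    have hs := valSub_single K hK (hA i (Finset.mem_insert_self i A))
    apply eq_top_of_commutators hna _ (valSub_normal K hK _ _)
    intro x y
    have hx : x ∈ valSub K A j := by rw [ih']; trivial
    have hy : y ∈ valSub K {i} j := by rw [hs]; trivial
    obtain ⟨kx, hkx, h1x, rfl⟩ := hx
    obtain ⟨ky, hky, h1y, rfl⟩ := hy
    refine ⟨kx * ky * kx⁻¹ * ky⁻¹, ?_, ?_, rfl⟩
    · exact K.mul_mem (K.mul_mem (K.mul_mem hkx hky) (K.inv_mem hkx)) (K.inv_mem hky)
    · intro i' hi'
      rw [Finset.mem_insert] at hi'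
      rcases hi' with rfl | hi'
      · have := h1y i' (Finset.mem_singleton_self _)
        simp [this]
      · have := h1x i' hi'
        simp [this]

/-- A subgroup of `S^I` containing the diagonal consists of all functions constant on the classes
it determines. -/
theorem mem_of_const_on_classes (hna : ∃ x y : S, x * y ≠ y * x) (K : Subgroup (I → S))
    (hK : ∀ s : S, (fun _ => s) ∈ K) (f : I → S)
    (hf : ∀ i j, (∀ k ∈ K, k i = k j) → f i = f j) : f ∈ K := by
  classical
  haveI := Fintype.ofFinite I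
  have key : ∀ A : Finset I, ∃ k ∈ K, ∀ i ∈ A, k i = f i := by
    intro A
    induction A using Finset.induction_on with
    | empty => exact ⟨1, K.one_mem, by simp⟩
    | insert j A hj ih =>
      obtain ⟨k, hk, hkA⟩ := ih
      by_cases h : ∃ i ∈ A, ∀ k ∈ K, k i = k j
      · obtain ⟨i, hiA, hi⟩ := h
        refine ⟨k, hk, ?_⟩
        intro i' hi'
        rw [Finset.mem_insert] at hi'
        rcases hi' with rfl | hi'
        · rw [← hi k hk, hkA i hiA, hf i i' hi]
        · exact hkA i' hi'
      · push Not at h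
        have ht := valSub_top hna K hK j A h
        have : (k j)⁻¹ * f j ∈ valSub K A j := by rw [ht]; trivial
        obtain ⟨k', hk', h1, h2⟩ := this
        refine ⟨k * k', K.mul_mem hk hk', ?_⟩
        intro i' hi'
        rw [Finset.mem_insert] at hi'
        rcases hi' with rfl | hi'
        · simp [h2]
        · simp [h1 i' hi', hkA i' hi']
  obtain ⟨k, hk, hkA⟩ := key Finset.univ
  have : k = f := funext fun i => hkA i (Finset.mem_univ i)
  exact this ▸ hk

end simple

end Pool.Agent.Work.MP_a42ba1_al
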