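import Mathlib
import Pool.Agent.Work.MP_a42ba1_al.Kurz

set_option autoImplicit false

namespace Pool.Agent.Work.MP_a42ba1_al

open Equiv

/-- Equivalence relations on `X` preserved by every permutation in the group `Γ`. -/
def PCon (X : Type) (Γ : Subgroup (Perm X)) : Type :=
  {r : Setoid X // ∀ g ∈ Γ, ∀ x y, r.r x y → r.r (g x) (g y)}

instance (X : Type) (Γ : Subgroup (Perm X)) : PartialOrder (PCon X Γ) :=
  inferInstanceAs (PartialOrder {r : Setoid X // ∀ g ∈ Γ, ∀ x y, r.r x y → r.r (g x) (g y)})

/-- Permutations preserving every relation of a family. -/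
def autR {M F : Type} (R : F → Setoid M) : Subgroup (Perm M) where
  carrier := {g | ∀ f m m', (R f).r m m' ↔ (R f).r (g m) (g m')}
  one_mem' := by intro f m m'; rfl
  mul_mem' := by
    intro g h hg hh f m m'
    exact (hh f m m').trans (hg f _ _)
  inv_mem' := by
    intro g hg f m m'
    have h := hg f (g⁻¹ m) (g⁻¹ m')
    have e : ∀ x, g (g⁻¹ x) = x := fun x => g.apply_symm_apply x
    rw [e, e] at h
    exact h.symm

/-- A finite set with a family of equivalence relations indexed by `F` which, on every finite
power, are exactly the relations invariant under the wreath product. -/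
def HasPowRep (F : Type) [LE F] : Prop :=
  ∃ (M : Type) (_ : Finite M) (_ : Nonempty M) (R : F → Setoid M),
    (∀ f f', f ≤ f' ↔ R f ≤ R f') ∧ (∀ m m', ∃ g ∈ autR R, g m = m') ∧
    ∀ (N : Type) [Finite N] [Nonempty N] (ρ : Setoid (N → M)),
      (∀ g : N → Perm M, (∀ k, g k ∈ autR R) → ∀ z z', ρ.r z z' →
        ρ.r (fun k => g k (z k)) (fun k => g k (z' k))) →
      (∀ σ : Perm N, ∀ z z', ρ.r z z' → ρ.r (fun k => z (σ k)) (fun k => z' (σ k))) →
      ∃ f, ∀ z z', ρ.r z z' ↔ ∀ k, (R f).r (z k) (z' k)

section kurz

variable (W S : Type) [Group S]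

/-- Functions `W → S` up to right multiplication by constants. -/
def dset : Setoid (W → S) where
  r v v' := ∀ w w', (v w)⁻¹ * v' w = (v w')⁻¹ * v' w'
  iseqv := by
    refine ⟨fun v w w' => by simp, ?_, ?_⟩
    · intro v v' h w w'
      have := congrArg (fun x => x⁻¹) (h w w')
      simpa using this
    · intro v v' v'' h h' w w'
      have := congrArg₂ (fun x y => x * y) (h w w') (h' w w')
      simpa [mul_assoc] using this

def KM : Type := Quotient (dset W S)

variable {W S}

instance [Finite W] [Finite S] : Finite (KM W S) := by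
  unfold KM; infer_instance

instance : Nonempty (KM W S) := ⟨Quotient.mk _ 1⟩

def kmk (v : W → S) : KM W S := Quotient.mk (dset W S) v

theorem kmk_out (m : KM W S) : kmk (Quotient.out m) = m := Quotient.out_eq m

theorem kmk_eq {v v' : W → S} : kmk v = kmk v' ↔ ∀ w w', (v w)⁻¹ * v' w = (v w')⁻¹ * v' w' := by
  unfold kmk
  exact Quotient.eq (r := dset W S)

/-- The relation on cosets attached to a partition of `W`. -/
def RR (π : Setoid W) : Setoid (KM W S) where
  r m m' := ∀ w w', π.r w w' →
    (Quotient.out m w)⁻¹ * Quotient.out m' w = (Quotient.out m w')⁻¹ * Quotient.out m' w'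
  iseqv := by
    refine ⟨fun v w w' _ => by simp, ?_, ?_⟩
    · intro v v' h w w' hw
      have := congrArg (fun x => x⁻¹) (h w w' hw)
      simpa using this
    · intro v v' v'' h h' w w' hw
      have := congrArg₂ (fun x y => x * y) (h w w' hw) (h' w w' hw)
      simpa [mul_assoc] using this

theorem RR_mk (π : Setoid W) (v v' : W → S) :
    (RR π).r (kmk v) (kmk v') ↔ ∀ w w', π.r w w' → (v w)⁻¹ * v' w = (v w')⁻¹ * v' w' := by
  have h1 := kmk_eq.mp (kmk_out (kmk v))
  have h2 := kmk_eq.mp (kmk_out (kmk v'))
  set u := Quotient.out (kmk v)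
  set u' := Quotient.out (kmk v')
  have key : ∀ w w', ((v w)⁻¹ * v' w = (v w')⁻¹ * v' w' ↔ (u w)⁻¹ * u' w = (u w')⁻¹ * u' w') := by
    intro w w'
    have e1 := h1 w w'
    have e2 := h2 w w'
    have f1 : ∀ x, (v x)⁻¹ * v' x = ((u x)⁻¹ * v x)⁻¹ * ((u x)⁻¹ * u' x) * ((u' x)⁻¹ * v' x) := by
      intro x; group
    rw [f1 w, f1 w', e1, e2]
    constructor
    · intro h
      have := mul_right_cancel h
      exact mul_left_cancel this
    · intro h
      rw [h]
  constructor
  · intro h w w' hw
    exact (key w w').mpr (h w w' hw)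
  · intro h w w' hw
    exact (key w w').mp (h w w' hw)

/-- Left multiplication. -/
def lmul (u : W → S) : Perm (KM W S) where
  toFun := Quotient.map (fun v => u * v) (by
    intro v v' h w w'
    have := h w w'
    simpa [mul_assoc] using this)
  invFun := Quotient.map (fun v => u⁻¹ * v) (by
    intro v v' h w w'
    have := h w w'
    simpa [mul_assoc] using this)
  left_inv := by
    intro m
    induction m using Quotient.ind with
    | _ v =>
      show kmk (u⁻¹ * (u * v)) = kmk v
      rw [inv_mul_cancel_left]
  right_inv := by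
    intro m
    induction m using Quotient.ind with
    | _ v =>
      show kmk (u * (u⁻¹ * v)) = kmk v
      rw [mul_inv_cancel_left]

theorem lmul_mk (u v : W → S) : lmul u (kmk v) = kmk (u * v) := rfl

/-- Relabelling of the index set. -/
def dperm (δ : Perm W) : Perm (KM W S) where
  toFun := Quotient.map (fun v => fun w => v (δ w)) (by
    intro v v' h w w'
    exact h _ _)
  invFun := Quotient.map (fun v => fun w => v (δ.symm w)) (by
    intro v v' h w w'
    exact h _ _)
  left_inv := by
    intro m
    induction m using Quotient.ind with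
    | _ v =>
      show kmk (fun w => v (δ (δ.symm w))) = kmk v
      simp
  right_inv := by
    intro m
    induction m using Quotient.ind with
    | _ v =>
      show kmk (fun w => v (δ.symm (δ w))) = kmk v
      simp

theorem dperm_mk (δ : Perm W) (v : W → S) : dperm δ (kmk v) = kmk (fun w => v (δ w)) := rfl

variable (Δ : Subgroup (Perm W))

/-- The relation family indexed by the dual of the lattice of invariant partitions. -/
def RK (S : Type) [Group S] : (PCon W Δ)ᵒᵈ → Setoid (KM W S) :=
  fun π => RR (OrderDual.ofDual π).1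

theorem lmul_mem (u : W → S) : lmul u ∈ autR (RK Δ S) := by
  intro π m m'
  rw [← kmk_out m, ← kmk_out m', lmul_mk, lmul_mk]
  unfold RK
  rw [RR_mk, RR_mk]
  simp [mul_assoc]

theorem dperm_mem (δ : Perm W) (hδ : δ ∈ Δ) : dperm δ ∈ autR (RK Δ S) := by
  intro π m m'
  rw [← kmk_out m, ← kmk_out m', dperm_mk, dperm_mk]
  unfold RK
  rw [RR_mk, RR_mk]
  constructor
  · intro h w w' hw
    exact h _ _ ((OrderDual.ofDual π).2 δ hδ _ _ hw)
  · intro h w w' hw
    have := h (δ.symm w) (δ.symm w')
      ((OrderDual.ofDual π).2 δ⁻¹ (Δ.inv_mem hδ) _ _ hw)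
    simpa using this

end kurz

theorem a5_nonabelian : ∃ x y : alternatingGroup (Fin 5), x * y ≠ y * x := by
  have h1 : (swap (0 : Fin 5) 1 * swap 1 2) ∈ alternatingGroup (Fin 5) :=
    Equiv.Perm.mem_alternatingGroup.mpr (by decide)
  have h2 : (swap (0 : Fin 5) 1 * swap 1 3) ∈ alternatingGroup (Fin 5) :=
    Equiv.Perm.mem_alternatingGroup.mpr (by decide)
  refine ⟨⟨_, h1⟩, ⟨_, h2⟩, ?_⟩
  intro h
  have := congrArg Subtype.val h
  simp only [Subgroup.coe_mul] at this
  revert this
  decide

theorem kurz (W : Type) [Finite W] (Δ : Subgroup (Perm W)) : HasPowRep (PCon W Δ)ᵒᵈ := by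
  classical
  let S := alternatingGroup (Fin 5)
  obtain ⟨x0, y0, hxy⟩ := a5_nonabelian
  have hs0 : ∃ s : S, s ≠ 1 := ⟨x0, by rintro rfl; simp at hxy⟩
  refine ⟨KM W S, inferInstance, inferInstance, RK Δ S, ?_, ?_, ?_⟩
  · intro π π'
    constructor
    · intro h m m' hm w w' hw
      exact hm w w' (h hw)
    · intro h w w' hw
      by_contra hn
      obtain ⟨s, hs⟩ := hs0
      let v' : W → S := fun x => if (OrderDual.ofDual π).1.r w x then s else 1
      have h1 : (RK Δ S π).r (kmk 1) (kmk v') := by
        unfold RK
        rw [RR_mk]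
        intro x x' hx
        have : (OrderDual.ofDual π).1.r w x ↔ (OrderDual.ofDual π).1.r w x' :=
          ⟨fun h => (OrderDual.ofDual π).1.trans' h hx,
            fun h => (OrderDual.ofDual π).1.trans' h ((OrderDual.ofDual π).1.symm' hx)⟩
        simp [v', this]
      have h2 := h h1
      change (RK Δ S π').r (kmk 1) (kmk v') at h2
      unfold RK at h2
      rw [RR_mk] at h2
      have h3 := h2 w w' hw
      have e1 : (OrderDual.ofDual π).1.r w w := (OrderDual.ofDual π).1.refl' w
      have e2 : ¬ (OrderDual.ofDual π).1.r w w' := hn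
      simp only [v', if_pos e1, if_neg e2, Pi.one_apply] at h3
      apply hs
      simpa using h3
  · intro m m'
    refine ⟨lmul (fun w => Quotient.out m' w * (Quotient.out m w)⁻¹), lmul_mem Δ _, ?_⟩
    have h := lmul_mk (fun w => Quotient.out m' w * (Quotient.out m w)⁻¹) (Quotient.out m)
    rw [kmk_out] at h
    rw [h]
    have h2 : ((fun w => Quotient.out m' w * (Quotient.out m w)⁻¹) * Quotient.out m) =
        Quotient.out m' := by
      funext w
      simp
    rw [h2, kmk_out]
  · intro N _ _ ρ hρ1 hρ2
    let mkN : (N × W → S) → (N → KM W S) := fun k n => kmk (fun w => k (n, w))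
    have hl : ∀ (u k k' : N × W → S), ρ.r (mkN k) (mkN k') → ρ.r (mkN (u * k)) (mkN (u * k')) := by
      intro u k k' h
      have := hρ1 (fun n => lmul (fun w => u (n, w))) (fun n => lmul_mem Δ _) _ _ h
      exact this
    let K : Subgroup (N × W → S) :=
      { carrier := {k | ρ.r (mkN k) (mkN 1)}
        one_mem' := ρ.refl' _
        mul_mem' := by
          intro k k' hk hk'
          have := hl k _ _ hk'
          simp only [mul_one] at this
          exact ρ.trans' this hk
        inv_mem' := by
          intro k hk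
          have := hl k⁻¹ _ _ hk
          simp only [mul_one, inv_mul_cancel] at this
          exact ρ.symm' this }
    have hKmem : ∀ k, k ∈ K ↔ ρ.r (mkN k) (mkN 1) := fun k => Iff.rfl
    have hKd : ∀ (c : N → S), (fun p : N × W => c p.1) ∈ K := by
      intro c
      rw [hKmem]
      have : mkN (fun p : N × W => c p.1) = mkN 1 := by
        funext n
        show kmk _ = kmk _
        rw [kmk_eq]
        intro _ _
        rfl
      rw [this]
    obtain ⟨n0⟩ := (inferInstance : Nonempty N)
    let π : Setoid W :=
      { r := fun w w' => ∀ k ∈ K, k (n0, w) = k (n0, w')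
        iseqv := ⟨fun _ _ _ => rfl, fun h k hk => (h k hk).symm,
          fun h h' k hk => (h k hk).trans (h' k hk)⟩ }
    have hπn : ∀ n w w', π.r w w' → ∀ k ∈ K, k (n, w) = k (n, w') := by
      intro n w w' h k hk
      have hk' : (fun p : N × W => k (swap n0 n p.1, p.2)) ∈ K := by
        rw [hKmem] at hk ⊢
        exact hρ2 (swap n0 n) _ _ hk
      have := h _ hk'
      simpa using this
    have hπinv : ∀ g ∈ Δ, ∀ x y, π.r x y → π.r (g x) (g y) := by
      intro g hg x y h k hk
      have hk' : (fun p : N × W => k (p.1, g p.2)) ∈ K := by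
        rw [hKmem] at hk ⊢
        exact hρ1 (fun _ => dperm g) (fun _ => dperm_mem Δ g hg) _ _ hk
      exact h _ hk'
    refine ⟨OrderDual.toDual ⟨π, hπinv⟩, ?_⟩
    intro z z'
    let v : N × W → S := fun p => Quotient.out (z p.1) p.2
    let v' : N × W → S := fun p => Quotient.out (z' p.1) p.2
    have hz : z = mkN v := by funext n; exact (kmk_out (z n)).symm
    have hz' : z' = mkN v' := by funext n; exact (kmk_out (z' n)).symm
    have h1 : ρ.r z z' ↔ v⁻¹ * v' ∈ K := by
      rw [hKmem, hz, hz']
      constructor
      · intro h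
        have := hl v⁻¹ _ _ h
        simp only [inv_mul_cancel] at this
        exact ρ.symm' this
      · intro h
        have := hl v _ _ h
        simp only [mul_inv_cancel_left, mul_one] at this
        exact ρ.symm' this
    rw [h1]
    constructor
    · intro h n w w' hw
      exact hπn n w w' hw _ h
    · intro h
      apply mem_of_const_on_classes ⟨x0, y0, hxy⟩ K (fun s => hKd (fun _ => s))
      rintro ⟨n, w⟩ ⟨n', w'⟩ hk
      by_cases hnn : n = n'
      · subst hnn
        have hw : π.r w w' := by
          intro k hkK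
          have hk' : (fun p : N × W => k (swap n0 n p.1, p.2)) ∈ K := by
            rw [hKmem] at hkK ⊢
            exact hρ2 (swap n0 n) _ _ hkK
          have := hk _ hk'
          simpa using this
        exact h n w w' hw
      · exfalso
        obtain ⟨s, hs⟩ := hs0
        have := hk _ (hKd (fun m => if m = n then s else 1))
        simp only [if_pos] at this
        rw [if_neg (Ne.symm hnn)] at this
        exact hs this

end Pool.Agent.Work.MP_a42ba1_al
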