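import Mathlib
import Pool.Agent.Work.MP_a42ba1_al.Pow

set_option autoImplicit false

namespace Pool.Agent.Work.MP_a42ba1_al

open Equiv

/-- Transport of an invariant relation from a quotient-like description. -/
theorem caseB {X O Y : Type} (o : X → O) (y : X → Y) (ψ : Setoid X)
    (hψO : ∀ x x', ψ.r x x' → o x = o x')
    (hψa : ∀ x x', o x = o x' → y x = y x' → ψ.r x x')
    (fib : ∀ x (y0 : Y), ∃ x', o x' = o x ∧ y x' = y0) [Nonempty X]
    (sym : ∀ x w, ∃ s : X → X, (∀ p q, ψ.r p q → ψ.r (s p) (s q)) ∧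
      (∀ p q, o p = o q → o (s p) = o (s q)) ∧ (∀ p, y (s p) = y p) ∧ o (s x) = o w)
    (Γ : Subgroup (Perm Y))
    (gam : ∀ γ ∈ Γ, ∃ s : X → X, (∀ p q, ψ.r p q → ψ.r (s p) (s q)) ∧
      (∀ p q, o p = o q → o (s p) = o (s q)) ∧ (∀ p, y (s p) = γ (y p))) :
    ∃ E : PCon Y Γ, ∀ x x', ψ.r x x' ↔ o x = o x' ∧ E.1.r (y x) (y x') := by
  have key : ∀ x x' w w', ψ.r x x' → o w = o w' → y w = y x → y w' = y x' → ψ.r w w' := by
    intro x x' w w' h hw h1 h2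
    obtain ⟨s, hs1, hs2, hs3, hs4⟩ := sym x w
    have e1 : ψ.r (s x) w := hψa _ _ hs4 (by rw [hs3, h1])
    have e2 : ψ.r (s x') w' := by
      apply hψa _ _ _ (by rw [hs3, h2])
      rw [← hw, ← hs4]
      exact hs2 _ _ (hψO _ _ h).symm
    exact ψ.trans' (ψ.trans' (ψ.symm' e1) (hs1 _ _ h)) e2
  let E : Setoid Y :=
    { r := fun p q => ∀ x x', o x = o x' → y x = p → y x' = q → ψ.r x x'
      iseqv := by
        refine ⟨?_, ?_, ?_⟩
        · intro p x x' h h1 h2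
          exact hψa _ _ h (h1.trans h2.symm)
        · intro p q h x x' ho h1 h2
          exact ψ.symm' (h x' x ho.symm h2 h1)
        · intro p q r h h' x x' ho h1 h2
          obtain ⟨m, hm1, hm2⟩ := fib x q
          exact ψ.trans' (h x m hm1.symm h1 hm2) (h' m x' (hm1.trans ho) hm2 h2) }
  refine ⟨⟨E, ?_⟩, ?_⟩
  · intro γ hγ p q hpq
    obtain ⟨x0⟩ := (inferInstance : Nonempty X)
    obtain ⟨x, hx1, hx2⟩ := fib x0 p
    obtain ⟨x', hx1', hx2'⟩ := fib x0 q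
    have h := hpq x x' (hx1.trans hx1'.symm) hx2 hx2'
    obtain ⟨s, hs1, hs2, hs3⟩ := gam γ hγ
    intro w w' hw h1 h2
    refine key _ _ _ _ (hs1 _ _ h) hw ?_ ?_
    · rw [h1, hs3, hx2]
    · rw [h2, hs3, hx2']
  · intro x x'
    constructor
    · intro h
      refine ⟨hψO _ _ h, ?_⟩
      intro w w' hw h1 h2
      exact key _ _ _ _ h hw h1 h2
    · rintro ⟨h1, h2⟩
      exact h2 x x' h1 rfl rfl

section glue

variable {L : Type} [Lattice L] [Finite L] (a b : L)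

/-- Elements above both `a` and `b`. -/
abbrev TopP := {x : L // a ⊔ b ≤ x}

/-- Elements above `a` and not above `b`. -/
abbrev Side := {x : L // a ≤ x ∧ ¬ b ≤ x}

omit [Finite L] in
theorem side_max [Finite L] (hab : ¬ b ≤ a) (hb : ∀ x y, b ≤ x ⊔ y → b ≤ x ∨ b ≤ y) (f : L)
    (hf : a ≤ f) : ∃ k : Side a b, k.1 ≤ f ∧ ∀ u : Side a b, u.1 ≤ f → u ≤ k := by
  have hfin : {u : L | (a ≤ u ∧ ¬ b ≤ u) ∧ u ≤ f}.Finite := Set.toFinite _
  obtain ⟨k, hk⟩ := hfin.exists_maximal ⟨a, ⟨le_rfl, hab⟩, hf⟩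
  refine ⟨⟨k, hk.1.1⟩, hk.1.2, ?_⟩
  intro u hu
  have hmem : (a ≤ k ⊔ u.1 ∧ ¬ b ≤ k ⊔ u.1) ∧ k ⊔ u.1 ≤ f := by
    refine ⟨⟨hk.1.1.1.trans le_sup_left, ?_⟩, sup_le hk.1.2 hu⟩
    intro h
    rcases hb _ _ h with h | h
    · exact hk.1.1.2 h
    · exact u.2.2 h
  have := hk.2 hmem le_sup_left
  exact le_sup_right.trans this

variable {X O₁ O₂ Y₁ Y₂ Z : Type}
  (o₁ : X → O₁) (o₂ : X → O₂) (y₁ : X → Y₁) (y₂ : X → Y₂) (z : X → Z)
  {Γ₁ : Subgroup (Perm Y₁)} {Γ₂ : Subgroup (Perm Y₂)}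
  (e₁ : Side a b ≃o PCon Y₁ Γ₁) (e₂ : Side b a ≃o PCon Y₂ Γ₂)
  (R : TopP a b → Setoid Z)

/-- The equivalence relation on `X` attached to an element of `L`. -/
def th (l : L) : Setoid X where
  r x x' := (∀ h : a ⊔ b ≤ l, (R ⟨l, h⟩).r (z x) (z x')) ∧
    (∀ h : a ≤ l ∧ ¬ b ≤ l, o₁ x = o₁ x' ∧ (e₁ ⟨l, h⟩).1.r (y₁ x) (y₁ x')) ∧
    (∀ h : b ≤ l ∧ ¬ a ≤ l, o₂ x = o₂ x' ∧ (e₂ ⟨l, h⟩).1.r (y₂ x) (y₂ x')) ∧
    (¬ a ≤ l → ¬ b ≤ l → x = x')
  iseqv := by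
    refine ⟨?_, ?_, ?_⟩
    · intro x
      exact ⟨fun h => (R _).refl' _, fun h => ⟨rfl, (e₁ _).1.refl' _⟩,
        fun h => ⟨rfl, (e₂ _).1.refl' _⟩, fun _ _ => rfl⟩
    · intro x x' h
      exact ⟨fun h' => (R _).symm' (h.1 h'),
        fun h' => ⟨(h.2.1 h').1.symm, (e₁ _).1.symm' (h.2.1 h').2⟩,
        fun h' => ⟨(h.2.2.1 h').1.symm, (e₂ _).1.symm' (h.2.2.1 h').2⟩,
        fun h1 h2 => (h.2.2.2 h1 h2).symm⟩
    · intro x x' x'' h g
      exact ⟨fun h' => (R _).trans' (h.1 h') (g.1 h'),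
        fun h' => ⟨(h.2.1 h').1.trans (g.2.1 h').1, (e₁ _).1.trans' (h.2.1 h').2 (g.2.1 h').2⟩,
        fun h' => ⟨(h.2.2.1 h').1.trans (g.2.2.1 h').1,
          (e₂ _).1.trans' (h.2.2.1 h').2 (g.2.2.1 h').2⟩,
        fun h1 h2 => (h.2.2.2 h1 h2).trans (g.2.2.2 h1 h2)⟩

omit [Finite L] in
theorem th_top {l : L} (h : a ⊔ b ≤ l) (x x' : X) :
    (th a b o₁ o₂ y₁ y₂ z e₁ e₂ R l).r x x' ↔ (R ⟨l, h⟩).r (z x) (z x') := by
  constructor
  · intro g; exact g.1 h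
  · intro g
    exact ⟨fun _ => g, fun h' => absurd (le_sup_right.trans h) h'.2,
      fun h' => absurd (le_sup_left.trans h) h'.2, fun h' => absurd (le_sup_left.trans h) h'⟩

omit [Finite L] in
theorem th_s1 {l : L} (h : a ≤ l ∧ ¬ b ≤ l) (x x' : X) :
    (th a b o₁ o₂ y₁ y₂ z e₁ e₂ R l).r x x' ↔
      o₁ x = o₁ x' ∧ (e₁ ⟨l, h⟩).1.r (y₁ x) (y₁ x') := by
  constructor
  · intro g; exact g.2.1 h
  · intro g
    exact ⟨fun h' => absurd (le_sup_right.trans h') h.2, fun _ => g,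
      fun h' => absurd h.1 h'.2, fun h' => absurd h.1 h'⟩

omit [Finite L] in
theorem th_s2 {l : L} (h : b ≤ l ∧ ¬ a ≤ l) (x x' : X) :
    (th a b o₁ o₂ y₁ y₂ z e₁ e₂ R l).r x x' ↔
      o₂ x = o₂ x' ∧ (e₂ ⟨l, h⟩).1.r (y₂ x) (y₂ x') := by
  constructor
  · intro g; exact g.2.2.1 h
  · intro g
    exact ⟨fun h' => absurd (le_sup_left.trans h') h.2, fun h' => absurd h.1 h'.2,
      fun _ => g, fun _ h' => absurd h.1 h'⟩

omit [Finite L] in
theorem th_bot {l : L} (h : ¬ a ≤ l) (h' : ¬ b ≤ l) (x x' : X) :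
    (th a b o₁ o₂ y₁ y₂ z e₁ e₂ R l).r x x' ↔ x = x' := by
  constructor
  · intro g; exact g.2.2.2 h h'
  · intro g
    exact ⟨fun h'' => absurd (le_sup_left.trans h'') h, fun h'' => absurd h''.1 h,
      fun h'' => absurd h''.1 h', fun _ _ => g⟩

/-- Maps of `X` compatible with the whole structure. -/
def Good (Γ₁ : Subgroup (Perm Y₁)) (Γ₂ : Subgroup (Perm Y₂)) (s : X → X) : Prop :=
  (∀ p q, o₁ p = o₁ q → o₁ (s p) = o₁ (s q)) ∧ (∀ p q, o₂ p = o₂ q → o₂ (s p) = o₂ (s q)) ∧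
  (∃ γ ∈ Γ₁, ∀ p, y₁ (s p) = γ (y₁ p)) ∧ (∃ γ ∈ Γ₂, ∀ p, y₂ (s p) = γ (y₂ p)) ∧
  (∃ g ∈ autR R, ∀ p, z (s p) = g (z p))

theorem glueAbs (hab : ¬ a ≤ b) (hba : ¬ b ≤ a)
    (hcov : ∀ x : L, (∀ y, x ≤ y) ∨ a ≤ x ∨ b ≤ x)
    (ha : ∀ x y, a ≤ x ⊔ y → a ≤ x ∨ a ≤ y) (hb : ∀ x y, b ≤ x ⊔ y → b ≤ x ∨ b ≤ y)
    [Finite X] [Nonempty X]
    (hR : ∀ f f', f ≤ f' ↔ R f ≤ R f')
    (hRfull : ∀ ρ : Setoid Z, (∀ g ∈ autR R, ∀ z z', ρ.r z z' → ρ.r (g z) (g z')) →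
      ∃ f, ∀ z z', ρ.r z z' ↔ (R f).r z z')
    (inj : ∀ x x', o₁ x = o₁ x' → o₂ x = o₂ x' → x = x')
    (ex₁ : ∀ f x x', o₁ x = o₁ x' → ((R f).r (z x) (z x') ↔
      ∃ u : Side a b, u.1 ≤ f.1 ∧ (e₁ u).1.r (y₁ x) (y₁ x')))
    (ex₂ : ∀ f x x', o₂ x = o₂ x' → ((R f).r (z x) (z x') ↔
      ∃ u : Side b a, u.1 ≤ f.1 ∧ (e₂ u).1.r (y₂ x) (y₂ x')))
    (zO₁ : ∀ x x', o₁ x = o₁ x' → y₁ x = y₁ x' → z x = z x')
    (zO₂ : ∀ x x', o₂ x = o₂ x' → y₂ x = y₂ x' → z x = z x')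
    (fib₁ : ∀ x (y : Y₁), ∃ x', o₁ x' = o₁ x ∧ y₁ x' = y)
    (fib₂ : ∀ x (y : Y₂), ∃ x', o₂ x' = o₂ x ∧ y₂ x' = y)
    (ne₁ : ∀ x, ∃ x', o₁ x' = o₁ x ∧ y₁ x' = y₁ x ∧ o₂ x' ≠ o₂ x)
    (ne₂ : ∀ x, ∃ x', o₂ x' = o₂ x ∧ y₂ x' = y₂ x ∧ o₁ x' ≠ o₁ x)
    (zs : Function.Surjective z)
    (sym₁ : ∀ x w, ∃ s, Good a b o₁ o₂ y₁ y₂ z R Γ₁ Γ₂ s ∧ (∀ p, y₁ (s p) = y₁ p) ∧
      o₁ (s x) = o₁ w)
    (sym₂ : ∀ x w, ∃ s, Good a b o₁ o₂ y₁ y₂ z R Γ₁ Γ₂ s ∧ (∀ p, y₂ (s p) = y₂ p) ∧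
      o₂ (s x) = o₂ w)
    (gam₁ : ∀ γ ∈ Γ₁, ∃ s, Good a b o₁ o₂ y₁ y₂ z R Γ₁ Γ₂ s ∧ (∀ p, y₁ (s p) = γ (y₁ p)))
    (gam₂ : ∀ γ ∈ Γ₂, ∃ s, Good a b o₁ o₂ y₁ y₂ z R Γ₁ Γ₂ s ∧ (∀ p, y₂ (s p) = γ (y₂ p)))
    (gz : ∀ g ∈ autR R, ∃ s, Good a b o₁ o₂ y₁ y₂ z R Γ₁ Γ₂ s ∧ (∀ p, z (s p) = g (z p)))
    (conn : ∀ ψ : Setoid X, (∀ x x', o₁ x = o₁ x' → y₁ x = y₁ x' → ψ.r x x') →
      (∀ x x', o₂ x = o₂ x' → y₂ x = y₂ x' → ψ.r x x') → ∀ x x', z x = z x' → ψ.r x x') :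
    Representable L := by
  classical
  set T := th a b o₁ o₂ y₁ y₂ z e₁ e₂ R with hT
  -- abbreviations for the four cases
  have Ttop : ∀ {l : L} (h : a ⊔ b ≤ l) (x x' : X), (T l).r x x' ↔ (R ⟨l, h⟩).r (z x) (z x') :=
    fun h x x' => th_top a b o₁ o₂ y₁ y₂ z e₁ e₂ R h x x'
  have Ts1 : ∀ {l : L} (h : a ≤ l ∧ ¬ b ≤ l) (x x' : X), (T l).r x x' ↔
      o₁ x = o₁ x' ∧ (e₁ ⟨l, h⟩).1.r (y₁ x) (y₁ x') :=
    fun h x x' => th_s1 a b o₁ o₂ y₁ y₂ z e₁ e₂ R h x x'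
  have Ts2 : ∀ {l : L} (h : b ≤ l ∧ ¬ a ≤ l) (x x' : X), (T l).r x x' ↔
      o₂ x = o₂ x' ∧ (e₂ ⟨l, h⟩).1.r (y₂ x) (y₂ x') :=
    fun h x x' => th_s2 a b o₁ o₂ y₁ y₂ z e₁ e₂ R h x x'
  have Tbot : ∀ {l : L} (_ : ¬ a ≤ l) (_ : ¬ b ≤ l) (x x' : X), (T l).r x x' ↔ x = x' :=
    fun h h' x x' => th_bot a b o₁ o₂ y₁ y₂ z e₁ e₂ R h h' x x'
  -- classification of elements
  have cls : ∀ l : L, a ⊔ b ≤ l ∨ (a ≤ l ∧ ¬ b ≤ l) ∨ (b ≤ l ∧ ¬ a ≤ l) ∨
      (¬ a ≤ l ∧ ¬ b ≤ l ∧ ∀ y, l ≤ y) := by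
    intro l
    by_cases h1 : a ≤ l
    · by_cases h2 : b ≤ l
      · exact Or.inl (sup_le h1 h2)
      · exact Or.inr (Or.inl ⟨h1, h2⟩)
    · by_cases h2 : b ≤ l
      · exact Or.inr (Or.inr (Or.inl ⟨h2, h1⟩))
      · refine Or.inr (Or.inr (Or.inr ⟨h1, h2, ?_⟩))
        rcases hcov l with h | h | h
        · exact h
        · exact absurd h h1
        · exact absurd h h2
  obtain ⟨x0⟩ := (inferInstance : Nonempty X)
  -- monotonicity
  have mono : ∀ l l' : L, l ≤ l' → T l ≤ T l' := by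
    intro l l' hll x x' hx
    change (T l).r x x' at hx
    change (T l').r x x'
    rcases cls l with h | h | h | h
    · have h' : a ⊔ b ≤ l' := h.trans hll
      rw [Ttop h] at hx
      rw [Ttop h']
      exact (hR ⟨l, h⟩ ⟨l', h'⟩).mp hll hx
    · rw [Ts1 h] at hx
      by_cases hb' : b ≤ l'
      · have h' : a ⊔ b ≤ l' := sup_le (h.1.trans hll) hb'
        rw [Ttop h']
        rw [ex₁ _ _ _ hx.1]
        exact ⟨⟨l, h⟩, hll, hx.2⟩
      · have h' : a ≤ l' ∧ ¬ b ≤ l' := ⟨h.1.trans hll, hb'⟩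
        rw [Ts1 h']
        refine ⟨hx.1, ?_⟩
        have : e₁ ⟨l, h⟩ ≤ e₁ ⟨l', h'⟩ := e₁.monotone hll
        exact this hx.2
    · rw [Ts2 h] at hx
      by_cases ha' : a ≤ l'
      · have h' : a ⊔ b ≤ l' := sup_le ha' (h.1.trans hll)
        rw [Ttop h']
        rw [ex₂ _ _ _ hx.1]
        exact ⟨⟨l, h⟩, hll, hx.2⟩
      · have h' : b ≤ l' ∧ ¬ a ≤ l' := ⟨h.1.trans hll, ha'⟩
        rw [Ts2 h']
        refine ⟨hx.1, ?_⟩
        have : e₂ ⟨l, h⟩ ≤ e₂ ⟨l', h'⟩ := e₂.monotone hll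
        exact this hx.2
    · rw [Tbot h.1 h.2.1] at hx
      rw [hx]
  -- order reflection
  have refl : ∀ l l' : L, T l ≤ T l' → l ≤ l' := by
    intro l l' hT'
    have hT2 : ∀ x x', (T l).r x x' → (T l').r x x' := fun x x' h => hT' h
    rcases cls l with h | h | h | h
    · obtain ⟨x1, h11, h12, h13⟩ := ne₁ x0
      obtain ⟨x2, h21, h22, h23⟩ := ne₂ x0
      have t1 : (T l).r x1 x0 := by
        rw [Ttop h, zO₁ _ _ h11 h12]
      have t2 : (T l).r x2 x0 := by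
        rw [Ttop h, zO₂ _ _ h21 h22]
      have s1 := hT2 _ _ t1
      have s2 := hT2 _ _ t2
      rcases cls l' with h' | h' | h' | h'
      · have : (⟨l, h⟩ : TopP a b) ≤ ⟨l', h'⟩ := by
          rw [hR]
          intro u v huv
          obtain ⟨x, rfl⟩ := zs u
          obtain ⟨x', rfl⟩ := zs v
          have := hT2 x x' ((Ttop h _ _).mpr huv)
          exact (Ttop h' _ _).mp this
        exact this
      · rw [Ts1 h'] at s2
        exact absurd s2.1 h23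
      · rw [Ts2 h'] at s1
        exact absurd s1.1 h13
      · rw [Tbot h'.1 h'.2.1] at s1
        exact absurd (by rw [s1]) h13
    · obtain ⟨x1, h11, h12, h13⟩ := ne₁ x0
      have t1 : (T l).r x1 x0 := by
        rw [Ts1 h]
        refine ⟨h11, ?_⟩
        rw [h12]
      have s1 := hT2 _ _ t1
      rcases cls l' with h' | h' | h' | h'
      · obtain ⟨k, hk1, hk2⟩ := side_max a b (fun h => hba h) hb l' (le_sup_left.trans h')
        have : (⟨l, h⟩ : Side a b) ≤ k := by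
          rw [← e₁.le_iff_le]
          intro u v huv
          obtain ⟨x, hx1, hx2⟩ := fib₁ x0 u
          obtain ⟨x', hx1', hx2'⟩ := fib₁ x0 v
          have hoo : o₁ x = o₁ x' := hx1.trans hx1'.symm
          have := hT2 x x' ((Ts1 h _ _).mpr ⟨hoo, by rw [hx2, hx2']; exact huv⟩)
          rw [Ttop h', ex₁ _ _ _ hoo] at this
          obtain ⟨w, hw1, hw2⟩ := this
          rw [hx2, hx2'] at hw2
          exact (e₁.monotone (hk2 w hw1)) hw2
        exact le_trans (show l ≤ k.1 from this) hk1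
      · have : (⟨l, h⟩ : Side a b) ≤ ⟨l', h'⟩ := by
          rw [← e₁.le_iff_le]
          intro u v huv
          obtain ⟨x, hx1, hx2⟩ := fib₁ x0 u
          obtain ⟨x', hx1', hx2'⟩ := fib₁ x0 v
          have hoo : o₁ x = o₁ x' := hx1.trans hx1'.symm
          have := hT2 x x' ((Ts1 h _ _).mpr ⟨hoo, by rw [hx2, hx2']; exact huv⟩)
          rw [Ts1 h', hx2, hx2'] at this
          exact this.2
        exact this
      · rw [Ts2 h'] at s1
        exact absurd s1.1 h13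
      · rw [Tbot h'.1 h'.2.1] at s1
        exact absurd (by rw [s1]) h13
    · obtain ⟨x2, h21, h22, h23⟩ := ne₂ x0
      have t2 : (T l).r x2 x0 := by
        rw [Ts2 h]
        refine ⟨h21, ?_⟩
        rw [h22]
      have s2 := hT2 _ _ t2
      rcases cls l' with h' | h' | h' | h'
      · obtain ⟨k, hk1, hk2⟩ := side_max b a (fun h => hab h) ha l' (le_sup_right.trans h')
        have : (⟨l, h⟩ : Side b a) ≤ k := by
          rw [← e₂.le_iff_le]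
          intro u v huv
          obtain ⟨x, hx1, hx2⟩ := fib₂ x0 u
          obtain ⟨x', hx1', hx2'⟩ := fib₂ x0 v
          have hoo : o₂ x = o₂ x' := hx1.trans hx1'.symm
          have := hT2 x x' ((Ts2 h _ _).mpr ⟨hoo, by rw [hx2, hx2']; exact huv⟩)
          rw [Ttop h', ex₂ _ _ _ hoo] at this
          obtain ⟨w, hw1, hw2⟩ := this
          rw [hx2, hx2'] at hw2
          exact (e₂.monotone (hk2 w hw1)) hw2
        exact le_trans (show l ≤ k.1 from this) hk1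
      · rw [Ts1 h'] at s2
        exact absurd s2.1 h23
      · have : (⟨l, h⟩ : Side b a) ≤ ⟨l', h'⟩ := by
          rw [← e₂.le_iff_le]
          intro u v huv
          obtain ⟨x, hx1, hx2⟩ := fib₂ x0 u
          obtain ⟨x', hx1', hx2'⟩ := fib₂ x0 v
          have hoo : o₂ x = o₂ x' := hx1.trans hx1'.symm
          have := hT2 x x' ((Ts2 h _ _).mpr ⟨hoo, by rw [hx2, hx2']; exact huv⟩)
          rw [Ts2 h', hx2, hx2'] at this
          exact this.2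
        exact this
      · rw [Tbot h'.1 h'.2.1] at s2
        exact absurd (by rw [s2]) h23
    · exact h.2.2 l'
  let ops : Set (X → X) := {s | ∀ l x x', (T l).r x x' → (T l).r (s x) (s x')}
  -- good maps are operations
  have good_ops : ∀ s, Good a b o₁ o₂ y₁ y₂ z R Γ₁ Γ₂ s → s ∈ ops := by
    rintro s ⟨g1, g2, ⟨γ, hγ, g3⟩, ⟨δ, hδ, g4⟩, ⟨g, hg, g5⟩⟩ l x x' hx
    rcases cls l with h | h | h | h
    · rw [Ttop h] at hx ⊢
      rw [g5, g5]
      exact (hg _ _ _).mp hx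
    · rw [Ts1 h] at hx ⊢
      rw [g3, g3]
      exact ⟨g1 _ _ hx.1, (e₁ _).2 γ hγ _ _ hx.2⟩
    · rw [Ts2 h] at hx ⊢
      rw [g4, g4]
      exact ⟨g2 _ _ hx.1, (e₂ _).2 δ hδ _ _ hx.2⟩
    · rw [Tbot h.1 h.2.1] at hx ⊢
      rw [hx]
  -- two-valued maps
  have two₁ : ∀ ψ : UCon X ops, ¬ (∀ x x', ψ.1.r x x' → o₂ x = o₂ x') →
      ∀ p p', o₁ p = o₁ p' → y₁ p = y₁ p' → ψ.1.r p p' := by
    intro ψ hψ p p' hp hp'
    push Not at hψ
    obtain ⟨x, x', hx, hne⟩ := hψ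
    let s : X → X := fun w => if o₂ w = o₂ x then p else p'
    have hs : s ∈ ops := by
      intro l w w' hw
      have hp1 : (a ≤ l) → (T l).r p p' := by
        intro hal
        by_cases hbl : b ≤ l
        · rw [Ttop (sup_le hal hbl), zO₁ _ _ hp hp']
        · rw [Ts1 ⟨hal, hbl⟩, hp']
          exact ⟨hp, (e₁ _).1.refl' _⟩
      by_cases hal : a ≤ l
      · have hp2 := hp1 hal
        by_cases hw1 : o₂ w = o₂ x
        · by_cases hw2 : o₂ w' = o₂ x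
          · simp only [s, if_pos hw1, if_pos hw2]
            exact (T l).refl' _
          · simp only [s, if_pos hw1, if_neg hw2]
            exact hp2
        · by_cases hw2 : o₂ w' = o₂ x
          · simp only [s, if_neg hw1, if_pos hw2]
            exact (T l).symm' hp2
          · simp only [s, if_neg hw1, if_neg hw2]
            exact (T l).refl' _
      · have ho : o₂ w = o₂ w' := by
          by_cases hbl : b ≤ l
          · rw [Ts2 ⟨hbl, hal⟩] at hw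
            exact hw.1
          · rw [Tbot hal hbl] at hw
            rw [hw]
        simp only [s, ho]
        exact (T l).refl' _
    have := ψ.2 s hs x x' hx
    simp only [s, if_neg (Ne.symm hne)] at this
    exact this
  have two₂ : ∀ ψ : UCon X ops, ¬ (∀ x x', ψ.1.r x x' → o₁ x = o₁ x') →
      ∀ p p', o₂ p = o₂ p' → y₂ p = y₂ p' → ψ.1.r p p' := by
    intro ψ hψ p p' hp hp'
    push Not at hψ
    obtain ⟨x, x', hx, hne⟩ := hψ
    let s : X → X := fun w => if o₁ w = o₁ x then p else p'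
    have hs : s ∈ ops := by
      intro l w w' hw
      have hp1 : (b ≤ l) → (T l).r p p' := by
        intro hbl
        by_cases hal : a ≤ l
        · rw [Ttop (sup_le hal hbl), zO₂ _ _ hp hp']
        · rw [Ts2 ⟨hbl, hal⟩, hp']
          exact ⟨hp, (e₂ _).1.refl' _⟩
      by_cases hbl : b ≤ l
      · have hp2 := hp1 hbl
        by_cases hw1 : o₁ w = o₁ x
        · by_cases hw2 : o₁ w' = o₁ x
          · simp only [s, if_pos hw1, if_pos hw2]
            exact (T l).refl' _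
          · simp only [s, if_pos hw1, if_neg hw2]
            exact hp2
        · by_cases hw2 : o₁ w' = o₁ x
          · simp only [s, if_neg hw1, if_pos hw2]
            exact (T l).symm' hp2
          · simp only [s, if_neg hw1, if_neg hw2]
            exact (T l).refl' _
      · have ho : o₁ w = o₁ w' := by
          by_cases hal : a ≤ l
          · rw [Ts1 ⟨hal, hbl⟩] at hw
            exact hw.1
          · rw [Tbot hal hbl] at hw
            rw [hw]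
        simp only [s, ho]
        exact (T l).refl' _
    have := ψ.2 s hs x x' hx
    simp only [s, if_neg (Ne.symm hne)] at this
    exact this
  -- surjectivity
  have surj : ∀ ψ : UCon X ops, ∃ l : L, ∀ x x', (T l).r x x' ↔ ψ.1.r x x' := by
    intro ψ
    by_cases c1 : ∀ x x', ψ.1.r x x' → o₁ x = o₁ x'
    · by_cases c2 : ∀ x x', ψ.1.r x x' → o₂ x = o₂ x'
      · refine ⟨a ⊓ b, fun x x' => ?_⟩
        rw [Tbot (fun h => hab (h.trans inf_le_right)) (fun h => hba (h.trans inf_le_left))]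
        constructor
        · rintro rfl; exact ψ.1.refl' _
        · intro h; exact inj _ _ (c1 _ _ h) (c2 _ _ h)
      · obtain ⟨E, hE⟩ := caseB o₁ y₁ ψ.1 c1 (two₁ ψ c2) fib₁
          (fun x w => by
            obtain ⟨s, hs, hs2, hs3⟩ := sym₁ x w
            exact ⟨s, fun p q h => ψ.2 s (good_ops s hs) p q h, hs.1, hs2, hs3⟩) Γ₁
          (fun γ hγ => by
            obtain ⟨s, hs, hs2⟩ := gam₁ γ hγ
            exact ⟨s, fun p q h => ψ.2 s (good_ops s hs) p q h, hs.1, hs2⟩)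
        refine ⟨(e₁.symm E).1, fun x x' => ?_⟩
        rw [Ts1 (e₁.symm E).2, hE]
        have : e₁ ⟨(e₁.symm E).1, (e₁.symm E).2⟩ = E := e₁.apply_symm_apply E
        rw [this]
    · by_cases c2 : ∀ x x', ψ.1.r x x' → o₂ x = o₂ x'
      · obtain ⟨E, hE⟩ := caseB o₂ y₂ ψ.1 c2 (two₂ ψ c1) fib₂
          (fun x w => by
            obtain ⟨s, hs, hs2, hs3⟩ := sym₂ x w
            exact ⟨s, fun p q h => ψ.2 s (good_ops s hs) p q h, hs.2.1, hs2, hs3⟩) Γ₂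
          (fun γ hγ => by
            obtain ⟨s, hs, hs2⟩ := gam₂ γ hγ
            exact ⟨s, fun p q h => ψ.2 s (good_ops s hs) p q h, hs.2.1, hs2⟩)
        refine ⟨(e₂.symm E).1, fun x x' => ?_⟩
        rw [Ts2 (e₂.symm E).2, hE]
        have : e₂ ⟨(e₂.symm E).1, (e₂.symm E).2⟩ = E := e₂.apply_symm_apply E
        rw [this]
      · have hz := conn ψ.1 (two₁ ψ c2) (two₂ ψ c1)
        let ρ : Setoid Z :=
          { r := fun u v => ∀ x x', z x = u → z x' = v → ψ.1.r x x'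
            iseqv := by
              refine ⟨?_, ?_, ?_⟩
              · intro u x x' h1 h2
                exact hz _ _ (h1.trans h2.symm)
              · intro u v h x x' h1 h2
                exact ψ.1.symm' (h x' x h2 h1)
              · intro u v w h h' x x' h1 h2
                obtain ⟨m, hm⟩ := zs v
                exact ψ.1.trans' (h x m h1 hm) (h' m x' hm h2) }
        have hρψ : ∀ x x', ψ.1.r x x' → ρ.r (z x) (z x') := by
          intro x x' h w w' h1 h2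
          exact ψ.1.trans' (ψ.1.trans' (hz _ _ h1) h) (hz _ _ h2.symm)
        obtain ⟨f, hf⟩ := hRfull ρ (by
          intro g hg u v huv
          obtain ⟨x, rfl⟩ := zs u
          obtain ⟨x', rfl⟩ := zs v
          obtain ⟨s, hs, hs2⟩ := gz g hg
          have h1 := ψ.2 s (good_ops s hs) x x' (huv x x' rfl rfl)
          have h2 := hρψ _ _ h1
          rwa [hs2, hs2] at h2)
        refine ⟨f.1, fun x x' => ?_⟩
        rw [Ttop f.2, ← hf]
        constructor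
        · intro h; exact h x x' rfl rfl
        · intro h; exact hρψ _ _ h
  have hTmem : ∀ l, ∀ s ∈ ops, ∀ x y, (T l).r x y → (T l).r (s x) (s y) :=
    fun l s hs x y h => hs l x y h
  refine representable_of_ucon ops (RelIso.ofSurjective
    (OrderEmbedding.ofMapLEIff (fun l => (⟨T l, hTmem l⟩ : UCon X ops)) ?_) ?_)
  · intro l l'
    exact ⟨fun h => refl l l' h, fun h => mono l l' h⟩
  · intro ψ
    obtain ⟨l, hl⟩ := surj ψ
    refine ⟨l, ?_⟩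
    apply Subtype.ext
    apply Setoid.ext
    intro x x'
    exact hl x x'

end glue

end Pool.Agent.Work.MP_a42ba1_al
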