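import Mathlib
import Pool.Agent.Work.MP_a42ba1_al.Glue

set_option autoImplicit false

namespace Pool.Agent.Work.MP_a42ba1_al

open Equiv

theorem exists_perm_two {B : Type} {p q p' q' : B} (h : p ≠ q) (h' : p' ≠ q') :
    ∃ π : Perm B, π p = p' ∧ π q = q' := by
  classical
  have h1 : swap p p' q ≠ p' := by
    intro h2
    apply h
    have := congrArg (swap p p') h2
    rw [swap_apply_self, swap_apply_right] at this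
    exact this.symm
  refine ⟨swap (swap p p' q) q' * swap p p', ?_, ?_⟩
  · rw [Perm.mul_apply, swap_apply_left, swap_apply_of_ne_of_ne h1.symm h']
  · rw [Perm.mul_apply, swap_apply_left]

theorem exists_perm_pair {Y : Type} (y : Y) (p q : Y × Bool) :
    ∃ π : Perm (Y × Bool), (π p).1 = y ∧ (π q).1 = y := by
  classical
  by_cases h : p = q
  · subst h
    exact ⟨swap p (y, false), by simp, by simp⟩
  · obtain ⟨π, h1, h2⟩ := exists_perm_two h (p' := (y, false)) (q' := (y, true)) (by simp)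
    exact ⟨π, by rw [h1], by rw [h2]⟩

/-- Switch the Boolean coordinate. -/
def flipB (Y : Type) : Perm (Y × Bool) where
  toFun p := (p.1, !p.2)
  invFun p := (p.1, !p.2)
  left_inv p := by simp
  right_inv p := by simp

/-- Act on the first coordinate. -/
def extB {Y : Type} (γ : Perm Y) : Perm (Y × Bool) where
  toFun p := (γ p.1, p.2)
  invFun p := (γ.symm p.1, p.2)
  left_inv p := by simp
  right_inv p := by simp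

section conc

variable {F Y₁ Y₂ Z : Type} (R : F → Setoid Z) (j₁ : Y₁ → Z) (j₂ : Y₂ → Z)

/-- Translates of a pattern. -/
def Tr {Y : Type} (j : Y → Z) : Set (Y → Z) := {i | ∃ g ∈ autR R, ∀ y, i y = g (j y)}

variable (Y₁ Y₂ Z) in
/-- The ambient set of the construction. -/
abbrev Amb := ((Y₁ → Z) × (Y₂ × Bool) × Perm (Y₁ × Bool)) ×
  ((Y₂ → Z) × (Y₁ × Bool) × Perm (Y₂ × Bool))

/-- The underlying set of the construction. -/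
def XX : Type := {p : Amb Y₁ Y₂ Z // p.1.1 ∈ Tr R j₁ ∧ p.2.1 ∈ Tr R j₂ ∧
  p.1.1 (p.1.2.2 p.2.2.1).1 = p.2.1 (p.2.2.2 p.1.2.1).1}

instance [Finite Y₁] [Finite Y₂] [Finite Z] : Finite (XX R j₁ j₂) := by
  unfold XX
  infer_instance

variable {R j₁ j₂}

/-- First component. -/
def O1 (x : XX R j₁ j₂) := x.1.1
/-- Second component. -/
def O2 (x : XX R j₁ j₂) := x.1.2
/-- First inner coordinate. -/
def yy1 (x : XX R j₁ j₂) : Y₁ := (x.1.1.2.2 x.1.2.2.1).1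
/-- Second inner coordinate. -/
def yy2 (x : XX R j₁ j₂) : Y₂ := (x.1.2.2.2 x.1.1.2.1).1
/-- The common value. -/
def zz (x : XX R j₁ j₂) : Z := x.1.1.1 (yy1 x)

theorem zz_eq (x : XX R j₁ j₂) : zz x = x.1.2.1 (yy2 x) := x.2.2.2

theorem comp_mem {Y : Type} {j i : Y → Z} (hi : i ∈ Tr R j) {h : Perm Z} (hh : h ∈ autR R)
    {γ : Perm Y} (hγ : ∃ g ∈ autR R, ∀ y, g (j y) = j (γ y)) :
    (fun y => h (i (γ.symm y))) ∈ Tr R j := by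
  obtain ⟨g, hg, hgi⟩ := hi
  obtain ⟨k, hk, hkj⟩ := hγ
  refine ⟨h * g * k⁻¹, mul_mem (mul_mem hh hg) (inv_mem hk), ?_⟩
  intro y
  have : k⁻¹ (j y) = j (γ.symm y) := by
    rw [Perm.inv_eq_iff_eq, hkj]
    simp
  simp only [Perm.mul_apply, this, hgi]

/-- The symmetries of the construction. -/
def symm {h : Perm Z} (hh : h ∈ autR R) (σ : Perm (Y₁ × Bool)) (τ : Perm (Y₂ × Bool))
    {γ : Perm Y₁} (hγ : ∃ g ∈ autR R, ∀ y, g (j₁ y) = j₁ (γ y))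
    {δ : Perm Y₂} (hδ : ∃ g ∈ autR R, ∀ y, g (j₂ y) = j₂ (δ y)) (x : XX R j₁ j₂) :
    XX R j₁ j₂ :=
  ⟨((fun y => h (x.1.1.1 (γ.symm y)), τ x.1.1.2.1, extB γ * x.1.1.2.2 * σ⁻¹),
    (fun y => h (x.1.2.1 (δ.symm y)), σ x.1.2.2.1, extB δ * x.1.2.2.2 * τ⁻¹)),
    comp_mem x.2.1 hh hγ, comp_mem x.2.2.1 hh hδ, by
      have := x.2.2.2
      simp [Perm.mul_apply, extB, this]⟩

variable {h : Perm Z} (hh : h ∈ autR R) (σ : Perm (Y₁ × Bool)) (τ : Perm (Y₂ × Bool))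
    {γ : Perm Y₁} (hγ : ∃ g ∈ autR R, ∀ y, g (j₁ y) = j₁ (γ y))
    {δ : Perm Y₂} (hδ : ∃ g ∈ autR R, ∀ y, g (j₂ y) = j₂ (δ y))

theorem symm_y1 (x : XX R j₁ j₂) : yy1 (symm hh σ τ hγ hδ x) = γ (yy1 x) := by
  simp [yy1, symm, Perm.mul_apply, extB]

theorem symm_y2 (x : XX R j₁ j₂) : yy2 (symm hh σ τ hγ hδ x) = δ (yy2 x) := by
  simp [yy2, symm, Perm.mul_apply, extB]

theorem symm_z (x : XX R j₁ j₂) : zz (symm hh σ τ hγ hδ x) = h (zz x) := by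
  unfold zz
  rw [symm_y1]
  simp [symm]

theorem symm_o1 (x x' : XX R j₁ j₂) (hx : O1 x = O1 x') :
    O1 (symm hh σ τ hγ hδ x) = O1 (symm hh σ τ hγ hδ x') := by
  unfold O1 at hx
  simp [symm, O1, hx]

theorem symm_o2 (x x' : XX R j₁ j₂) (hx : O2 x = O2 x') :
    O2 (symm hh σ τ hγ hδ x) = O2 (symm hh σ τ hγ hδ x') := by
  unfold O2 at hx
  simp [symm, O2, hx]

theorem tr_exists {Y : Type} (j : Y → Z) (htr : ∀ m m', ∃ g ∈ autR R, g m = m') (y : Y) (m : Z) :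
    ∃ i ∈ Tr R j, i y = m := by
  obtain ⟨g, hg, h⟩ := htr (j y) m
  exact ⟨fun y => g (j y), ⟨g, hg, fun _ => rfl⟩, h⟩

theorem conn_aux (htr : ∀ m m', ∃ g ∈ autR R, g m = m') [Nonempty Y₂] (ψ : Setoid (XX R j₁ j₂))
    (h1 : ∀ x x', O1 x = O1 x' → yy1 x = yy1 x' → ψ.r x x')
    (h2 : ∀ x x', O2 x = O2 x' → yy2 x = yy2 x' → ψ.r x x')
    (x x' : XX R j₁ j₂) (hz : zz x = zz x') (hb : x.1.2.2.1 = x'.1.2.2.1) : ψ.r x x' := by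
  obtain ⟨y0⟩ := (inferInstance : Nonempty Y₂)
  obtain ⟨i, hi, hi2⟩ := tr_exists j₂ htr y0 (zz x)
  obtain ⟨π, hπ1, hπ2⟩ := exists_perm_pair y0 x.1.1.2.1 x'.1.1.2.1
  let m : XX R j₁ j₂ := ⟨(x.1.1, (i, x.1.2.2.1, π)), x.2.1, hi, by
    show zz x = i (π x.1.1.2.1).1
    rw [hπ1, hi2]⟩
  let m' : XX R j₁ j₂ := ⟨(x'.1.1, (i, x.1.2.2.1, π)), x'.2.1, hi, by
    show x'.1.1.1 (x'.1.1.2.2 x.1.2.2.1).1 = i (π x'.1.1.2.1).1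
    rw [hπ2, hi2, hb, hz]
    rfl⟩
  have e1 : ψ.r x m := h1 _ _ rfl rfl
  have e2 : ψ.r m m' := by
    refine h2 m m' rfl ?_
    show (π x.1.1.2.1).1 = (π x'.1.1.2.1).1
    rw [hπ1, hπ2]
  have e3 : ψ.r m' x' := by
    refine h1 m' x' rfl ?_
    show (x'.1.1.2.2 x.1.2.2.1).1 = (x'.1.1.2.2 x'.1.2.2.1).1
    rw [hb]
  exact ψ.trans' (ψ.trans' e1 e2) e3

theorem conn_main (htr : ∀ m m', ∃ g ∈ autR R, g m = m') [Nonempty Y₁] [Nonempty Y₂]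
    (ψ : Setoid (XX R j₁ j₂))
    (h1 : ∀ x x', O1 x = O1 x' → yy1 x = yy1 x' → ψ.r x x')
    (h2 : ∀ x x', O2 x = O2 x' → yy2 x = yy2 x' → ψ.r x x')
    (x x' : XX R j₁ j₂) (hz : zz x = zz x') : ψ.r x x' := by
  obtain ⟨y0⟩ := (inferInstance : Nonempty Y₁)
  obtain ⟨i, hi, hi2⟩ := tr_exists j₁ htr y0 (zz x)
  obtain ⟨π, hπ1, hπ2⟩ := exists_perm_pair y0 x.1.2.2.1 x'.1.2.2.1
  let m : XX R j₁ j₂ := ⟨((i, x.1.1.2.1, π), x.1.2), hi, x.2.2.1, by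
    show i (π x.1.2.2.1).1 = x.1.2.1 (yy2 x)
    rw [hπ1, hi2, zz_eq]⟩
  let m' : XX R j₁ j₂ := ⟨((i, x.1.1.2.1, π), (x.1.2.1, x'.1.2.2.1, x.1.2.2.2)), hi, x.2.2.1, by
    show i (π x'.1.2.2.1).1 = x.1.2.1 (yy2 x)
    rw [hπ2, hi2, zz_eq]⟩
  have e1 : ψ.r x m := h2 _ _ rfl rfl
  have e2 : ψ.r m m' := by
    refine h1 m m' rfl ?_
    show (π x.1.2.2.1).1 = (π x'.1.2.2.1).1
    rw [hπ1, hπ2]
  have e3 : ψ.r m' x' := by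
    refine conn_aux htr ψ h1 h2 m' x' ?_ rfl
    show i (π x'.1.2.2.1).1 = zz x'
    rw [hπ2, hi2, hz]
  exact ψ.trans' (ψ.trans' e1 e2) e3

end conc

theorem glueConc {L : Type} [Lattice L] [Finite L] (a b : L) (hab : ¬ a ≤ b) (hba : ¬ b ≤ a)
    (hcov : ∀ x : L, (∀ y, x ≤ y) ∨ a ≤ x ∨ b ≤ x)
    (ha : ∀ x y, a ≤ x ⊔ y → a ≤ x ∨ a ≤ y) (hb : ∀ x y, b ≤ x ⊔ y → b ≤ x ∨ b ≤ y)
    {Y₁ Y₂ Z : Type} [Finite Y₁] [Finite Y₂] [Finite Z] [Nonempty Y₁] [Nonempty Y₂] [Nonempty Z]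
    {Γ₁ : Subgroup (Perm Y₁)} {Γ₂ : Subgroup (Perm Y₂)}
    (e₁ : Side a b ≃o PCon Y₁ Γ₁) (e₂ : Side b a ≃o PCon Y₂ Γ₂)
    (R : TopP a b → Setoid Z) (j₁ : Y₁ → Z) (j₂ : Y₂ → Z)
    (hR : ∀ f f', f ≤ f' ↔ R f ≤ R f')
    (htr : ∀ m m', ∃ g ∈ autR R, g m = m')
    (hRfull : ∀ ρ : Setoid Z, (∀ g ∈ autR R, ∀ z z', ρ.r z z' → ρ.r (g z) (g z')) →
      ∃ f, ∀ z z', ρ.r z z' ↔ (R f).r z z')
    (pat₁ : ∀ f y y', (R f).r (j₁ y) (j₁ y') ↔ ∃ u : Side a b, u.1 ≤ f.1 ∧ (e₁ u).1.r y y')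
    (pat₂ : ∀ f y y', (R f).r (j₂ y) (j₂ y') ↔ ∃ u : Side b a, u.1 ≤ f.1 ∧ (e₂ u).1.r y y')
    (sy₁ : ∀ γ ∈ Γ₁, ∃ g ∈ autR R, ∀ y, g (j₁ y) = j₁ (γ y))
    (sy₂ : ∀ γ ∈ Γ₂, ∃ g ∈ autR R, ∀ y, g (j₂ y) = j₂ (γ y)) :
    Representable L := by
  classical
  have one₁ : ∃ g ∈ autR R, ∀ y, g (j₁ y) = j₁ ((1 : Perm Y₁) y) := ⟨1, one_mem _, fun _ => rfl⟩
  have one₂ : ∃ g ∈ autR R, ∀ y, g (j₂ y) = j₂ ((1 : Perm Y₂) y) := ⟨1, one_mem _, fun _ => rfl⟩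
  have good : ∀ {h : Perm Z} (hh : h ∈ autR R) (σ : Perm (Y₁ × Bool)) (τ : Perm (Y₂ × Bool))
    {γ : Perm Y₁} (hγΓ : γ ∈ Γ₁) (hγ : ∃ g ∈ autR R, ∀ y, g (j₁ y) = j₁ (γ y))
    {δ : Perm Y₂} (hδΓ : δ ∈ Γ₂) (hδ : ∃ g ∈ autR R, ∀ y, g (j₂ y) = j₂ (δ y)),
    Good a b (O1 (R := R) (j₁ := j₁) (j₂ := j₂)) O2 yy1 yy2 zz R Γ₁ Γ₂ (symm hh σ τ hγ hδ) := by
    intro h hh σ τ γ hγΓ hγ δ hδΓ hδ
    exact ⟨symm_o1 hh σ τ hγ hδ, symm_o2 hh σ τ hγ hδ, ⟨γ, hγΓ, symm_y1 hh σ τ hγ hδ⟩,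
      ⟨δ, hδΓ, symm_y2 hh σ τ hγ hδ⟩, ⟨h, hh, symm_z hh σ τ hγ hδ⟩⟩
  have zs : Function.Surjective (zz (R := R) (j₁ := j₁) (j₂ := j₂)) := by
    intro m
    obtain ⟨y1⟩ := (inferInstance : Nonempty Y₁)
    obtain ⟨y2⟩ := (inferInstance : Nonempty Y₂)
    obtain ⟨i1, hi1, hi1'⟩ := tr_exists j₁ htr y1 m
    obtain ⟨i2, hi2, hi2'⟩ := tr_exists j₂ htr y2 m
    refine ⟨⟨((i1, (y2, false), 1), (i2, (y1, false), 1)), hi1, hi2, ?_⟩, ?_⟩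
    · show i1 y1 = i2 y2
      rw [hi1', hi2']
    · exact hi1'
  have hne : Nonempty (XX R j₁ j₂) := by
    obtain ⟨m⟩ := (inferInstance : Nonempty Z)
    obtain ⟨x, _⟩ := zs m
    exact ⟨x⟩
  have move : ∀ {Y : Type} (j : Y → Z) (i i' : Y → Z), i ∈ Tr R j → i' ∈ Tr R j →
      ∃ g ∈ autR R, ∀ y, g (i y) = i' y := by
    rintro Y j i i' ⟨g, hg, hgi⟩ ⟨g', hg', hgi'⟩
    refine ⟨g' * g⁻¹, mul_mem hg' (inv_mem hg), fun y => ?_⟩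
    rw [hgi, hgi']
    simp [Perm.mul_apply]
  refine glueAbs (X := XX R j₁ j₂) a b O1 O2 yy1 yy2 zz e₁ e₂ R hab hba hcov ha hb hR hRfull
    ?_ ?_ ?_ ?_ ?_ ?_ ?_ ?_ ?_ zs ?_ ?_ ?_ ?_ ?_ ?_
  · intro x x' h1 h2
    exact Subtype.ext (Prod.ext h1 h2)
  · intro f x x' hx
    have hx' : x.1.1.1 = x'.1.1.1 := congrArg Prod.fst hx
    obtain ⟨g, hg, hgi⟩ := x.2.1
    have e1 : zz x = g (j₁ (yy1 x)) := hgi _
    have e2 : zz x' = g (j₁ (yy1 x')) := by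
      show x'.1.1.1 _ = _
      rw [← hx', hgi]
    rw [e1, e2, ← hg f, pat₁]
  · intro f x x' hx
    have hx' : x.1.2.1 = x'.1.2.1 := congrArg Prod.fst hx
    obtain ⟨g, hg, hgi⟩ := x.2.2.1
    have e1 : zz x = g (j₂ (yy2 x)) := by rw [zz_eq]; exact hgi _
    have e2 : zz x' = g (j₂ (yy2 x')) := by
      rw [zz_eq, ← hx', hgi]
    rw [e1, e2, ← hg f, pat₂]
  · intro x x' hx hy
    have hx' : x.1.1.1 = x'.1.1.1 := congrArg Prod.fst hx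
    unfold zz
    rw [hx', hy]
  · intro x x' hx hy
    have hx' : x.1.2.1 = x'.1.2.1 := congrArg Prod.fst hx
    rw [zz_eq, zz_eq, hx', hy]
  · intro x y
    obtain ⟨i, hi, hi'⟩ := tr_exists j₂ htr (yy2 x) (x.1.1.1 y)
    refine ⟨⟨(x.1.1, (i, x.1.1.2.2.symm (y, false), x.1.2.2.2)), x.2.1, hi, ?_⟩, rfl, ?_⟩
    · show x.1.1.1 (x.1.1.2.2 (x.1.1.2.2.symm (y, false))).1 = i (yy2 x)
      rw [hi', apply_symm_apply]
    · show (x.1.1.2.2 (x.1.1.2.2.symm (y, false))).1 = y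
      rw [apply_symm_apply]
  · intro x y
    obtain ⟨i, hi, hi'⟩ := tr_exists j₁ htr (yy1 x) (x.1.2.1 y)
    refine ⟨⟨((i, x.1.2.2.2.symm (y, false), x.1.1.2.2), x.1.2), hi, x.2.2.1, ?_⟩, rfl, ?_⟩
    · show i (yy1 x) = x.1.2.1 (x.1.2.2.2 (x.1.2.2.2.symm (y, false))).1
      rw [hi', apply_symm_apply]
    · show (x.1.2.2.2 (x.1.2.2.2.symm (y, false))).1 = y
      rw [apply_symm_apply]
  · intro x
    refine ⟨⟨(x.1.1, (x.1.2.1, x.1.2.2.1, flipB Y₂ * x.1.2.2.2)), x.2.1, x.2.2.1, ?_⟩, rfl, rfl, ?_⟩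
    · exact x.2.2.2
    · intro h
      have h2 : flipB Y₂ * x.1.2.2.2 = x.1.2.2.2 := congrArg (fun p => p.2.2) h
      have h3 := congrArg (fun π : Perm (Y₂ × Bool) => (π x.1.1.2.1).2) h2
      simp [flipB, Perm.mul_apply] at h3
  · intro x
    refine ⟨⟨((x.1.1.1, x.1.1.2.1, flipB Y₁ * x.1.1.2.2), x.1.2), x.2.1, x.2.2.1, ?_⟩, rfl, rfl, ?_⟩
    · exact x.2.2.2
    · intro h
      have h2 : flipB Y₁ * x.1.1.2.2 = x.1.1.2.2 := congrArg (fun p => p.2.2) h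
      have h3 := congrArg (fun π : Perm (Y₁ × Bool) => (π x.1.2.2.1).2) h2
      simp [flipB, Perm.mul_apply] at h3
  · intro x w
    obtain ⟨g, hg, hgi⟩ := move j₁ x.1.1.1 w.1.1.1 x.2.1 w.2.1
    refine ⟨symm hg (w.1.1.2.2⁻¹ * x.1.1.2.2) (swap x.1.1.2.1 w.1.1.2.1) one₁ one₂,
      good hg _ _ (one_mem _) _ (one_mem _) _, fun p => symm_y1 hg _ _ one₁ one₂ p, ?_⟩
    refine Prod.ext ?_ (Prod.ext ?_ ?_)
    · funext y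
      exact hgi y
    · show swap x.1.1.2.1 w.1.1.2.1 x.1.1.2.1 = w.1.1.2.1
      simp
    · show extB 1 * x.1.1.2.2 * (w.1.1.2.2⁻¹ * x.1.1.2.2)⁻¹ = w.1.1.2.2
      have : extB (1 : Perm Y₁) = 1 := rfl
      rw [this]
      group
  · intro x w
    obtain ⟨g, hg, hgi⟩ := move j₂ x.1.2.1 w.1.2.1 x.2.2.1 w.2.2.1
    refine ⟨symm hg (swap x.1.2.2.1 w.1.2.2.1) (w.1.2.2.2⁻¹ * x.1.2.2.2) one₁ one₂,
      good hg _ _ (one_mem _) _ (one_mem _) _, fun p => symm_y2 hg _ _ one₁ one₂ p, ?_⟩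
    refine Prod.ext ?_ (Prod.ext ?_ ?_)
    · funext y
      exact hgi y
    · show swap x.1.2.2.1 w.1.2.2.1 x.1.2.2.1 = w.1.2.2.1
      simp
    · show extB 1 * x.1.2.2.2 * (w.1.2.2.2⁻¹ * x.1.2.2.2)⁻¹ = w.1.2.2.2
      have : extB (1 : Perm Y₂) = 1 := rfl
      rw [this]
      group
  · intro γ hγ
    exact ⟨symm (one_mem _) 1 1 (sy₁ γ hγ) one₂, good _ _ _ hγ _ (one_mem _) _,
      fun p => symm_y1 _ _ _ _ _ p⟩
  · intro γ hγ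
    exact ⟨symm (one_mem _) 1 1 one₁ (sy₂ γ hγ), good _ _ _ (one_mem _) _ hγ _,
      fun p => symm_y2 _ _ _ _ _ p⟩
  · intro g hg
    exact ⟨symm hg 1 1 one₁ one₂, good hg _ _ (one_mem _) _ (one_mem _) _,
      fun p => symm_z _ _ _ _ _ p⟩
  · intro ψ h1 h2 x x' hz
    exact conn_main htr ψ h1 h2 x x' hz

end Pool.Agent.Work.MP_a42ba1_al
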