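import Mathlib
import Pool.Agent.Work.MP_a42ba1_al.Conc

set_option autoImplicit false

namespace Pool.Agent.Work.MP_a42ba1_al

open Equiv

theorem HasPowRep.of_iso {F F' : Type} [LE F] [LE F'] (e : F ≃o F') (h : HasPowRep F') :
    HasPowRep F := by
  obtain ⟨M, hM, hM', R, h1, h2, h3⟩ := h
  have haut : ∀ g, g ∈ autR (fun f => R (e f)) ↔ g ∈ autR R := by
    intro g
    constructor
    · intro hg f m m'
      have := hg (e.symm f) m m'
      change (R (e (e.symm f))).r m m' ↔ (R (e (e.symm f))).r (g m) (g m') at this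
      rw [e.apply_symm_apply] at this
      exact this
    · intro hg f m m'
      exact hg (e f) m m'
  refine ⟨M, hM, hM', fun f => R (e f), ?_, ?_, ?_⟩
  · intro f f'
    rw [← e.le_iff_le, h1]
  · intro m m'
    obtain ⟨g, hg, hgm⟩ := h2 m m'
    exact ⟨g, (haut g).mpr hg, hgm⟩
  · intro N _ _ ρ hρ1 hρ2
    obtain ⟨f, hf⟩ := h3 N ρ (fun g hg => hρ1 g (fun k => (haut _).mpr (hg k))) hρ2
    refine ⟨e.symm f, fun z z' => ?_⟩
    rw [hf]
    show _ ↔ ∀ k, (R (e (e.symm f))).r (z k) (z' k)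
    rw [e.apply_symm_apply]

theorem HasPowRep.perm {F : Type} [PartialOrder F] (h : HasPowRep F) :
    ∃ (M : Type) (_ : Finite M) (_ : Nonempty M) (Γ : Subgroup (Perm M)),
      Nonempty (F ≃o PCon M Γ) := by
  obtain ⟨M, hM, hM', R, h1, h2, h3⟩ := h
  refine ⟨M, hM, hM', autR R, ⟨?_⟩⟩
  refine RelIso.ofSurjective (OrderEmbedding.ofMapLEIff (fun f => (⟨R f, ?_⟩ : PCon M (autR R)))
    ?_) ?_
  · intro g hg x y hxy
    exact (hg f x y).mp hxy
  · intro f f'
    exact (h1 f f').symm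
  · intro ρ
    let ρ' : Setoid (Unit → M) := Setoid.comap (fun z => z ()) ρ.1
    obtain ⟨f, hf⟩ := h3 Unit ρ'
      (fun g hg z z' hz => ρ.2 (g ()) (hg ()) _ _ hz)
      (fun σ z z' hz => by
        have : σ () = () := rfl
        exact hz)
    refine ⟨f, ?_⟩
    apply Subtype.ext
    apply Setoid.ext
    intro x y
    have := hf (fun _ => x) (fun _ => y)
    constructor
    · intro hxy
      exact this.mpr (fun _ => hxy)
    · intro hxy
      exact this.mp hxy ()

/-- Being isomorphic to the lattice of invariant partitions of a finite permutation group. -/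
def IsPerm (F : Type) [LE F] : Prop :=
  ∃ (M : Type) (_ : Finite M) (_ : Nonempty M) (Γ : Subgroup (Perm M)), Nonempty (F ≃o PCon M Γ)

theorem hasPowRep_of_isPerm {F : Type} [LE F] (h : IsPerm F) : HasPowRep F := by
  obtain ⟨Y, hY, hY', Γ, ⟨e⟩⟩ := h
  obtain ⟨M, hM, hM', Δ, ⟨e'⟩⟩ := (kurz Y Γ).perm
  have h2 := kurz M Δ
  exact HasPowRep.of_iso ((e.trans (OrderIso.dualDual _)).trans e'.dual) h2

section pattern

variable {L : Type} [Lattice L] [Finite L] {a b : L} {M : Type} (R : TopP a b → Setoid M)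
  {c d : L} {Y : Type} {Γ : Subgroup (Perm Y)} (e : Side c d ≃o PCon Y Γ)

/-- Contractions. -/
def Lip : Type := {h : Y → M // ∀ (f : TopP a b) y y',
  (∃ u : Side c d, u.1 ≤ f.1 ∧ (e u).1.r y y') → (R f).r (h y) (h y')}

instance [Finite Y] [Finite M] : Finite (Lip R e) := by unfold Lip; infer_instance

instance [Nonempty M] : Nonempty (Lip R e) := by
  obtain ⟨m⟩ := (inferInstance : Nonempty M)
  exact ⟨⟨fun _ => m, fun f _ _ _ => (R f).refl' m⟩⟩

omit [Finite L] in
theorem exists_principal (y y' : Y) : ∃ u : Side c d, (e u).1.r y y' ∧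
    ∀ w : Side c d, (e w).1.r y y' → u ≤ w := by
  let P : PCon Y Γ := ⟨
    { r := fun p q => ∀ E : PCon Y Γ, E.1.r y y' → E.1.r p q
      iseqv := ⟨fun p E _ => E.1.refl' p, fun h E hE => E.1.symm' (h E hE),
        fun h h' E hE => E.1.trans' (h E hE) (h' E hE)⟩ }, by
    intro g hg p q h E hE
    exact E.2 g hg _ _ (h E hE)⟩
  refine ⟨e.symm P, ?_, ?_⟩
  · rw [e.apply_symm_apply]
    intro E hE
    exact hE
  · intro w hw
    rw [← e.le_iff_le, e.apply_symm_apply]
    intro p q h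
    exact h (e w) hw

theorem exists_lip [Nonempty M] (hR : ∀ f f', f ≤ f' ↔ R f ≤ R f') (hcd : c ⊔ d = a ⊔ b)
    (hd : ∀ x y, d ≤ x ⊔ y → d ≤ x ∨ d ≤ y)
    {D : Type} [DistribLattice D] [Finite D] (α : L → D) (β : D → L)
    (hα : ∀ x y, c ≤ x → ¬ d ≤ x → c ≤ y → ¬ d ≤ y → α (x ⊔ y) = α x ⊔ α y)
    (hβ : ∀ s t, β (s ⊔ t) = β s ⊔ β t)
    (hαβ : ∀ x, c ≤ x → ¬ d ≤ x → β (α x) = x ⊔ d)
    (f : TopP a b) (y y' : Y) (hf : ∀ h : Lip R e, (R f).r (h.1 y) (h.1 y')) :
    ∃ u : Side c d, u.1 ≤ f.1 ∧ (e u).1.r y y' := by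
  classical
  obtain ⟨u, hu1, hu2⟩ := exists_principal e y y'
  refine ⟨u, ?_, hu1⟩
  have hff : c ⊔ d ≤ f.1 := le_of_eq_of_le hcd f.2
  have hcf : c ≤ f.1 := le_sup_left.trans hff
  have hdf : d ≤ f.1 := le_sup_right.trans hff
  have hmonoα : ∀ x y : Side c d, x ≤ y → α x.1 ≤ α y.1 := by
    intro x y hxy
    have := hα x.1 y.1 x.2.1 x.2.2 y.2.1 y.2.2
    rw [sup_eq_right.mpr hxy] at this
    rw [this]
    exact le_sup_left
  have hmonoβ : ∀ s t, s ≤ t → β s ≤ β t := by
    intro s t hst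
    have := hβ s t
    rw [sup_eq_right.mpr hst] at this
    rw [this]
    exact le_sup_left
  have hnd : ¬ d ≤ c := fun h => u.2.2 (h.trans u.2.1)
  let c' : Side c d := ⟨c, le_rfl, hnd⟩
  have key : ∀ j : D, SupIrred j → j ≤ α u.1 → β j ≤ f.1 := by
    intro j hj hju
    by_contra hjf
    have hprime : ∀ s t : D, j ≤ s ⊔ t → j ≤ s ∨ j ≤ t := fun s t h => hj.supPrime.2 h
    have hjc : ¬ j ≤ α c := by
      intro h
      apply hjf
      refine (hmonoβ _ _ h).trans ?_
      rw [hαβ c le_rfl hnd]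
      exact hff
    have hfin : {k : Side c d | ¬ j ≤ α k.1}.Finite := Set.toFinite _
    obtain ⟨k, hk⟩ := hfin.exists_maximal ⟨c', hjc⟩
    have hk1 : ¬ j ≤ α k.1 := hk.1
    have hk2 : ∀ v : Side c d, ¬ j ≤ α v.1 → v ≤ k := by
      intro v hv
      let w : Side c d := ⟨k.1 ⊔ v.1, k.2.1.trans le_sup_left, fun h => by
        rcases hd _ _ h with h | h
        · exact k.2.2 h
        · exact v.2.2 h⟩
      have hw : ¬ j ≤ α w.1 := by
        intro h
        have h' : j ≤ α k.1 ⊔ α v.1 := by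
          rw [← hα k.1 v.1 k.2.1 k.2.2 v.2.1 v.2.2]
          exact h
        rcases hprime _ _ h' with h | h
        · exact hk1 h
        · exact hv h
      have h1 : k ≤ w := show k.1 ≤ k.1 ⊔ v.1 from le_sup_left
      have h2 : w ≤ k := hk.2 hw h1
      exact le_trans (show v ≤ w from (le_sup_right : v.1 ≤ k.1 ⊔ v.1)) h2
    have huk : ¬ (e k).1.r y y' := by
      intro h
      exact hk1 (hju.trans (hmonoα _ _ (hu2 k h)))
    let t : TopP a b := ⟨β j ⊔ (a ⊔ b), le_sup_right⟩
    have htf : ¬ t ≤ f := by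
      intro h
      exact hjf (le_sup_left.trans h)
    rw [hR] at htf
    have : ∃ m m', (R t).r m m' ∧ ¬ (R f).r m m' := by
      by_contra hcon
      push Not at hcon
      exact htf (fun m m' h => hcon m m' h)
    obtain ⟨m, m', hm1, hm2⟩ := this
    let h : Y → M := fun w => if (e k).1.r y' w then m' else m
    have hlip : ∀ (f' : TopP a b) w w', (∃ v : Side c d, v.1 ≤ f'.1 ∧ (e v).1.r w w') →
        (R f').r (h w) (h w') := by
      rintro f' w w' ⟨v, hv, hvw⟩
      by_cases hkw : (e k).1.r w w'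
      · have : (e k).1.r y' w ↔ (e k).1.r y' w' :=
          ⟨fun h => (e k).1.trans' h hkw, fun h => (e k).1.trans' h ((e k).1.symm' hkw)⟩
        simp only [h, this]
        exact (R f').refl' _
      · have hjv : j ≤ α v.1 := by
          by_contra hn
          exact hkw ((e.monotone (hk2 v hn)) hvw)
        have htf' : t ≤ f' := by
          show β j ⊔ (a ⊔ b) ≤ f'.1
          refine sup_le ?_ f'.2
          refine (hmonoβ _ _ hjv).trans ?_
          rw [hαβ v.1 v.2.1 v.2.2]
          exact sup_le hv (le_sup_right.trans (le_of_eq_of_le hcd f'.2))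
        have hmm : (R f').r m m' := ((hR t f').mp htf') hm1
        by_cases h1 : (e k).1.r y' w
        · by_cases h2 : (e k).1.r y' w'
          · simp only [h, if_pos h1, if_pos h2]
            exact (R f').refl' _
          · simp only [h, if_pos h1, if_neg h2]
            exact (R f').symm' hmm
        · by_cases h2 : (e k).1.r y' w'
          · simp only [h, if_neg h1, if_pos h2]
            exact hmm
          · simp only [h, if_neg h1, if_neg h2]
            exact (R f').refl' _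
    have hfin := hf ⟨h, hlip⟩
    have e1 : h y = m := by
      simp only [h]
      rw [if_neg]
      intro hh
      exact huk ((e k).1.symm' hh)
    have e2 : h y' = m' := by
      simp only [h]
      rw [if_pos]
      exact (e k).1.refl' _
    change (R f).r (h y) (h y') at hfin
    rw [e1, e2] at hfin
    exact hm2 hfin
  -- write α u as a join of sup-irreducibles
  have : Nonempty D := ⟨α u.1⟩
  have : Fintype D := Fintype.ofFinite D
  let _ : OrderBot D := Fintype.toOrderBot D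
  have hgoal : β (α u.1) ≤ f.1 := by
    obtain ⟨s, hs, hs2⟩ := exists_supIrred_decomposition (α u.1)
    by_cases hse : s = ∅
    · subst hse
      have h0 : α u.1 = ⊥ := by rw [← hs]; rfl
      have h1 : α c = ⊥ := le_bot_iff.mp (h0 ▸ hmonoα c' u u.2.1)
      rw [h0, ← h1, hαβ c le_rfl hnd]
      exact hff
    · have hne : s.Nonempty := Finset.nonempty_iff_ne_empty.mpr hse
      have hs' : s.sup' hne id = α u.1 := by rw [Finset.sup'_eq_sup, hs]
      have hcomp : β (s.sup' hne id) = s.sup' hne (β ∘ id) :=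
        Finset.apply_sup'_eq_sup'_comp hne β hβ
      rw [← hs', hcomp]
      apply Finset.sup'_le
      intro j hj
      apply key j (hs2 hj)
      rw [← hs]
      exact Finset.le_sup (f := id) hj
  rw [hαβ u.1 u.2.1 u.2.2] at hgoal
  exact le_sup_left.trans hgoal

end pattern

/-- The join map from the side into the top part factors through a finite distributive lattice. -/
def Fac {L : Type} [Lattice L] (c d : L) : Prop :=
  ∃ (D : Type) (_ : DistribLattice D) (_ : Finite D) (α : L → D) (β : D → L),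
    (∀ x y, c ≤ x → ¬ d ≤ x → c ≤ y → ¬ d ≤ y → α (x ⊔ y) = α x ⊔ α y) ∧
    (∀ s t, β (s ⊔ t) = β s ⊔ β t) ∧
    (∀ x, c ≤ x → ¬ d ≤ x → β (α x) = x ⊔ d)

theorem glueMain {L : Type} [Lattice L] [Finite L] (a b : L) (hab : ¬ a ≤ b) (hba : ¬ b ≤ a)
    (hcov : ∀ x : L, (∀ y, x ≤ y) ∨ a ≤ x ∨ b ≤ x)
    (ha : ∀ x y, a ≤ x ⊔ y → a ≤ x ∨ a ≤ y) (hb : ∀ x y, b ≤ x ⊔ y → b ≤ x ∨ b ≤ y)
    (h₁ : IsPerm (Side a b)) (h₂ : IsPerm (Side b a)) (hF : IsPerm (TopP a b))
    (f₁ : Fac a b) (f₂ : Fac b a) : Representable L := by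
  classical
  obtain ⟨Y₁, _, _, Γ₁, ⟨e₁⟩⟩ := h₁
  obtain ⟨Y₂, _, _, Γ₂, ⟨e₂⟩⟩ := h₂
  obtain ⟨M, _, _, R, hR, htr, hfull⟩ := hasPowRep_of_isPerm hF
  obtain ⟨D₁, _, _, α₁, β₁, hα₁, hβ₁, hαβ₁⟩ := f₁
  obtain ⟨D₂, _, _, α₂, β₂, hα₂, hβ₂, hαβ₂⟩ := f₂
  obtain ⟨m₀⟩ := (inferInstance : Nonempty M)
  have : Nonempty M := ⟨m₀⟩
  let N : Type := Lip R e₁ ⊕ Lip R e₂
  let RN : TopP a b → Setoid (N → M) := fun f =>
    { r := fun z z' => ∀ k, (R f).r (z k) (z' k)
      iseqv := ⟨fun _ _ => (R f).refl' _, fun h k => (R f).symm' (h k),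
        fun h h' k => (R f).trans' (h k) (h' k)⟩ }
  have hcoord : ∀ g : N → Perm M, (∀ k, g k ∈ autR R) → Equiv.piCongrRight g ∈ autR RN := by
    intro g hg f z z'
    constructor
    · intro h k
      exact (hg k f _ _).mp (h k)
    · intro h k
      exact (hg k f _ _).mpr (h k)
  have hperm : ∀ σ : Perm N, (Equiv.arrowCongr σ (Equiv.refl M) : Perm (N → M)) ∈ autR RN := by
    intro σ f z z'
    constructor
    · intro h k
      exact h (σ.symm k)
    · intro h k
      have := h (σ k)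
      simpa using this
  let shift : ∀ {c d : L} {Y : Type} {Γ : Subgroup (Perm Y)} (e : Side c d ≃o PCon Y Γ)
    (γ : Perm Y) (_ : γ ∈ Γ), Lip R e → Lip R e := fun e γ hγ h =>
      ⟨fun y => h.1 (γ y), fun f y y' ⟨u, hu, hu'⟩ => h.2 f _ _ ⟨u, hu, (e u).2 γ hγ _ _ hu'⟩⟩
  let shiftE : ∀ {c d : L} {Y : Type} {Γ : Subgroup (Perm Y)} (e : Side c d ≃o PCon Y Γ)
    (γ : Perm Y) (_ : γ ∈ Γ), Perm (Lip R e) := fun e γ hγ =>
      { toFun := shift e γ hγ
        invFun := shift e γ⁻¹ (inv_mem hγ)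
        left_inv := by
          intro h
          apply Subtype.ext
          funext y
          show h.1 (γ (γ⁻¹ y)) = h.1 y
          simp
        right_inv := by
          intro h
          apply Subtype.ext
          funext y
          show h.1 (γ⁻¹ (γ y)) = h.1 y
          simp }
  let j₁ : Y₁ → (N → M) := fun y k => Sum.elim (fun h => h.1 y) (fun _ => m₀) k
  let j₂ : Y₂ → (N → M) := fun y k => Sum.elim (fun _ => m₀) (fun h => h.1 y) k
  refine glueConc a b hab hba hcov ha hb e₁ e₂ RN j₁ j₂ ?_ ?_ ?_ ?_ ?_ ?_ ?_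
  · intro f f'
    rw [hR]
    constructor
    · intro h z z' hz k
      exact h (hz k)
    · intro h m m' hm
      have h2 : (RN f').r (fun _ => m) (fun _ => m') :=
        h (show (RN f).r (fun _ => m) (fun _ => m') from fun _ => hm)
      obtain ⟨l⟩ := (inferInstance : Nonempty (Lip R e₁))
      exact h2 (Sum.inl l)
  · intro z z'
    choose g hg hgz using fun k => htr (z k) (z' k)
    exact ⟨Equiv.piCongrRight g, hcoord g hg, funext hgz⟩
  · intro ρ hρ
    apply hfull N ρ
    · intro g hg z z' hz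
      exact hρ _ (hcoord g hg) _ _ hz
    · intro σ z z' hz
      have := hρ _ (hperm σ.symm) _ _ hz
      exact this
  · intro f y y'
    constructor
    · intro h
      apply exists_lip R e₁ hR rfl hb α₁ β₁ hα₁ hβ₁ hαβ₁
      intro l
      exact h (Sum.inl l)
    · intro h k
      rcases k with k | k
      · exact k.2 f _ _ h
      · exact (R f).refl' _
  · intro f y y'
    constructor
    · intro h
      apply exists_lip R e₂ hR (sup_comm b a) ha α₂ β₂ hα₂ hβ₂ hαβ₂
      intro l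
      exact h (Sum.inr l)
    · intro h k
      rcases k with k | k
      · exact (R f).refl' _
      · exact k.2 f _ _ h
  · intro γ hγ
    refine ⟨_, hperm (Equiv.sumCongr (shiftE e₁ γ hγ).symm (Equiv.refl _)), ?_⟩
    intro y
    funext k
    rcases k with k | k
    · rfl
    · rfl
  · intro γ hγ
    refine ⟨_, hperm (Equiv.sumCongr (Equiv.refl _) (shiftE e₂ γ hγ).symm), ?_⟩
    intro y
    funext k
    rcases k with k | k
    · rfl
    · rfl

end Pool.Agent.Work.MP_a42ba1_al
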