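import Mathlib
import Pool.Agent.Work.MP_a42ba1_al.Pattern
import Pool.Agent.Work.MP_a42ba1_al.PPExt

set_option autoImplicit false

namespace Pool.Agent.Work.MP_a42ba1_al.PP

open Equiv

/-- Equivalence relations on `A` preserved by all maps of `M`. -/
def Inv {A : Type} (M : Set (A → A)) : Type :=
  {r : Setoid A // ∀ f ∈ M, ∀ a b, r a b → r (f a) (f b)}

theorem inv_sup {A : Type} {M : Set (A → A)} ⦃r s : Setoid A⦄
    (hr : ∀ f ∈ M, ∀ a b, r a b → r (f a) (f b)) (hs : ∀ f ∈ M, ∀ a b, s a b → s (f a) (f b)) :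
    ∀ f ∈ M, ∀ a b, (r ⊔ s) a b → (r ⊔ s) (f a) (f b) := by
  intro f hf a b hab
  have hle : r ⊔ s ≤ Setoid.comap f (r ⊔ s) := by
    refine sup_le ?_ ?_
    · intro a b h
      exact (le_sup_left : r ≤ r ⊔ s) (hr f hf a b h)
    · intro a b h
      exact (le_sup_right : s ≤ r ⊔ s) (hs f hf a b h)
  exact hle hab

theorem inv_inf {A : Type} {M : Set (A → A)} ⦃r s : Setoid A⦄
    (hr : ∀ f ∈ M, ∀ a b, r a b → r (f a) (f b)) (hs : ∀ f ∈ M, ∀ a b, s a b → s (f a) (f b)) :
    ∀ f ∈ M, ∀ a b, (r ⊓ s) a b → (r ⊓ s) (f a) (f b) := by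
  intro f hf a b hab
  exact ⟨hr f hf a b hab.1, hs f hf a b hab.2⟩

instance {A : Type} (M : Set (A → A)) : Lattice (Inv M) :=
  Subtype.lattice (fun _ _ h1 h2 => inv_sup h1 h2) (fun _ _ h1 h2 => inv_inf h1 h2)

instance {A : Type} (M : Set (A → A)) : BoundedOrder (Inv M) where
  top := ⟨⊤, fun _ _ _ _ _ => trivial⟩
  le_top := fun r => (le_top : r.1 ≤ ⊤)
  bot := ⟨⊥, fun f _ _ _ h => congrArg f h⟩
  bot_le := fun r => (bot_le : ⊥ ≤ r.1)

theorem inv_eq_top {A : Type} {M : Set (A → A)} {r : Inv M} : r = ⊤ ↔ ∀ a b, r.1 a b := by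
  constructor
  · rintro rfl a b
    trivial
  · intro h
    exact top_le_iff.mp (fun a b _ => h a b)

theorem iterate_mem {A : Type} {M : Set (A → A)} (hid : id ∈ M)
    (hcomp : ∀ f ∈ M, ∀ g ∈ M, f ∘ g ∈ M) {u : A → A} (hu : u ∈ M) (n : ℕ) : u^[n] ∈ M := by
  induction n with
  | zero => exact hid
  | succ n ih =>
    rw [Function.iterate_succ]
    exact hcomp _ ih _ hu

/-- The idempotent lemma of tame congruence theory. -/
theorem exists_idem {A : Type} [Finite A] (M : Set (A → A)) (hid : id ∈ M)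
    (hcomp : ∀ f ∈ M, ∀ g ∈ M, f ∘ g ∈ M) (y : Inv M) (hy : ∀ z, y < z → z = ⊤) (f : A → A)
    (hf : f ∈ M) (hnb : ¬ Function.Bijective f) (hfy : ¬ ∀ a b, y.1 (f a) (f b)) :
    ∃ e ∈ M, (∀ a, e (e a) = e a) ∧ e ≠ id ∧ ¬ ∀ a b, y.1 (e a) (e b) := by
  obtain ⟨h, ⟨hh, hhy⟩, hmin⟩ := WellFounded.has_min
    (InvImage.wf (fun h : A → A => (Set.range (f ∘ h)).ncard) Nat.lt_wfRel.wf)
    {h : A → A | h ∈ M ∧ ¬ ∀ a b, y.1 (f (h a)) (f (h b))} ⟨id, hid, hfy⟩
  have hF : f ∘ h ∈ M := hcomp f hf h hh
  -- the auxiliary relation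
  let θ : Inv M := ⟨{ r := fun a b => ∀ g ∈ M, y.1 ((f ∘ h) (g a)) ((f ∘ h) (g b))
                      iseqv := ⟨fun a g _ => y.1.refl' _, fun h g hg => y.1.symm' (h g hg),
                        fun h h' g hg => y.1.trans' (h g hg) (h' g hg)⟩ }, by
    intro k hk a b hab g hg
    exact hab (g ∘ k) (hcomp g hg k hk)⟩
  have hyθ : y ≤ θ := by
    intro a b hab g hg
    exact y.2 _ hF _ _ (y.2 g hg a b hab)
  have hθ : θ ≠ ⊤ := by
    intro h0
    rw [inv_eq_top] at h0
    exact hhy (fun a b => h0 a b id hid)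
  have hθy : θ = y := by
    by_contra hne
    exact hθ (hy θ (lt_of_le_of_ne hyθ (Ne.symm hne)))
  push Not at hhy
  obtain ⟨a, b, hab⟩ := hhy
  have h1 : ¬ θ.1 (f (h a)) (f (h b)) := by
    rw [hθy]
    exact hab
  have h2 : ∃ g ∈ M, ¬ y.1 (f (h (g (f (h a))))) (f (h (g (f (h b))))) := by
    by_contra hcon
    push Not at hcon
    exact h1 hcon
  obtain ⟨g, hg, hgy⟩ := h2
  have hh' : h ∘ g ∘ f ∘ h ∈ M := hcomp _ hh _ (hcomp _ hg _ hF)
  have hle := hmin (h ∘ g ∘ f ∘ h) ⟨hh', fun hall => hgy (hall a b)⟩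
  have hsub : Set.range (f ∘ h ∘ g ∘ f ∘ h) ⊆ Set.range (f ∘ h) := by
    rintro _ ⟨c, rfl⟩
    exact ⟨g (f (h c)), rfl⟩
  have heq : Set.range (f ∘ h ∘ g ∘ f ∘ h) = Set.range (f ∘ h) :=
    Set.eq_of_subset_of_ncard_le hsub (not_lt.mp hle)
  let R : Set A := Set.range (f ∘ h)
  let u : A → A := f ∘ h ∘ g
  have humem : u ∈ M := hcomp _ hf _ (hcomp _ hh _ hg)
  have hmaps : ∀ c : R, u c.1 ∈ R := fun c => ⟨g c.1, rfl⟩
  let v : R → R := fun c => ⟨u c.1, hmaps c⟩
  have hsurj : Function.Surjective v := by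
    rintro ⟨c, hc⟩
    have : c ∈ Set.range (f ∘ h ∘ g ∘ f ∘ h) := by
      rw [heq]
      exact hc
    obtain ⟨d, hd⟩ := this
    exact ⟨⟨f (h d), d, rfl⟩, Subtype.ext hd⟩
  have hbij : Function.Bijective v := hsurj.bijective_of_finite
  let σ : Perm R := Equiv.ofBijective v hbij
  have hord : 0 < orderOf σ := orderOf_pos σ
  have hpow : ∀ n : ℕ, ∀ c : R, ((σ ^ n) c).1 = u^[n] c.1 := by
    intro n
    induction n with
    | zero => intro c; rfl
    | succ n ih =>
      intro c
      rw [pow_succ, Function.iterate_succ, Function.comp_apply]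
      exact ih (σ c)
  have hfix : ∀ c ∈ R, u^[orderOf σ] c = c := by
    intro c hc
    rw [← hpow (orderOf σ) ⟨c, hc⟩, pow_orderOf_eq_one]
    rfl
  obtain ⟨n, hn⟩ := Nat.exists_eq_succ_of_ne_zero hord.ne'
  have hrange : ∀ c, u^[orderOf σ] c ∈ R := by
    intro c
    rw [hn, Nat.succ_eq_add_one, Function.iterate_succ', Function.comp_apply]
    exact ⟨g (u^[n] c), rfl⟩
  refine ⟨u^[orderOf σ], iterate_mem hid hcomp humem _, fun c => hfix _ (hrange c), ?_, ?_⟩
  · intro hidd
    apply hnb
    have : Function.Surjective f := by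
      intro c
      have hc := congrFun hidd c
      rw [hn, Nat.succ_eq_add_one, Function.iterate_succ', Function.comp_apply] at hc
      exact ⟨h (g (u^[n] c)), hc⟩
    exact this.bijective_of_finite
  · intro hall
    have := hall (f (h a)) (f (h b))
    have ha : u^[orderOf σ] (f (h a)) = f (h a) := hfix _ ⟨a, rfl⟩
    have hb : u^[orderOf σ] (f (h b)) = f (h b) := hfix _ ⟨b, rfl⟩
    rw [ha, hb] at this
    exact hab this

section restrict

variable {A : Type} (M : Set (A → A)) (e : A → A)

/-- The induced maps on the image of an idempotent. -/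
def MB : Set ({a // e a = a} → {a // e a = a}) := {g | ∃ f ∈ M, ∀ b, (g b).1 = e (f b.1)}

variable {M e} (hid : id ∈ M) (hcomp : ∀ f ∈ M, ∀ g ∈ M, f ∘ g ∈ M) (he : e ∈ M)
  (hee : ∀ a, e (e a) = e a)

/-- Restriction of invariant relations. -/
def res (hcomp : ∀ f ∈ M, ∀ g ∈ M, f ∘ g ∈ M) (he : e ∈ M) (r : Inv M) : Inv (MB M e) :=
  ⟨Setoid.comap Subtype.val r.1, by
    rintro g ⟨f, hf, hg⟩ a b hab
    show r.1 (g a).1 (g b).1
    rw [hg, hg]
    exact r.2 (e ∘ f) (hcomp e he f hf) _ _ hab⟩

/-- Extension of invariant relations. -/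
def ext (hcomp : ∀ f ∈ M, ∀ g ∈ M, f ∘ g ∈ M) (hee : ∀ a, e (e a) = e a) (s : Inv (MB M e)) :
    Inv M :=
  ⟨{ r := fun a b => ∀ f ∈ M, s.1 ⟨e (f a), hee _⟩ ⟨e (f b), hee _⟩
     iseqv := ⟨fun _ _ _ => s.1.refl' _, fun h f hf => s.1.symm' (h f hf),
       fun h h' f hf => s.1.trans' (h f hf) (h' f hf)⟩ }, by
    intro k hk a b hab f hf
    exact hab (f ∘ k) (hcomp f hf k hk)⟩

include hid in
theorem res_ext (s : Inv (MB M e)) : res hcomp he (ext hcomp hee s) = s := by
  apply Subtype.ext
  apply Setoid.ext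
  intro a b
  constructor
  · intro h
    have := h id hid
    have ha : (⟨e (id a.1), hee _⟩ : {a // e a = a}) = a := Subtype.ext a.2
    have hb : (⟨e (id b.1), hee _⟩ : {a // e a = a}) = b := Subtype.ext b.2
    rw [ha, hb] at this
    exact this
  · intro h f hf
    exact s.2 (fun c => ⟨e (f c.1), hee _⟩) ⟨f, hf, fun _ => rfl⟩ a b h

theorem res_inf (r s : Inv M) : res hcomp he (r ⊓ s) = res hcomp he r ⊓ res hcomp he s := rfl

theorem res_top : res hcomp he (⊤ : Inv M) = ⊤ := rfl

include hee in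
theorem res_sup (r s : Inv M) : res hcomp he (r ⊔ s) = res hcomp he r ⊔ res hcomp he s := by
  apply le_antisymm
  · have key : (r ⊔ s).1 ≤ Setoid.comap (fun a => (⟨e a, hee a⟩ : {a // e a = a}))
        (res hcomp he r ⊔ res hcomp he s).1 := by
      show r.1 ⊔ s.1 ≤ _
      refine sup_le ?_ ?_
      · intro a b h
        have h1 : (res hcomp he r).1 (⟨e a, hee a⟩ : {a // e a = a}) ⟨e b, hee b⟩ :=
          r.2 e he a b h
        exact (le_sup_left : (res hcomp he r).1 ≤ (res hcomp he r).1 ⊔ (res hcomp he s).1) h1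
      · intro a b h
        have h1 : (res hcomp he s).1 (⟨e a, hee a⟩ : {a // e a = a}) ⟨e b, hee b⟩ :=
          s.2 e he a b h
        exact (le_sup_right : (res hcomp he s).1 ≤ (res hcomp he r).1 ⊔ (res hcomp he s).1) h1
    intro a b h
    have h2 := key h
    have ha : (⟨e a.1, hee _⟩ : {a // e a = a}) = a := Subtype.ext a.2
    have hb : (⟨e b.1, hee _⟩ : {a // e a = a}) = b := Subtype.ext b.2
    have h3 : (res hcomp he r ⊔ res hcomp he s).1 (⟨e a.1, hee _⟩ : {a // e a = a})
      ⟨e b.1, hee _⟩ := h2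
    rw [ha, hb] at h3
    exact h3
  · refine sup_le ?_ ?_
    · intro a b h
      exact (le_sup_left : r.1 ≤ r.1 ⊔ s.1) h
    · intro a b h
      exact (le_sup_right : s.1 ≤ r.1 ⊔ s.1) h

end restrict

theorem reflect {A : Type} [Finite A] (f : A → A) (hf : Function.Bijective f) (r : Setoid A)
    (hr : ∀ a b, r a b → r (f a) (f b)) (a b : A) (h : r (f a) (f b)) : r a b := by
  let σ : Perm A := Equiv.ofBijective f hf
  have hpow : ∀ n : ℕ, ∀ c d : A, r c d → r ((σ ^ n) c) ((σ ^ n) d) := by
    intro n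
    induction n with
    | zero => intro c d h; exact h
    | succ n ih =>
      intro c d h
      rw [pow_succ]
      exact ih (σ c) (σ d) (hr c d h)
  have hord : 0 < orderOf σ := orderOf_pos σ
  obtain ⟨n, hn⟩ := Nat.exists_eq_succ_of_ne_zero hord.ne'
  have h1 := hpow n (σ a) (σ b) h
  have h2 : ∀ c, (σ ^ n) (σ c) = c := by
    intro c
    have := congrArg (fun τ : Perm A => τ c) (pow_orderOf_eq_one σ)
    rw [hn, Nat.succ_eq_add_one, pow_succ] at this
    exact this
  rwa [h2, h2] at h1

/-- The group case. -/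
theorem perm_case {A : Type} [Finite A] [Nonempty A] (M : Set (A → A)) (γ : Inv M)
    (hconst : ∀ f ∈ M, ¬ Function.Bijective f → ∀ a b, γ.1 (f a) (f b)) :
    IsPerm (Set.Ici γ) := by
  let X : Type := Quotient γ.1
  let R : Set.Ici γ → Setoid X := fun r => Setoid.comap Quotient.out r.1.1
  have hR : ∀ (r : Set.Ici γ) (a b : A), (R r) (Quotient.mk γ.1 a) (Quotient.mk γ.1 b) ↔
      r.1.1 a b := by
    intro r a b
    have ha : r.1.1 (Quotient.mk γ.1 a).out a := r.2 (Quotient.exact (Quotient.out_eq _))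
    have hb : r.1.1 (Quotient.mk γ.1 b).out b := r.2 (Quotient.exact (Quotient.out_eq _))
    constructor
    · intro h
      exact r.1.1.trans' (r.1.1.symm' ha) (r.1.1.trans' h hb)
    · intro h
      exact r.1.1.trans' ha (r.1.1.trans' h (r.1.1.symm' hb))
  have hXne : Nonempty X := by
    obtain ⟨a⟩ := (inferInstance : Nonempty A)
    exact ⟨Quotient.mk γ.1 a⟩
  refine ⟨X, inferInstance, hXne, autR R, ⟨?_⟩⟩
  let F : Set.Ici γ → PCon X (autR R) := fun r => ⟨R r, fun g hg m m' h => (hg r m m').mp h⟩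
  have hF : ∀ r s, F r ≤ F s ↔ r ≤ s := by
    intro r s
    constructor
    · intro h a b hab
      exact (hR s a b).mp (h ((hR r a b).mpr hab))
    · intro h x y hxy
      exact h hxy
  have hsurj : Function.Surjective F := by
    intro s
    have hinv : ∀ f ∈ M, ∀ a b, (Setoid.comap (Quotient.mk γ.1) s.1) a b →
        (Setoid.comap (Quotient.mk γ.1) s.1) (f a) (f b) := by
      intro f hf a b hab
      by_cases hfb : Function.Bijective f
      · -- the induced permutation
        let g : X → X := Quotient.map f (fun a b h => γ.2 f hf a b h)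
        have hgs : Function.Surjective g := by
          intro x
          induction x using Quotient.inductionOn with
          | _ c =>
            obtain ⟨d, rfl⟩ := hfb.2 c
            exact ⟨Quotient.mk γ.1 d, rfl⟩
        let σ : Perm X := Equiv.ofBijective g hgs.bijective_of_finite
        have hσ : σ ∈ autR R := by
          intro r m m'
          induction m using Quotient.inductionOn with
          | _ c =>
            induction m' using Quotient.inductionOn with
            | _ d =>
              show (R r) (Quotient.mk γ.1 c) (Quotient.mk γ.1 d) ↔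
                (R r) (Quotient.mk γ.1 (f c)) (Quotient.mk γ.1 (f d))
              rw [hR, hR]
              exact ⟨r.1.2 f hf c d, reflect f hfb r.1.1 (r.1.2 f hf) c d⟩
        exact s.2 σ hσ _ _ hab
      · show s.1 (Quotient.mk γ.1 (f a)) (Quotient.mk γ.1 (f b))
        rw [Quotient.sound (hconst f hf hfb a b)]
    refine ⟨⟨⟨Setoid.comap (Quotient.mk γ.1) s.1, hinv⟩, ?_⟩, ?_⟩
    · intro a b h
      show s.1 (Quotient.mk γ.1 a) (Quotient.mk γ.1 b)
      rw [Quotient.sound h]
    · apply Subtype.ext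
      apply Setoid.ext
      intro x y
      show s.1 (Quotient.mk γ.1 x.out) (Quotient.mk γ.1 y.out) ↔ _
      rw [Quotient.out_eq, Quotient.out_eq]
  exact
    { toEquiv := Equiv.ofBijective F ⟨fun r s h => le_antisymm ((hF r s).mp h.le)
        ((hF s r).mp h.ge), hsurj⟩
      map_rel_iff' := fun {r s} => hF r s }

/-- Tied filters of congruence lattices of finite algebras come from permutation groups. -/
theorem perm_of_tied (n : ℕ) : ∀ (A : Type) [Finite A] [Nonempty A], Nat.card A ≤ n →
    ∀ (M : Set (A → A)), id ∈ M → (∀ f ∈ M, ∀ g ∈ M, f ∘ g ∈ M) → ∀ (γ x y : Inv M),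
    (∀ z, x < z → z = ⊤) → (∀ z, y < z → z = ⊤) → x ⊓ y ≤ γ →
    (∀ r : Inv M → Inv M → Prop, IsLC r → ∀ a b, γ ≤ a → γ ≤ b → a ≠ b → r a b →
      r x ⊤ ∧ r y ⊤) →
    IsPerm (Set.Ici γ) := by
  induction n with
  | zero =>
    intro A _ _ hc
    have := Nat.card_pos (α := A)
    omega
  | succ n ih =>
    intro A _ _ hc M hid hcomp γ x y hx hy hxy htied
    by_cases hcase : ∃ e ∈ M, ∃ (hee : ∀ a, e (e a) = e a) (hne : e ≠ id) (he : e ∈ M),
        ∀ a b, γ ≤ a → γ ≤ b → res hcomp he a = res hcomp he b → a = b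
    · obtain ⟨e, -, hee, hne, he, hinj⟩ := hcase
      have hcard : Nat.card {a // e a = a} < Nat.card A := by
        obtain ⟨a, ha⟩ : ∃ a, e a ≠ a := by
          by_contra hcon
          push Not at hcon
          exact hne (funext hcon)
        exact Finite.card_subtype_lt (x := a) ha
      have : Nonempty {a // e a = a} := by
        obtain ⟨a⟩ := (inferInstance : Nonempty A)
        exact ⟨⟨e a, hee a⟩⟩
      have hcov : ∀ x : Inv M, (∀ z, x < z → z = ⊤) → ∀ z, res hcomp he x < z → z = ⊤ := by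
        intro x hx z hz
        have h1 : res hcomp he (ext hcomp hee z) = z := res_ext hid hcomp he hee z
        have h2 : res hcomp he (x ⊔ ext hcomp hee z) = z := by
          rw [res_sup hcomp he hee, h1]
          exact sup_eq_right.mpr hz.le
        have h3 : x < x ⊔ ext hcomp hee z := by
          refine lt_of_le_of_ne le_sup_left (fun h => ?_)
          rw [← h] at h2
          exact hz.ne h2
        rw [← h2, hx _ h3]
        rfl
      have hmono : ∀ a b : Inv M, a ≤ b → res hcomp he a ≤ res hcomp he b :=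
        fun a b h p q hpq => h hpq
      have hperm := ih {a // e a = a} (by omega) (MB M e) ⟨id, hid, fun b => b.2.symm⟩ (by
          rintro f ⟨f', hf', hf⟩ g ⟨g', hg', hg⟩
          refine ⟨f' ∘ e ∘ g', hcomp _ hf' _ (hcomp _ he _ hg'), fun b => ?_⟩
          show (f (g b)).1 = e (f' (e (g' b.1)))
          rw [hf, hg]) (res hcomp he γ) (res hcomp he x) (res hcomp he y) (hcov x hx) (hcov y hy)
        (by
          rw [← res_inf]
          exact hmono _ _ hxy) (by
          intro r hr a b ha hb hab hrab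
          have ha' : res hcomp he (γ ⊔ ext hcomp hee a) = a := by
            rw [res_sup hcomp he hee, res_ext hid hcomp he hee]
            exact sup_eq_right.mpr ha
          have hb' : res hcomp he (γ ⊔ ext hcomp hee b) = b := by
            rw [res_sup hcomp he hee, res_ext hid hcomp he hee]
            exact sup_eq_right.mpr hb
          refine htied (fun u v => r (res hcomp he u) (res hcomp he v))
            ⟨⟨fun _ => hr.1.refl _, fun h => hr.1.symm h, fun h h' => hr.1.trans h h'⟩, ?_, ?_⟩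
            (γ ⊔ ext hcomp hee a) (γ ⊔ ext hcomp hee b) le_sup_left le_sup_left ?_ ?_
          · intro u v w h
            show r (res hcomp he (u ⊔ w)) (res hcomp he (v ⊔ w))
            rw [res_sup hcomp he hee, res_sup hcomp he hee]
            exact hr.2.1 _ _ _ h
          · intro u v w h
            exact hr.2.2 _ _ (res hcomp he w) h
          · intro h
            apply hab
            rw [← ha', ← hb', h]
          · show r _ _
            rw [ha', hb']
            exact hrab)
      obtain ⟨X, i1, i2, Γ, ⟨E⟩⟩ := hperm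
      let F : Set.Ici γ → Set.Ici (res hcomp he γ) := fun r => ⟨res hcomp he r.1, hmono _ _ r.2⟩
      have hF : ∀ r s, F r ≤ F s ↔ r ≤ s := by
        intro r s
        constructor
        · intro h
          have h1 : res hcomp he (r.1 ⊓ s.1) = res hcomp he r.1 := by
            rw [res_inf]
            exact inf_eq_left.mpr h
          have h2 := hinj (r.1 ⊓ s.1) r.1 (le_inf r.2 s.2) r.2 h1
          show r.1 ≤ s.1
          exact inf_eq_left.mp h2
        · intro h
          exact hmono _ _ h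
      have hsurj : Function.Surjective F := by
        intro s
        refine ⟨⟨γ ⊔ ext hcomp hee s.1, (le_sup_left : γ ≤ γ ⊔ ext hcomp hee s.1)⟩,
          Subtype.ext ?_⟩
        show res hcomp he (γ ⊔ ext hcomp hee s.1) = s.1
        rw [res_sup hcomp he hee, res_ext hid hcomp he hee]
        exact sup_eq_right.mpr s.2
      let E' : Set.Ici γ ≃o Set.Ici (res hcomp he γ) :=
        { toEquiv := Equiv.ofBijective F ⟨fun r s h => le_antisymm ((hF r s).mp h.le)
            ((hF s r).mp h.ge), hsurj⟩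
          map_rel_iff' := fun {r s} => hF r s }
      exact ⟨X, i1, i2, Γ, ⟨E'.trans E⟩⟩
    · -- every nonidentity idempotent collapses into `x` and `y`
      have hcol : ∀ e ∈ M, (∀ a, e (e a) = e a) → e ≠ id →
          (∀ a b, x.1 (e a) (e b)) ∧ (∀ a b, y.1 (e a) (e b)) := by
        intro e he hee hne
        have h1 : ¬ ∀ a b, γ ≤ a → γ ≤ b → res hcomp he a = res hcomp he b → a = b := by
          intro h
          exact hcase ⟨e, he, hee, hne, he, h⟩
        push Not at h1
        obtain ⟨a, b, ha, hb, hab, hne'⟩ := h1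
        have h2 := htied (fun u v => res hcomp he u = res hcomp he v)
          ⟨⟨fun _ => rfl, fun h => h.symm, fun h h' => h.trans h'⟩, by
            intro u v w h
            show res hcomp he (u ⊔ w) = res hcomp he (v ⊔ w)
            rw [res_sup hcomp he hee, res_sup hcomp he hee, show res hcomp he u = res hcomp he v
              from h], by
            intro u v w h
            show res hcomp he (u ⊓ w) = res hcomp he (v ⊓ w)
            rw [res_inf, res_inf, show res hcomp he u = res hcomp he v from h]⟩ a b ha hb hne' hab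
        have h3 : ∀ z : Inv M, res hcomp he z = res hcomp he ⊤ → ∀ a b, z.1 (e a) (e b) := by
          intro z hz a b
          have : (res hcomp he z).1 (⟨e a, hee a⟩ : {a // e a = a}) ⟨e b, hee b⟩ := by
            rw [hz]
            trivial
          exact this
        exact ⟨h3 x h2.1, h3 y h2.2⟩
      apply perm_case M γ
      intro f hf hnb a b
      apply hxy
      have hz : ∀ z : Inv M, (∀ w, z < w → w = ⊤) →
          (∀ e ∈ M, (∀ a, e (e a) = e a) → e ≠ id → ∀ a b, z.1 (e a) (e b)) →
          z.1 (f a) (f b) := by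
        intro z hz hze
        by_contra hcon
        obtain ⟨e, he, hee, hne, hey⟩ := exists_idem M hid hcomp z hz f hf hnb
          (fun h => hcon (h a b))
        exact hey (hze e he hee hne)
      exact ⟨hz x hx (fun e he hee hne => (hcol e he hee hne).1),
        hz y hy (fun e he hee hne => (hcol e he hee hne).2)⟩

end Pool.Agent.Work.MP_a42ba1_al.PP
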