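import Mathlib
import Pool.Agent.Work.MP_a42ba1_al.PPCon

set_option autoImplicit false

namespace Pool.Agent.Work.MP_a42ba1_al.PP

open Equiv

/-- An order isomorphism from a surjective order embedding. -/
noncomputable def isoOf {P Q : Type} [PartialOrder P] [PartialOrder Q] (C : P → Q)
    (hC : ∀ a b, C a ≤ C b ↔ a ≤ b) (hs : Function.Surjective C) : P ≃o Q :=
  { toEquiv := Equiv.ofBijective C ⟨fun r s h => le_antisymm ((hC r s).mp h.le)
      ((hC s r).mp h.ge), hs⟩
    map_rel_iff' := fun {r s} => hC r s }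

/-- Intervals in the subgroup lattices of finite groups. -/
def IsSubInterval (F : Type) [LE F] : Prop :=
  ∃ (G : Type) (_ : Group G) (_ : Finite G) (H K : Subgroup G), H ≤ K ∧
    Nonempty (F ≃o Set.Icc H K)

section icc

variable {Γ Ω : Type} [Group Γ] [MulAction Γ Ω]

/-- The subgroup of all `g` with `x ~ g x`. -/
def grp (x : Ω) (r : Setoid Ω) (hr : ∀ (g : Γ) (a b : Ω), r a b → r (g • a) (g • b)) :
    Subgroup Γ where
  carrier := {g | r x (g • x)}
  one_mem' := by
    show r x ((1 : Γ) • x)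
    rw [one_smul]
  mul_mem' := by
    intro g h hg hh
    show r x ((g * h) • x)
    rw [mul_smul]
    exact r.trans' hg (hr g _ _ hh)
  inv_mem' := by
    intro g hg
    show r x (g⁻¹ • x)
    have := hr g⁻¹ _ _ hg
    rw [inv_smul_smul] at this
    exact r.symm' this

theorem mem_grp (x : Ω) (r : Setoid Ω) (hr : ∀ (g : Γ) (a b : Ω), r a b → r (g • a) (g • b))
    (g : Γ) : g ∈ grp x r hr ↔ r x (g • x) := Iff.rfl

/-- The relation of a subgroup above the stabilizer. -/
def rel (x : Ω) (H : Subgroup Γ) (hH : MulAction.stabilizer Γ x ≤ H) : Setoid Ω where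
  r a b := a = b ∨ ∃ g h : Γ, g • x = a ∧ h • x = b ∧ g⁻¹ * h ∈ H
  iseqv := by
    refine ⟨fun a => Or.inl rfl, ?_, ?_⟩
    · rintro a b (rfl | ⟨g, h, h1, h2, h3⟩)
      · exact Or.inl rfl
      · refine Or.inr ⟨h, g, h2, h1, ?_⟩
        have := H.inv_mem h3
        rwa [mul_inv_rev, inv_inv] at this
    · rintro a b c (rfl | ⟨g, h, h1, h2, h3⟩) (rfl | ⟨g', h', h1', h2', h3'⟩)
      · exact Or.inl rfl
      · exact Or.inr ⟨g', h', h1', h2', h3'⟩
      · exact Or.inr ⟨g, h, h1, h2, h3⟩
      · refine Or.inr ⟨g, h', h1, h2', ?_⟩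
        have h4 : h⁻¹ * g' ∈ H := by
          apply hH
          rw [MulAction.mem_stabilizer_iff, mul_smul, h1', ← h2, inv_smul_smul]
        have h5 := H.mul_mem (H.mul_mem h3 h4) h3'
        have h6 : g⁻¹ * h * (h⁻¹ * g') * (g'⁻¹ * h') = g⁻¹ * h' := by group
        rwa [h6] at h5

theorem rel_inv (x : Ω) (H : Subgroup Γ) (hH : MulAction.stabilizer Γ x ≤ H) (k : Γ) (a b : Ω)
    (h : rel x H hH a b) : rel x H hH (k • a) (k • b) := by
  rcases h with rfl | ⟨g, h, h1, h2, h3⟩
  · exact Or.inl rfl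
  · refine Or.inr ⟨k * g, k * h, ?_, ?_, ?_⟩
    · rw [mul_smul, h1]
    · rw [mul_smul, h2]
    · have : (k * g)⁻¹ * (k * h) = g⁻¹ * h := by group
      rwa [this]

/-- Invariant equivalence relations below `t` are an interval in the subgroup lattice. -/
theorem icc_iso (x : Ω) (t : Setoid Ω) (ht : ∀ (g : Γ) (a b : Ω), t a b → t (g • a) (g • b))
    (hx : ∀ a b, t a b → a = b ∨ ∃ g h : Γ, g • x = a ∧ h • x = b) :
    Nonempty ({r : Setoid Ω // (∀ (g : Γ) (a b : Ω), r a b → r (g • a) (g • b)) ∧ r ≤ t} ≃o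
      Set.Icc (MulAction.stabilizer Γ x) (grp x t ht)) := by
  have hst : ∀ (r : Setoid Ω) (hr : ∀ (g : Γ) (a b : Ω), r a b → r (g • a) (g • b)),
      MulAction.stabilizer Γ x ≤ grp x r hr := by
    intro r hr g hg
    rw [mem_grp, MulAction.mem_stabilizer_iff.mp hg]
  let F : {r : Setoid Ω // (∀ (g : Γ) (a b : Ω), r a b → r (g • a) (g • b)) ∧ r ≤ t} →
      Set.Icc (MulAction.stabilizer Γ x) (grp x t ht) :=
    fun r => ⟨grp x r.1 r.2.1, hst _ _, fun g hg => r.2.2 hg⟩
  have hF : ∀ r s, F r ≤ F s ↔ r ≤ s := by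
    intro r s
    constructor
    · intro h a b hab
      rcases hx a b (r.2.2 hab) with rfl | ⟨g, h', rfl, rfl⟩
      · exact s.1.refl' a
      · have h1 : g⁻¹ * h' ∈ grp x r.1 r.2.1 := by
          rw [mem_grp, mul_smul]
          have := r.2.1 g⁻¹ _ _ hab
          rwa [inv_smul_smul] at this
        have h2 : g⁻¹ * h' ∈ grp x s.1 s.2.1 := h h1
        rw [mem_grp, mul_smul] at h2
        have := s.2.1 g _ _ h2
        rwa [smul_inv_smul] at this
    · intro h g hg
      exact h hg
  have hsurj : Function.Surjective F := by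
    rintro ⟨H, h1, h2⟩
    refine ⟨⟨rel x H h1, rel_inv x H h1, ?_⟩, ?_⟩
    · rintro a b (rfl | ⟨g, h, rfl, rfl, h3⟩)
      · exact t.refl' a
      · have := h2 h3
        rw [mem_grp, mul_smul] at this
        have := ht g _ _ this
        rwa [smul_inv_smul] at this
    · apply Subtype.ext
      ext g
      show rel x H h1 x (g • x) ↔ g ∈ H
      constructor
      · rintro (h | ⟨k, h, h3, h4, h5⟩)
        · exact h1 (MulAction.mem_stabilizer_iff.mpr h.symm)
        · have e1 : k ∈ H := h1 (MulAction.mem_stabilizer_iff.mpr h3)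
          have e2 : h⁻¹ * g ∈ H := by
            apply h1
            rw [MulAction.mem_stabilizer_iff, mul_smul, ← h4, inv_smul_smul]
          have := H.mul_mem (H.mul_mem e1 h5) e2
          have e3 : k * (k⁻¹ * h) * (h⁻¹ * g) = g := by group
          rwa [e3] at this
      · intro hg
        exact Or.inr ⟨1, g, one_smul _ _, rfl, by simpa using hg⟩
  exact ⟨{ toEquiv := Equiv.ofBijective F ⟨fun r s h => le_antisymm ((hF r s).mp h.le)
        ((hF s r).mp h.ge), hsurj⟩
           map_rel_iff' := fun {r s} => hF r s }⟩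

end icc

/-- Intervals in subgroup lattices are lattices of invariant partitions. -/
theorem action_of_interval {F : Type} [LE F] (h : IsSubInterval F) :
    ∃ (Γ Ω : Type) (_ : Group Γ) (_ : MulAction Γ Ω) (_ : Finite Ω) (_ : Nonempty Ω),
      Nonempty (F ≃o {r : Setoid Ω // ∀ (g : Γ) (a b : Ω), r a b → r (g • a) (g • b)}) := by
  obtain ⟨G, i1, i2, H, K, hHK, ⟨E⟩⟩ := h
  let Ω : Type := K ⧸ (H.subgroupOf K)
  let x : Ω := ((1 : K) : K ⧸ (H.subgroupOf K))
  have hstab : MulAction.stabilizer K x = H.subgroupOf K := MulAction.stabilizer_quotient _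
  obtain ⟨E2⟩ := icc_iso (Γ := K) x ⊤ (fun _ _ _ _ => trivial) (by
    intro a b _
    obtain ⟨g, hg⟩ := MulAction.exists_smul_eq K x a
    obtain ⟨h, hh⟩ := MulAction.exists_smul_eq K x b
    exact Or.inr ⟨g, h, hg, hh⟩)
  -- the correspondence
  let C : Set.Icc H K → Set.Icc (MulAction.stabilizer K x) (grp x (⊤ : Setoid Ω)
      (fun (_ : K) _ _ _ => trivial)) := fun J => ⟨J.1.subgroupOf K, by
        rw [hstab]
        intro k hk
        exact J.2.1 hk, fun _ _ => trivial⟩
  have hC : ∀ r s, C r ≤ C s ↔ r ≤ s := by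
    intro r s
    constructor
    · intro h g hg
      exact h (show (⟨g, r.2.2 hg⟩ : K) ∈ r.1.subgroupOf K from hg)
    · intro h g hg
      exact h hg
  have hsurj : Function.Surjective C := by
    rintro ⟨J, h1, h2⟩
    refine ⟨⟨J.map K.subtype, ?_, ?_⟩, ?_⟩
    · intro g hg
      refine ⟨⟨g, hHK hg⟩, h1 ?_, rfl⟩
      rw [hstab]
      exact hg
    · rintro _ ⟨k, _, rfl⟩
      exact k.2
    · apply Subtype.ext
      ext g
      show g.1 ∈ J.map K.subtype ↔ g ∈ J
      constructor
      · rintro ⟨k, hk, hkg⟩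
        have : k = g := Subtype.ext hkg
        rw [← this]
        exact hk
      · intro hg
        exact ⟨g, hg, rfl⟩
  let E3 : Set.Icc H K ≃o _ :=
    { toEquiv := Equiv.ofBijective C ⟨fun r s h => le_antisymm ((hC r s).mp h.le)
        ((hC s r).mp h.ge), hsurj⟩
      map_rel_iff' := fun {r s} => hC r s }
  let E4 : {r : Setoid Ω // (∀ (g : K) (a b : Ω), r a b → r (g • a) (g • b)) ∧ r ≤ ⊤} ≃o
      {r : Setoid Ω // ∀ (g : K) (a b : Ω), r a b → r (g • a) (g • b)} :=
    { toFun := fun r => ⟨r.1, r.2.1⟩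
      invFun := fun r => ⟨r.1, r.2, le_top⟩
      left_inv := fun r => rfl
      right_inv := fun r => rfl
      map_rel_iff' := Iff.rfl }
  have : Finite Ω := inferInstanceAs (Finite (K ⧸ (H.subgroupOf K)))
  exact ⟨K, Ω, inferInstance, inferInstance, this, ⟨x⟩, ⟨((E.trans E3).trans E2.symm).trans E4⟩⟩

/-- Intervals in subgroup lattices are congruence lattices. -/
theorem representable_of_interval {F : Type} [LE F] (h : IsSubInterval F) : Representable F := by
  obtain ⟨Γ, Ω, i1, i2, i3, i4, ⟨E⟩⟩ := action_of_interval h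
  let ops : Set (Ω → Ω) := {f | ∃ k : Γ, f = fun a => k • a}
  let E4 : {r : Setoid Ω // ∀ (g : Γ) (a b : Ω), r a b → r (g • a) (g • b)} ≃o UCon Ω ops :=
    { toFun := fun r => ⟨r.1, by
        rintro f ⟨k, rfl⟩ a b hab
        exact r.2 k a b hab⟩
      invFun := fun r => ⟨r.1, fun g a b hab => r.2 _ ⟨g, rfl⟩ a b hab⟩
      left_inv := fun r => rfl
      right_inv := fun r => rfl
      map_rel_iff' := Iff.rfl }
  exact representable_of_ucon ops (E.trans E4)

theorem isPerm_of_interval {F : Type} [LE F] (h : IsSubInterval F) : IsPerm F := by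
  obtain ⟨Γ, Ω, i1, i2, i3, i4, ⟨E⟩⟩ := action_of_interval h
  let E4 : {r : Setoid Ω // ∀ (g : Γ) (a b : Ω), r a b → r (g • a) (g • b)} ≃o
      PCon Ω (MulAction.toPermHom Γ Ω).range :=
    { toFun := fun r => ⟨r.1, by
        rintro _ ⟨k, rfl⟩ a b hab
        exact r.2 k a b hab⟩
      invFun := fun r => ⟨r.1, fun g a b hab => r.2 _ ⟨g, rfl⟩ a b hab⟩
      left_inv := fun r => rfl
      right_inv := fun r => rfl
      map_rel_iff' := Iff.rfl }
  exact ⟨Ω, i3, i4, _, ⟨E.trans E4⟩⟩

/-! ### Transitivity -/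

/-- If the lattice of invariant partitions has the form `[⊥, t]` followed by a chain of two
further elements, then `[⊥, t]` is an interval in a subgroup lattice. -/
theorem interval_of_two_tops {X : Type} [Finite X] (Γ : Subgroup (Perm X)) (t c : PCon X Γ)
    (hall : ∀ r : PCon X Γ, r ≤ t ∨ r = c ∨ ∀ a b, r.1 a b) (htc : t < c)
    (hc : ¬ ∀ a b, c.1 a b) : IsSubInterval (Set.Iic t) := by
  have hle : ∀ a b, t.1 a b → c.1 a b := fun a b h => htc.le h
  -- the orbit relation
  let orb : X → X → Prop := fun a b => ∃ g ∈ Γ, g a = b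
  have orb_refl : ∀ a, orb a a := fun a => ⟨1, Γ.one_mem, rfl⟩
  have orb_symm : ∀ {a b}, orb a b → orb b a := by
    rintro a b ⟨g, hg, rfl⟩
    exact ⟨g⁻¹, Γ.inv_mem hg, Equiv.symm_apply_apply g a⟩
  have orb_trans : ∀ {a b d}, orb a b → orb b d → orb a d := by
    rintro a b d ⟨g, hg, rfl⟩ ⟨h, hh, rfl⟩
    exact ⟨h * g, Γ.mul_mem hh hg, rfl⟩
  have orb_g : ∀ g ∈ Γ, ∀ a, orb a (g a) := fun g hg a => ⟨g, hg, rfl⟩
  -- it is enough to find a good base point
  suffices hbase : ∃ x, ∀ a b, t.1 a b → a = b ∨ (orb x a ∧ orb x b) by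
    obtain ⟨x, hx⟩ := hbase
    obtain ⟨E⟩ := icc_iso (Γ := Γ) x t.1 (fun g a b h => t.2 g.1 g.2 a b h) (by
      intro a b hab
      rcases hx a b hab with rfl | ⟨⟨g, hg, h1⟩, ⟨h, hh, h2⟩⟩
      · exact Or.inl rfl
      · exact Or.inr ⟨⟨g, hg⟩, ⟨h, hh⟩, h1, h2⟩)
    have hK : MulAction.stabilizer Γ x ≤ grp x t.1 (fun g a b h => t.2 g.1 g.2 a b h) := by
      intro g hg
      rw [mem_grp, MulAction.mem_stabilizer_iff.mp hg]
    let E2 : Set.Iic t ≃o {r : Setoid X // (∀ (g : Γ) (a b : X), r a b → r (g • a) (g • b)) ∧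
        r ≤ t.1} :=
      { toFun := fun r => ⟨r.1.1, fun g a b h => r.1.2 g.1 g.2 a b h, r.2⟩
        invFun := fun r => ⟨⟨r.1, fun g hg a b h => r.2.1 ⟨g, hg⟩ a b h⟩, r.2.2⟩
        left_inv := fun r => rfl
        right_inv := fun r => rfl
        map_rel_iff' := Iff.rfl }
    exact ⟨Γ, inferInstance, inferInstance, _, _, hK, ⟨E2.trans E⟩⟩
  let ω : PCon X Γ := ⟨⟨orb, ⟨orb_refl, orb_symm, orb_trans⟩⟩, by
    intro g hg a b hab
    exact orb_trans (orb_symm (orb_g g hg a)) (orb_trans hab (orb_g g hg b))⟩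
  rcases hall ω with hω | hω | hω
  · -- `ω ≤ t`
    exfalso
    -- the two-class relation of an orbit
    let σ : X → PCon X Γ := fun p => ⟨⟨fun a b => orb p a ↔ orb p b,
      ⟨fun _ => Iff.rfl, fun h => h.symm, fun h h' => h.trans h'⟩⟩, by
      intro g hg a b hab
      have h1 : ∀ a, orb p (g a) ↔ orb p a := fun a =>
        ⟨fun h => orb_trans h (orb_symm (orb_g g hg a)), fun h => orb_trans h (orb_g g hg a)⟩
      show orb p (g a) ↔ orb p (g b)
      rw [h1, h1]
      exact hab⟩
    push Not at hc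
    obtain ⟨a, b, hab⟩ := hc
    have hωc : ∀ a b, orb a b → c.1 a b := fun a b h => hle _ _ (hω h)
    have hnab : ¬ orb a b := fun h => hab (hωc _ _ h)
    have hσ : ∀ p q, ¬ orb p q → ∀ u v, (σ p).1 u v → c.1 u v := by
      intro p q hpq u v huv
      rcases hall (σ p) with h | h | h
      · exact hle _ _ (h huv)
      · rw [← h]
        exact huv
      · exact absurd ((h p q).mp (orb_refl p)) hpq
    have hnba : ¬ orb b a := fun h => hnab (orb_symm h)
    -- no third orbit
    have hthird : ∀ z, orb a z ∨ orb b z := by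
      intro z
      by_contra hcon
      push Not at hcon
      have h1 : c.1 z b := hσ a b hnab z b (iff_of_false hcon.1 hnab)
      have h2 : c.1 z a := hσ b a hnba z a (iff_of_false hcon.2 hnba)
      exact hab (c.1.trans' (c.1.symm' h2) h1)
    obtain ⟨p, q, hpq, hnpq⟩ : ∃ p q, c.1 p q ∧ ¬ t.1 p q := by
      by_contra hcon
      push Not at hcon
      exact absurd (show c ≤ t from fun p q h => hcon p q h) htc.not_ge
    have hnorb : ¬ orb p q := fun h => hnpq (hω h)
    have hca : ∀ u v, orb a u → orb b v → c.1 u v → False := by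
      intro u v hu hv huv
      exact hab (c.1.trans' (hωc _ _ hu) (c.1.trans' huv (c.1.symm' (hωc _ _ hv))))
    rcases hthird p with hp | hp <;> rcases hthird q with hq | hq
    · exact hnorb (orb_trans (orb_symm hp) hq)
    · exact hca p q hp hq hpq
    · exact hca q p hq hp (c.1.symm' hpq)
    · exact hnorb (orb_trans (orb_symm hp) hq)
  · -- `ω = c`
    let ρ : X → PCon X Γ := fun p => ⟨⟨fun a b => a = b ∨ (orb p a ∧ orb p b),
      ⟨fun _ => Or.inl rfl, fun h => by
        rcases h with h | h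
        · exact Or.inl h.symm
        · exact Or.inr ⟨h.2, h.1⟩, fun h h' => by
        rcases h with rfl | h
        · exact h'
        · rcases h' with rfl | h'
          · exact Or.inr h
          · exact Or.inr ⟨h.1, h'.2⟩⟩⟩, by
      intro g hg a b hab
      rcases hab with rfl | ⟨h1, h2⟩
      · exact Or.inl rfl
      · exact Or.inr ⟨orb_trans h1 (orb_g g hg a), orb_trans h2 (orb_g g hg b)⟩⟩
    by_cases h : ∀ p, ρ p ≤ t
    · exfalso
      have : ω ≤ t := by
        intro a b hab
        exact h a (Or.inr ⟨orb_refl a, hab⟩)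
      rw [hω] at this
      exact absurd this htc.not_ge
    · push Not at h
      obtain ⟨p, hp⟩ := h
      refine ⟨p, ?_⟩
      rcases hall (ρ p) with h1 | h1 | h1
      · exact absurd h1 hp
      · intro a b hab
        have : c.1 a b := hle a b hab
        rw [← h1] at this
        exact this
      · intro a b _
        exact h1 a b
  · -- transitive
    by_cases hX : Nonempty X
    · obtain ⟨x⟩ := hX
      exact ⟨x, fun a b _ => Or.inr ⟨hω x a, hω x b⟩⟩
    · exfalso
      exact hc (fun a => (hX ⟨a⟩).elim)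

theorem interval_of_isPerm_withTop {F : Type} [PartialOrder F] [OrderTop F]
    (h : IsPerm (WithTop (WithTop F))) : IsSubInterval F := by
  obtain ⟨X, i1, i2, Γ, ⟨E⟩⟩ := h
  let t : PCon X Γ := E (((⊤ : F) : WithTop F) : WithTop (WithTop F))
  let c : PCon X Γ := E ((⊤ : WithTop F) : WithTop (WithTop F))
  have htc : t < c := E.strictMono (WithTop.coe_lt_coe.mpr (WithTop.coe_lt_top _))
  have htop : ∀ r : PCon X Γ, r = E ⊤ → ∀ a b, r.1 a b := by
    rintro r rfl a b
    have : (⟨⊤, fun _ _ _ _ _ => trivial⟩ : PCon X Γ) ≤ E ⊤ := E.symm_apply_le.mp le_top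
    exact this trivial
  obtain ⟨G, j1, j2, H, K, hHK, ⟨E2⟩⟩ := interval_of_two_tops Γ t c (by
    intro r
    rcases hr : E.symm r with _ | r'
    · right; right
      apply htop
      rw [OrderIso.symm_apply_eq] at hr
      exact hr
    · rcases r' with _ | r''
      · right; left
        rw [OrderIso.symm_apply_eq] at hr
        exact hr
      · left
        rw [OrderIso.symm_apply_eq] at hr
        rw [hr]
        apply E.monotone
        apply WithTop.coe_le_coe.mpr
        apply WithTop.coe_le_coe.mpr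
        exact le_top) htc (by
      intro hcon
      have h1 : E ⊤ ≤ c := fun a b _ => hcon a b
      have h2 : (⊤ : WithTop (WithTop F)) ≤ ((⊤ : WithTop F) : WithTop (WithTop F)) :=
        E.le_iff_le.mp h1
      exact absurd h2 (not_le_of_gt (WithTop.coe_lt_top _)))
  let C : F → Set.Iic t := fun a => ⟨E ((a : WithTop F) : WithTop (WithTop F)),
    E.monotone (WithTop.coe_le_coe.mpr (WithTop.coe_le_coe.mpr le_top))⟩
  have hC : ∀ a b, C a ≤ C b ↔ a ≤ b := by
    intro a b
    show E _ ≤ E _ ↔ _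
    rw [E.le_iff_le, WithTop.coe_le_coe, WithTop.coe_le_coe]
  have hsurj : Function.Surjective C := by
    rintro ⟨r, hr⟩
    have h1 : E.symm r ≤ (((⊤ : F) : WithTop F) : WithTop (WithTop F)) := by
      rw [E.symm_apply_le]
      exact hr
    rcases hr' : E.symm r with _ | r'
    · rw [hr'] at h1
      exact absurd h1 (not_le_of_gt (WithTop.coe_lt_top _))
    · rcases r' with _ | r''
      · rw [hr'] at h1
        exact absurd (WithTop.coe_le_coe.mp h1) (not_le_of_gt (WithTop.coe_lt_top _))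
      · refine ⟨r'', Subtype.ext ?_⟩
        rw [OrderIso.symm_apply_eq] at hr'
        exact hr'.symm
  exact ⟨G, j1, j2, H, K, hHK, ⟨(isoOf C hC hsurj).trans E2⟩⟩

/-! ### The main theorem -/

theorem sdm_withTop {F : Type} [Lattice F] (h : SDM F) : SDM (WithTop F) := by
  intro a b c e
  induction a with
  | top =>
    rw [top_inf_eq, top_inf_eq] at e
    rw [e, sup_idem]
  | coe a =>
    induction b with
    | top =>
      rw [inf_top_eq] at e
      rw [top_sup_eq]
    | coe b =>
      induction c with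
      | top =>
        rw [inf_top_eq] at e
        rw [sup_top_eq, inf_top_eq, e]
      | coe c =>
        have e' : a ⊓ b = a ⊓ c := by
          exact_mod_cast e
        have := h a b c e'
        exact_mod_cast this

theorem sdj_dual {F : Type} [Lattice F] (h : SDM F) : SDJ Fᵒᵈ :=
  fun a b c e => h a b c e

theorem sdm_dual {F : Type} [Lattice F] (h : SDJ F) : SDM Fᵒᵈ :=
  fun a b c e => h a b c e

/-- Representations by finitary operations are representations by maps. -/
theorem exists_inv {L : Type} [LE L] (h : Representable L) :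
    ∃ (m : ℕ) (M : Set (Fin m → Fin m)), id ∈ M ∧ (∀ f ∈ M, ∀ g ∈ M, f ∘ g ∈ M) ∧
      Nonempty (L ≃o Inv M) := by
  classical
  obtain ⟨m, ops, ⟨E⟩⟩ := h
  let P : Setoid (Fin m) → Prop := fun r => ∀ o ∈ ops, ∀ x y : Fin o.1 → Fin m,
        (∀ i, r.r (x i) (y i)) → r.r (o.2 x) (o.2 y)
  let M : Set (Fin m → Fin m) := {f | ∀ r, P r → ∀ a b, r a b → r (f a) (f b)}
  refine ⟨m, M, fun r _ a b h => h, fun f hf g hg r hr a b h => hf r hr _ _ (hg r hr _ _ h),
    ⟨E.trans ?_⟩⟩
  have key : ∀ r : Setoid (Fin m), (∀ f ∈ M, ∀ a b, r a b → r (f a) (f b)) → P r := by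
    intro r hr o ho x y hxy
    have step : ∀ s : Finset (Fin o.1), r (o.2 x) (o.2 (s.piecewise y x)) := by
      intro s
      induction s using Finset.induction_on with
      | empty =>
        rw [Finset.piecewise_empty]
      | insert i s hi ih =>
        refine r.trans' ih ?_
        have hf : (fun z => o.2 (Function.update (s.piecewise y x) i z)) ∈ M := by
          intro r' hr' a b hab
          apply hr' o ho
          intro j
          by_cases hj : j = i
          · subst hj
            simpa using hab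
          · rw [Function.update_of_ne hj, Function.update_of_ne hj]
        have h1 := hr _ hf (x i) (y i) (hxy i)
        have e1 : Function.update (s.piecewise y x) i (x i) = s.piecewise y x := by
          rw [Function.update_eq_self_iff, Finset.piecewise_eq_of_notMem _ _ _ hi]
        have e2 : Function.update (s.piecewise y x) i (y i) = (insert i s).piecewise y x := by
          rw [Finset.piecewise_insert]
        simp only [e1, e2] at h1
        exact h1
    have := step Finset.univ
    rwa [Finset.piecewise_univ] at this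
  exact
    { toFun := fun r => ⟨r.1, fun f hf a b h => hf r.1 r.2 a b h⟩
      invFun := fun r => ⟨r.1, key r.1 r.2⟩
      left_inv := fun r => rfl
      right_inv := fun r => rfl
      map_rel_iff' := Iff.rfl }

/-- For every finite meet-semidistributive lattice `F` there is a finite meet-semidistributive
lattice `L` such that if `L` is representable then `F` comes from a permutation group. -/
theorem exists_forcing (F : Type) [Lattice F] [BoundedOrder F] [Finite F] (hF : SDM F) :
    ∃ (L : Type) (_ : Lattice L) (_ : Finite L), SDM L ∧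
      (∃ γ : L, Nonempty (F ≃o Set.Ici γ)) ∧ (Representable L → IsPerm F) := by
  obtain ⟨K, i1, i2, i3, ι, x, y, h1, h2, h3, h4, h5, h6, h7⟩ := exists_tied (sdj_dual hF)
  refine ⟨Kᵒᵈ, inferInstance, inferInstance, sdm_dual h1, ?_, ?_⟩
  · let C : F → Set.Ici (OrderDual.toDual (ι ⊤) : Kᵒᵈ) :=
      fun a => ⟨OrderDual.toDual (ι (OrderDual.toDual a)), (h2 _ _).mpr le_top⟩
    refine ⟨OrderDual.toDual (ι ⊤), ⟨isoOf C ?_ ?_⟩⟩
    · intro a b
      show OrderDual.toDual (ι _) ≤ OrderDual.toDual (ι _) ↔ _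
      rw [OrderDual.toDual_le_toDual, h2]
      exact Iff.rfl
    · rintro ⟨r, hr⟩
      obtain ⟨a, ha⟩ := h3 (OrderDual.ofDual r) hr
      exact ⟨OrderDual.ofDual a, Subtype.ext ha⟩
  intro hrep
  obtain ⟨m, M, hid, hcomp, ⟨E⟩⟩ := exists_inv hrep
  have hm : Nonempty (Fin m) := by
    by_contra hcon
    rw [not_nonempty_iff] at hcon
    have : Subsingleton (Inv M) := ⟨fun a b => Subtype.ext (Setoid.ext (fun p => hcon.elim p))⟩
    apply h4.1
    have h8 : E (OrderDual.toDual x) = E (OrderDual.toDual ⊥) := Subsingleton.elim _ _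
    exact OrderDual.toDual.injective (E.injective h8)
  let T : K → Inv M := fun k => E (OrderDual.toDual k)
  have hT : ∀ a b, T a ≤ T b ↔ b ≤ a := by
    intro a b
    show E _ ≤ E _ ↔ _
    rw [E.le_iff_le]
    exact Iff.rfl
  have hTs : Function.Surjective T := by
    intro r
    exact ⟨OrderDual.ofDual (E.symm r), E.apply_symm_apply r⟩
  have hTtop : T ⊥ = ⊤ := by
    obtain ⟨k, hk⟩ := hTs ⊤
    apply top_le_iff.mp
    rw [← hk, hT]
    exact bot_le
  have hTsup : ∀ a b, T (a ⊔ b) = T a ⊓ T b := by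
    intro a b
    show E (OrderDual.toDual a ⊓ OrderDual.toDual b) = _
    exact map_inf E _ _
  have hTinf : ∀ a b, T (a ⊓ b) = T a ⊔ T b := by
    intro a b
    show E (OrderDual.toDual a ⊔ OrderDual.toDual b) = _
    exact map_sup E _ _
  have hcov : ∀ x, IsAtom x → ∀ z, T x < z → z = ⊤ := by
    intro x hx z hz
    obtain ⟨k, rfl⟩ := hTs z
    have : k < x := lt_of_le_not_ge ((hT _ _).mp hz.le) (fun h => absurd ((hT _ _).mpr h) hz.not_ge)
    rw [hx.2 k this, hTtop]
  have hperm := perm_of_tied (Nat.card (Fin m)) (Fin m) le_rfl M hid hcomp (T (ι ⊤)) (T x) (T y)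
    (hcov x h4) (hcov y h5) (by
      rw [← hTsup, hT]
      exact h6) (by
      intro r hr a b ha hb hab hrab
      obtain ⟨a', rfl⟩ := hTs a
      obtain ⟨b', rfl⟩ := hTs b
      obtain ⟨a, rfl⟩ := h3 a' ((hT _ _).mp ha)
      obtain ⟨b, rfl⟩ := h3 b' ((hT _ _).mp hb)
      have h8 := h7 (fun u v => r (T u) (T v)) ⟨⟨fun _ => hr.1.refl _, fun h => hr.1.symm h,
        fun h h' => hr.1.trans h h'⟩, by
          intro u v w h
          show r (T (u ⊔ w)) (T (v ⊔ w))
          rw [hTsup, hTsup]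
          exact hr.2.2 _ _ _ h, by
          intro u v w h
          show r (T (u ⊓ w)) (T (v ⊓ w))
          rw [hTinf, hTinf]
          exact hr.2.1 _ _ _ h⟩ a b (fun h => hab (by rw [h])) hrab
      replace h8 : r (T ⊥) (T (x ⊔ y)) := h8
      rw [hTtop, hTsup] at h8
      constructor
      · have h9 := hr.2.1 _ _ (T x) h8
        rw [top_sup_eq, sup_comm, sup_inf_self] at h9
        exact hr.1.symm h9
      · have h9 := hr.2.1 _ _ (T y) h8
        rw [top_sup_eq, sup_comm, inf_comm, sup_inf_self] at h9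
        exact hr.1.symm h9)
  obtain ⟨X, j1, j2, Γ, ⟨E2⟩⟩ := hperm
  let C : F → Set.Ici (T (ι ⊤)) := fun a => ⟨T (ι (OrderDual.toDual a)), by
    show T (ι ⊤) ≤ T _
    rw [hT, h2]
    exact le_top⟩
  have hC : ∀ a b, C a ≤ C b ↔ a ≤ b := by
    intro a b
    show T _ ≤ T _ ↔ _
    rw [hT, h2]
    exact Iff.rfl
  have hsurj : Function.Surjective C := by
    rintro ⟨r, hr⟩
    obtain ⟨k, rfl⟩ := hTs r
    obtain ⟨a, rfl⟩ := h3 k ((hT _ _).mp hr)
    exact ⟨OrderDual.ofDual a, rfl⟩
  exact ⟨X, j1, j2, Γ, ⟨(isoOf C hC hsurj).trans E2⟩⟩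

/-- The local form. -/
theorem exists_forcing_interval (F : Type) [Lattice F] [Nonempty F] [Finite F] (hF : SDM F) :
    ∃ (L : Type) (_ : Lattice L) (_ : Finite L), SDM L ∧
      (∃ γ δ : L, γ ≤ δ ∧ Nonempty (F ≃o Set.Icc γ δ)) ∧ (Representable L → IsSubInterval F) := by
  classical
  have := Fintype.ofFinite F
  let _ : BoundedOrder F := Fintype.toBoundedOrder F
  obtain ⟨L, i1, i2, h1, ⟨γ, ⟨E⟩⟩, h2⟩ :=
    exists_forcing (WithTop (WithTop F)) (sdm_withTop (sdm_withTop hF))
  refine ⟨L, i1, i2, h1, ?_, fun h => interval_of_isPerm_withTop (h2 h)⟩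
  let T : F → L := fun a => (E ((a : WithTop F) : WithTop (WithTop F))).1
  have hT : ∀ a b, T a ≤ T b ↔ a ≤ b := by
    intro a b
    show E _ ≤ E _ ↔ _
    rw [E.le_iff_le, WithTop.coe_le_coe, WithTop.coe_le_coe]
  have hγ : ∀ a, γ ≤ T a := fun a => (E ((a : WithTop F) : WithTop (WithTop F))).2
  refine ⟨γ, T ⊤, hγ _, ⟨isoOf (fun a => (⟨T a, hγ a, (hT _ _).mpr le_top⟩ : Set.Icc γ (T ⊤)))
    (fun a b => hT a b) ?_⟩⟩
  rintro ⟨r, hr1, hr2⟩
  have h3 : E.symm ⟨r, hr1⟩ ≤ (((⊤ : F) : WithTop F) : WithTop (WithTop F)) := by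
    rw [E.symm_apply_le]
    exact hr2
  rcases hr' : E.symm ⟨r, hr1⟩ with _ | r'
  · rw [hr'] at h3
    exact absurd h3 (not_le_of_gt (WithTop.coe_lt_top _))
  · rcases r' with _ | r''
    · rw [hr'] at h3
      exact absurd (WithTop.coe_le_coe.mp h3) (not_le_of_gt (WithTop.coe_lt_top _))
    · refine ⟨r'', Subtype.ext ?_⟩
      rw [OrderIso.symm_apply_eq] at hr'
      exact (congrArg Subtype.val hr').symm

end Pool.Agent.Work.MP_a42ba1_al.PP
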