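import Mathlib
import Pool.Agent.Work.MP_a42ba1_al.PPMain

set_option autoImplicit false

namespace Pool.Agent.Work.MP_a42ba1_al.PP

open Equiv

/-- Relabelling of the index set by an arbitrary map. -/
def dmap {W S : Type} [Group S] (δ : W → W) : KM W S → KM W S :=
  Quotient.map (fun v => fun w => v (δ w)) (by
    intro v v' h w w'
    exact h _ _)

theorem dmap_mk {W S : Type} [Group S] (δ : W → W) (v : W → S) :
    dmap δ (kmk v) = kmk (fun w => v (δ w)) := rfl

/-- Kurzweil's duality. -/
theorem representable_dual {L : Type} [PartialOrder L] (h : Representable L) :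
    Representable Lᵒᵈ := by
  classical
  obtain ⟨m, M, hid, hcomp, ⟨E⟩⟩ := exists_inv h
  let W := Fin m
  let S := alternatingGroup (Fin 5)
  obtain ⟨x0, y0, hxy⟩ := a5_nonabelian
  have hs0 : ∃ s : S, s ≠ 1 := ⟨x0, by rintro rfl; simp at hxy⟩
  let ops : Set (KM W S → KM W S) :=
    {f | (∃ u : W → S, f = lmul u) ∨ ∃ δ ∈ M, f = dmap δ}
  -- the map
  let C : Lᵒᵈ → UCon (KM W S) ops := fun l => ⟨RR (E (OrderDual.ofDual l)).1, by
    rintro f (⟨u, rfl⟩ | ⟨δ, hδ, rfl⟩) a b hab
    · rw [← kmk_out a, ← kmk_out b] at hab ⊢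
      rw [lmul_mk, lmul_mk]
      rw [RR_mk] at hab ⊢
      simpa [mul_assoc] using hab
    · rw [← kmk_out a, ← kmk_out b] at hab ⊢
      rw [dmap_mk, dmap_mk]
      rw [RR_mk] at hab ⊢
      intro w w' hw
      exact hab _ _ ((E (OrderDual.ofDual l)).2 δ hδ _ _ hw)⟩
  have hRR : ∀ π π' : Setoid W, (RR (S := S) π ≤ RR π') ↔ π' ≤ π := by
    intro π π'
    constructor
    · intro h w w' hw
      by_contra hn
      obtain ⟨s, hs⟩ := hs0
      let v' : W → S := fun x => if π.r w x then s else 1
      have h1 : (RR π).r (kmk 1) (kmk v') := by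
        rw [RR_mk]
        intro x x' hx
        have : π.r w x ↔ π.r w x' :=
          ⟨fun h => π.trans' h hx, fun h => π.trans' h (π.symm' hx)⟩
        simp [v', this]
      have h2 := h h1
      change (RR π').r (kmk 1) (kmk v') at h2
      rw [RR_mk] at h2
      have h3 := h2 w w' hw
      have e1 : π.r w w := π.refl' w
      have e2 : ¬ π.r w w' := hn
      simp only [v', if_pos e1, if_neg e2, Pi.one_apply] at h3
      apply hs
      simpa using h3
    · intro h m m' hm w w' hw
      exact hm w w' (h hw)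
  have hC : ∀ a b, C a ≤ C b ↔ a ≤ b := by
    intro a b
    show RR _ ≤ RR _ ↔ _
    rw [hRR]
    show E _ ≤ E _ ↔ _
    rw [E.le_iff_le]
    exact Iff.rfl
  have hsurj : Function.Surjective C := by
    intro ρ
    have hl : ∀ (u k k' : W → S), ρ.1.r (kmk k) (kmk k') → ρ.1.r (kmk (u * k)) (kmk (u * k')) := by
      intro u k k' h
      exact ρ.2 (lmul u) (Or.inl ⟨u, rfl⟩) _ _ h
    let K : Subgroup (W → S) :=
      { carrier := {k | ρ.1.r (kmk k) (kmk 1)}
        one_mem' := ρ.1.refl' _
        mul_mem' := by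
          intro k k' hk hk'
          have := hl k _ _ hk'
          simp only [mul_one] at this
          exact ρ.1.trans' this hk
        inv_mem' := by
          intro k hk
          have := hl k⁻¹ _ _ hk
          simp only [mul_one, inv_mul_cancel] at this
          exact ρ.1.symm' this }
    have hKmem : ∀ k, k ∈ K ↔ ρ.1.r (kmk k) (kmk 1) := fun k => Iff.rfl
    have hKd : ∀ c : S, (fun _ : W => c) ∈ K := by
      intro c
      rw [hKmem]
      have : kmk (fun _ : W => c) = kmk 1 := by
        rw [kmk_eq]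
        intro _ _
        rfl
      rw [this]
    let π : Setoid W :=
      { r := fun w w' => ∀ k ∈ K, k w = k w'
        iseqv := ⟨fun _ _ _ => rfl, fun h k hk => (h k hk).symm,
          fun h h' k hk => (h k hk).trans (h' k hk)⟩ }
    have hπinv : ∀ f ∈ M, ∀ x y, π x y → π (f x) (f y) := by
      intro f hf x y h k hk
      have hk' : (fun w : W => k (f w)) ∈ K := by
        rw [hKmem] at hk ⊢
        exact ρ.2 (dmap f) (Or.inr ⟨f, hf, rfl⟩) _ _ hk
      exact h _ hk'
    refine ⟨OrderDual.toDual (E.symm ⟨π, hπinv⟩), ?_⟩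
    apply Subtype.ext
    show RR (E (E.symm ⟨π, hπinv⟩)).1 = ρ.1
    rw [E.apply_symm_apply]
    apply Setoid.ext
    intro z z'
    rw [← kmk_out z, ← kmk_out z']
    generalize Quotient.out z = v
    generalize Quotient.out z' = v'
    have h1 : ρ.1.r (kmk v) (kmk v') ↔ v⁻¹ * v' ∈ K := by
      rw [hKmem]
      constructor
      · intro h
        have := hl v⁻¹ _ _ h
        simp only [inv_mul_cancel] at this
        exact ρ.1.symm' this
      · intro h
        have := hl v _ _ h
        simp only [mul_inv_cancel_left, mul_one] at this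
        exact ρ.1.symm' this
    show (RR π).r (kmk v) (kmk v') ↔ ρ.1.r (kmk v) (kmk v')
    rw [h1, RR_mk]
    constructor
    · intro h
      apply mem_of_const_on_classes ⟨x0, y0, hxy⟩ K hKd
      intro w w' hk
      exact h w w' hk
    · intro h w w' hw
      exact hw _ h
  exact representable_of_ucon ops (isoOf C hC hsurj)

/-- A transitive group gives an interval. -/
theorem interval_of_powRep {F : Type} [PartialOrder F] (h : HasPowRep F) : IsSubInterval F := by
  obtain ⟨M, i1, i2, R, h1, h2, h3⟩ := h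
  obtain ⟨x⟩ := i2
  obtain ⟨E⟩ := icc_iso (Γ := autR R) x ⊤ (fun _ _ _ _ => trivial) (by
    intro a b _
    obtain ⟨g, hg, hg'⟩ := h2 x a
    obtain ⟨h, hh, hh'⟩ := h2 x b
    exact Or.inr ⟨⟨g, hg⟩, ⟨h, hh⟩, hg', hh'⟩)
  let C : F → {r : Setoid M // (∀ (g : autR R) (a b : M), r a b → r (g • a) (g • b)) ∧ r ≤ ⊤} :=
    fun f => ⟨R f, fun g a b h => (g.2 f a b).mp h, le_top⟩
  have hC : ∀ a b, C a ≤ C b ↔ a ≤ b := fun a b => (h1 a b).symm
  have hsurj : Function.Surjective C := by
    rintro ⟨r, hr, hr'⟩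
    obtain ⟨f, hf⟩ := h3 Unit (Setoid.comap (fun z => z ()) r) (by
      intro g hg z z' hz
      exact hr ⟨g (), hg ()⟩ _ _ hz) (by
      intro σ z z' hz
      exact hz)
    refine ⟨f, Subtype.ext ?_⟩
    apply Setoid.ext
    intro a b
    have := hf (fun _ => a) (fun _ => b)
    constructor
    · intro h
      exact this.mpr (fun _ => h)
    · intro h
      exact this.mp h ()
  refine ⟨autR R, inferInstance, inferInstance, _, _, ?_, ⟨(isoOf C hC hsurj).trans E⟩⟩
  intro g hg
  exact trivial

/-- Kurzweil's duality for intervals in subgroup lattices. -/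
theorem interval_dual {F : Type} [PartialOrder F] (h : IsSubInterval F) : IsSubInterval Fᵒᵈ := by
  obtain ⟨X, i1, i2, Γ, ⟨E⟩⟩ := isPerm_of_interval h
  exact interval_of_powRep (HasPowRep.of_iso E.dual (kurz X Γ))

theorem interval_of_iso {F F' : Type} [LE F] [LE F'] (e : F ≃o F') (h : IsSubInterval F') :
    IsSubInterval F := by
  obtain ⟨G, i1, i2, H, K, hHK, ⟨E⟩⟩ := h
  exact ⟨G, i1, i2, H, K, hHK, ⟨e.trans E⟩⟩

theorem representable_of_iso {F F' : Type} [LE F] [LE F'] (e : F ≃o F') (h : Representable F') :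
    Representable F := by
  obtain ⟨m, ops, ⟨E⟩⟩ := h
  exact ⟨m, ops, ⟨e.trans E⟩⟩

/-- The local form for join-semidistributive lattices. -/
theorem exists_forcing_interval_join (F : Type) [Lattice F] [Nonempty F] [Finite F]
    (hF : SDJ F) :
    ∃ (L : Type) (_ : Lattice L) (_ : Finite L), SDJ L ∧
      (∃ γ δ : L, γ ≤ δ ∧ Nonempty (F ≃o Set.Icc γ δ)) ∧ (Representable L → IsSubInterval F) := by
  obtain ⟨L, i1, i2, h1, ⟨γ, δ, hγδ, ⟨E⟩⟩, h2⟩ := exists_forcing_interval Fᵒᵈ (sdm_dual hF)
  refine ⟨Lᵒᵈ, inferInstance, inferInstance, sdj_dual h1, ?_, fun h => ?_⟩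
  · let C : F → Set.Icc (OrderDual.toDual δ) (OrderDual.toDual γ) :=
      fun a => ⟨OrderDual.toDual (E (OrderDual.toDual a)).1, (E _).2.2, (E _).2.1⟩
    refine ⟨OrderDual.toDual δ, OrderDual.toDual γ, hγδ, ⟨isoOf C ?_ ?_⟩⟩
    · intro a b
      show E (OrderDual.toDual b) ≤ E (OrderDual.toDual a) ↔ _
      rw [E.le_iff_le]
      exact Iff.rfl
    · rintro ⟨r, hr1, hr2⟩
      refine ⟨OrderDual.ofDual (E.symm ⟨OrderDual.ofDual r, hr2, hr1⟩), Subtype.ext ?_⟩
      show OrderDual.toDual (E (E.symm _)).1 = r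
      rw [E.apply_symm_apply]
      rfl
  have h3 : Representable L := representable_of_iso (OrderIso.dualDual L) (representable_dual h)
  exact interval_of_iso (OrderIso.dualDual F) (interval_dual (h2 h3))

end Pool.Agent.Work.MP_a42ba1_al.PP
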