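import Mathlib
import Pool.Agent.Work.MP_a42ba1_al.Pattern

set_option autoImplicit false

namespace Pool.Agent.Work.MP_a42ba1_al

open Equiv

section

variable {P : Type} [PartialOrder P]

/-- Functions agreeing outside a lower set. -/
def agr (I : LowerSet P) : Setoid (P → Fin 3) where
  r y y' := ∀ p, p ∉ I → y p = y' p
  iseqv := ⟨fun _ _ _ => rfl, fun h p hp => (h p hp).symm,
    fun h h' p hp => (h p hp).trans (h' p hp)⟩

theorem two_layer [Finite P] (p : P) (T : P → Fin 3 → Perm (Fin 3)) :
    ∃ g ∈ autR (agr (P := P)), ∀ (u : P → Fin 3) (q : P),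
      ((q < p → g u q = T q (u p) (u q)) ∧ (¬ q < p → g u q = T q 0 (u q))) := by
  classical
  let G : (P → Fin 3) → (P → Fin 3) := fun u q => if q < p then T q (u p) (u q) else T q 0 (u q)
  have hG1 : ∀ u q, q < p → G u q = T q (u p) (u q) := fun u q h => if_pos h
  have hG2 : ∀ u q, ¬ q < p → G u q = T q 0 (u q) := fun u q h => if_neg h
  have hinj : Function.Injective G := by
    intro u v huv
    have h1 : ∀ q, ¬ q < p → u q = v q := by
      intro q hq
      have := congrFun huv q
      rw [hG2 _ _ hq, hG2 _ _ hq] at this
      exact (T q 0).injective this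
    funext q
    by_cases hq : q < p
    · have := congrFun huv q
      rw [hG1 _ _ hq, hG1 _ _ hq, h1 p (lt_irrefl p)] at this
      exact (T q _).injective this
    · exact h1 q hq
  let g : Perm (P → Fin 3) := Equiv.ofBijective G (Finite.injective_iff_bijective.mp hinj)
  refine ⟨g, ?_, ?_⟩
  · intro I u v
    constructor
    · intro h q hq
      show G u q = G v q
      by_cases hqp : q < p
      · have hp : p ∉ I := fun h => hq (I.lower hqp.le h)
        rw [hG1 _ _ hqp, hG1 _ _ hqp, h q hq, h p hp]
      · rw [hG2 _ _ hqp, hG2 _ _ hqp, h q hq]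
    · intro h
      have h1 : ∀ q, q ∉ I → ¬ q < p → u q = v q := by
        intro q hq hqp
        have : G u q = G v q := h q hq
        rw [hG2 _ _ hqp, hG2 _ _ hqp] at this
        exact (T q 0).injective this
      intro q hq
      by_cases hqp : q < p
      · have hp : p ∉ I := fun h => hq (I.lower hqp.le h)
        have : G u q = G v q := h q hq
        rw [hG1 _ _ hqp, hG1 _ _ hqp, h1 p hp (lt_irrefl p)] at this
        exact (T q _).injective this
      · exact h1 q hq hqp
  · intro u q
    exact ⟨hG1 u q, hG2 u q⟩

theorem third (s t : Fin 3) : ∃ c, c ≠ s ∧ c ≠ t := by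
  revert s t
  decide

theorem agr_full [Finite P] (ρ : Setoid (P → Fin 3))
    (hρ : ∀ g ∈ autR (agr (P := P)), ∀ z z', ρ.r z z' → ρ.r (g z) (g z')) :
    ∃ I : LowerSet P, ∀ z z', ρ.r z z' ↔ (agr I).r z z' := by
  classical
  have key : ∀ (p : P) (y y' : P → Fin 3), ρ.r y y' → y p ≠ y' p →
      ∀ z z' : P → Fin 3, (∀ q, ¬ q ≤ p → z q = z' q) → ρ.r z z' := by
    intro p y y' hy hne
    obtain ⟨c, hc1, hc2⟩ := third (y p) (y' p)
    -- step 1
    have s1 : ρ.r y' (Function.update y' p c) := by
      obtain ⟨g, hg, hg2⟩ := two_layer p (fun q _ => if q = p then swap (y' p) c else 1)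
      have h1 : g y = y := by
        funext q
        by_cases hq : q < p
        · rw [(hg2 y q).1 hq, if_neg hq.ne]
          rfl
        · rw [(hg2 y q).2 hq]
          by_cases hqp : q = p
          · subst hqp
            rw [if_pos rfl, swap_apply_of_ne_of_ne hne hc1.symm]
          · rw [if_neg hqp]
            rfl
      have h2 : g y' = Function.update y' p c := by
        funext q
        by_cases hq : q < p
        · rw [(hg2 y' q).1 hq, if_neg hq.ne, Function.update_of_ne hq.ne]
          rfl
        · rw [(hg2 y' q).2 hq]
          by_cases hqp : q = p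
          · subst hqp
            rw [if_pos rfl, swap_apply_left, Function.update_self]
          · rw [if_neg hqp, Function.update_of_ne hqp]
            rfl
      have := hρ g hg _ _ hy
      rw [h1, h2] at this
      exact ρ.trans' (ρ.symm' hy) this
    -- step 2
    have s2 : ∀ z z' : P → Fin 3, z p ≠ z' p → (∀ q, ¬ q ≤ p → z q = z' q) → ρ.r z z' := by
      intro z z' hz hzz
      obtain ⟨π, hπ1, hπ2⟩ := exists_perm_two hc2.symm hz
      obtain ⟨g, hg, hg2⟩ := two_layer p (fun q s =>
        if q = p then π else if q < p then
          (if s = y' p then swap (y' q) (z q) else swap (y' q) (z' q)) else swap (y' q) (z q))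
      have h1 : g y' = z := by
        funext q
        by_cases hq : q < p
        · rw [(hg2 y' q).1 hq, if_neg hq.ne, if_pos hq, if_pos rfl, swap_apply_left]
        · rw [(hg2 y' q).2 hq]
          by_cases hqp : q = p
          · subst hqp
            rw [if_pos rfl, hπ1]
          · rw [if_neg hqp, if_neg hq, swap_apply_left]
      have h2 : g (Function.update y' p c) = z' := by
        funext q
        by_cases hq : q < p
        · rw [(hg2 _ q).1 hq, if_neg hq.ne, if_pos hq, Function.update_self,
            if_neg hc2, Function.update_of_ne hq.ne, swap_apply_left]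
        · rw [(hg2 _ q).2 hq]
          by_cases hqp : q = p
          · subst hqp
            rw [if_pos rfl, Function.update_self, hπ2]
          · rw [if_neg hqp, if_neg hq, Function.update_of_ne hqp, swap_apply_left]
            apply hzz
            intro h
            exact hq (lt_of_le_of_ne h hqp)
      have := hρ g hg _ _ s1
      rw [h1, h2] at this
      exact this
    -- step 3
    intro z z' hzz
    obtain ⟨c', hc1', hc2'⟩ := third (z p) (z' p)
    have e1 : ρ.r (Function.update z p c') z := by
      apply s2
      · rw [Function.update_self]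
        exact hc1'
      · intro q hq
        rw [Function.update_of_ne]
        rintro rfl
        exact hq le_rfl
    have e2 : ρ.r (Function.update z p c') z' := by
      apply s2
      · rw [Function.update_self]
        exact hc2'
      · intro q hq
        rw [Function.update_of_ne, hzz q hq]
        rintro rfl
        exact hq le_rfl
    exact ρ.trans' (ρ.symm' e1) e2
  let I : LowerSet P :=
    { carrier := {p | ∃ y y', ρ.r y y' ∧ y p ≠ y' p}
      lower' := by
        rintro p q hqp ⟨y, y', hy, hne⟩
        refine ⟨fun _ => 0, Function.update (fun _ => 0) q 1, ?_, ?_⟩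
        · apply key p y y' hy hne
          intro r hr
          rw [Function.update_of_ne]
          rintro rfl
          exact hr hqp
        · rw [Function.update_self]
          show (0 : Fin 3) ≠ 1
          decide }
  have hI : ∀ p, p ∈ I ↔ ∃ y y', ρ.r y y' ∧ y p ≠ y' p := fun p => Iff.rfl
  refine ⟨I, fun z z' => ?_⟩
  constructor
  · intro h p hp
    by_contra hne
    exact hp ((hI p).mpr ⟨z, z', h, hne⟩)
  · intro h
    have : Fintype P := Fintype.ofFinite P
    have ind : ∀ s : Finset P, ρ.r z (s.piecewise z' z) := by
      intro s
      induction s using Finset.induction_on with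
      | empty => simp
      | insert p s hp ih =>
        refine ρ.trans' ih ?_
        rw [Finset.piecewise_insert]
        by_cases hpI : p ∈ I
        · obtain ⟨y, y', hy, hne⟩ := (hI p).mp hpI
          apply key p y y' hy hne
          intro q hq
          rw [Function.update_of_ne]
          rintro rfl
          exact hq le_rfl
        · have : Function.update (s.piecewise z' z) p (z' p) = s.piecewise z' z := by
            rw [← h p hpI]
            have h2 : s.piecewise z' z p = z p := by simp [hp]
            rw [← h2, Function.update_eq_self]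
          rw [this]
    have := ind Finset.univ
    simpa using this

theorem isPerm_lowerSet [Finite P] : IsPerm (LowerSet P) := by
  classical
  refine ⟨P → Fin 3, inferInstance, inferInstance, autR (agr (P := P)), ⟨?_⟩⟩
  refine RelIso.ofSurjective (OrderEmbedding.ofMapLEIff
    (fun I => (⟨agr I, ?_⟩ : PCon (P → Fin 3) (autR (agr (P := P))))) ?_) ?_
  · intro g hg x y hxy
    exact (hg I x y).mp hxy
  · intro I J
    constructor
    · intro h p hp
      by_contra hn
      have h1 : (agr I).r (fun _ => 0) (Function.update (fun _ => 0) p 1) := by
        intro q hq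
        rw [Function.update_of_ne]
        rintro rfl
        exact hq hp
      have h2 : (agr J).r (fun _ => 0) (Function.update (fun _ => 0) p 1) := h h1
      have h3 := h2 p hn
      rw [Function.update_self] at h3
      have h4 : (0 : Fin 3) = 1 := h3
      revert h4
      decide
    · intro h x y hxy p hp
      exact hxy p (fun hh => hp (h hh))
  · intro ρ
    obtain ⟨I, hI⟩ := agr_full ρ.1 ρ.2
    refine ⟨I, ?_⟩
    apply Subtype.ext
    apply Setoid.ext
    intro x y
    exact (hI x y).symm

end

theorem isPerm_of_iso {F F' : Type} [LE F] [LE F'] (e : F ≃o F') (h : IsPerm F') : IsPerm F := by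
  obtain ⟨M, h1, h2, Γ, ⟨e'⟩⟩ := h
  exact ⟨M, h1, h2, Γ, ⟨e.trans e'⟩⟩

theorem isPerm_distrib (D : Type) [DistribLattice D] [Finite D] [Nonempty D] : IsPerm D := by
  classical
  have : Fintype D := Fintype.ofFinite D
  let _ : OrderBot D := Fintype.toOrderBot D
  exact isPerm_of_iso (OrderIso.lowerSetSupIrred (α := D)) isPerm_lowerSet

end Pool.Agent.Work.MP_a42ba1_al
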